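import Pool.Agent.Lib_MP_331e4f_bw.FinIdx
import Pool.Agent.Lib_MP_331e4f_al.Known

/-!
# P12: closure properties of thin groups

`Thin.of_finiteIndex` (P12c) is in `FinIdx.lean`.
-/

namespace MP331e4fBw

open MP331e4f (aug AugRad)

private theorem mapRing_injective {k : Type*} [Field k] {H Q : Type*} [Group H] [Group Q]
    (f : H →* Q) (hf : Function.Injective f) :
    Function.Injective (MonoidAlgebra.mapDomainRingHom k f) := by
  intro x y h
  exact MonoidAlgebra.mapDomain_injective hf h

private theorem mapRing_surjective {k : Type*} [Field k] {H Q : Type*} [Group H] [Group Q]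
    (f : H →* Q) (hf : Function.Surjective f) :
    Function.Surjective (MonoidAlgebra.mapDomainRingHom k f) := by
  intro x
  induction x using MonoidAlgebra.induction_linear with
  | zero => exact ⟨0, map_zero _⟩
  | add a b ha hb =>
    obtain ⟨a', rfl⟩ := ha
    obtain ⟨b', rfl⟩ := hb
    exact ⟨a' + b', map_add _ _ _⟩
  | single g r =>
    obtain ⟨g', rfl⟩ := hf g
    exact ⟨MonoidAlgebra.single g' r, by simp [MonoidAlgebra.mapDomainRingHom]⟩

/-- P12a. -/
theorem Thin.subgroup {p : ℕ} [Fact p.Prime] {H : Type*} [Group H] (h : Thin p H)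
    (P : Subgroup H) : Thin p P := by
  intro d T hT
  let φ : MonoidAlgebra (ZMod p) P →+* MonoidAlgebra (ZMod p) H :=
    MonoidAlgebra.mapDomainRingHom (ZMod p) P.subtype
  have hφ : Function.Injective φ := mapRing_injective P.subtype P.subtype_injective
  obtain ⟨n, hn⟩ := h d (φ.mapMatrix T) (by
    intro i j
    change aug (ZMod p) H (MonoidAlgebra.mapDomainRingHom (ZMod p) P.subtype (T i j)) = 0
    rw [MP331e4f.aug_mapDomain]
    exact hT i j)
  refine ⟨n, ?_⟩
  rw [← map_pow] at hn
  refine Matrix.ext fun i j => ?_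
  have h1 := congrFun (congrFun hn i) j
  change φ ((T ^ n) i j) = 0 at h1
  rw [← map_zero φ] at h1
  exact hφ h1

/-- P12b. -/
theorem Thin.of_surjective {p : ℕ} [Fact p.Prime] {H Q : Type*} [Group H] [Group Q]
    (h : Thin p H) (f : H →* Q) (hf : Function.Surjective f) : Thin p Q := by
  intro d T hT
  let φ : MonoidAlgebra (ZMod p) H →+* MonoidAlgebra (ZMod p) Q :=
    MonoidAlgebra.mapDomainRingHom (ZMod p) f
  have hφ : Function.Surjective φ := mapRing_surjective f hf
  choose S hS using fun i j => hφ (T i j)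
  have hST : φ.mapMatrix (Matrix.of S) = T := by
    refine Matrix.ext fun i j => ?_
    exact hS i j
  obtain ⟨n, hn⟩ := h d (Matrix.of S) (by
    intro i j
    change aug (ZMod p) H (S i j) = 0
    rw [← MP331e4f.aug_mapDomain (ZMod p) f, ← hT i j, ← hS i j])
  refine ⟨n, ?_⟩
  rw [← hST, ← map_pow, hn, map_zero]

end MP331e4fBw
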