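import Pool.Agent.Lib_MP_331e4f_bw.Count1

/-!
# P1: counting coefficient matrices with a non-injective blow-up over a finite field
-/

open Module

namespace MP331e4fBw

universe u

section aux

open Finset

variable {L : Type*} [Field L] [Fintype L] {S : Type*} [Fintype S] {r : ℕ}
    {E F : Type*} [AddCommGroup E] [Module L E] [FiniteDimensional L E]
    [AddCommGroup F] [Module L F] [FiniteDimensional L F]

private theorem ncard_eq {α : Type*} [Fintype α] (P : α → Prop) [DecidablePred P] :
    ({a | P a} : Set α).ncard = (univ.filter P).card := by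
  rw [Set.ncard_eq_toFinset_card', Set.toFinset_ofPred]

/-- the image of a submodule under the family -/
private def img (B : S → E →ₗ[L] F) (U : Submodule L E) : Submodule L F := ⨆ s, U.map (B s)

open scoped Classical in
private theorem card_le_div (B : S → E →ₗ[L] F) (x : Fin r → E) :
    (univ.filter fun A : S → Matrix (Fin r) (Fin r) L => blow A B x = 0).card ≤
      Fintype.card (S → Matrix (Fin r) (Fin r) L) /
        Fintype.card L ^ (r * finrank L (img B (Submodule.span L (Set.range x)))) := by
  rw [Nat.le_div_iff_mul_le (pow_pos Fintype.card_pos _)]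
  have h := card_kill L r B x
  rw [Nat.card_eq_fintype_card, Nat.card_eq_fintype_card, Nat.card_eq_fintype_card,
    Fintype.card_subtype] at h
  exact h.le

omit [FiniteDimensional L E] in
open scoped Classical in
private theorem card_span [Fintype E] (U : Submodule L E) :
    (univ.filter fun x : Fin r → E => Submodule.span L (Set.range x) = U).card ≤
      Fintype.card L ^ (r * finrank L U) := by
  have : Fintype U := Fintype.ofFinite U
  have h1 : (univ.filter fun x : Fin r → E => Submodule.span L (Set.range x) = U) ⊆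
      univ.image (fun (y : Fin r → U) (i : Fin r) => (y i : E)) := by
    intro x hx
    rw [mem_filter] at hx
    refine mem_image.2 ⟨fun i => ⟨x i, ?_⟩, mem_univ _, rfl⟩
    rw [← hx.2]
    exact Submodule.subset_span ⟨i, rfl⟩
  refine (card_le_card h1).trans (card_image_le.trans ?_)
  rw [card_univ, Fintype.card_fun, Fintype.card_fin, Module.card_eq_pow_finrank (K := L) (V := U),
    ← pow_mul, mul_comm r]

/-- matrices that kill a vector whose coordinates span `U` -/
private theorem card_killU [Fintype E] (B : S → E →ₗ[L] F) (U : Submodule L E) :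
    open scoped Classical in
    (univ.filter fun A : S → Matrix (Fin r) (Fin r) L =>
      ∃ x : Fin r → E, Submodule.span L (Set.range x) = U ∧ blow A B x = 0).card ≤
      Fintype.card L ^ (r * finrank L U) *
        (Fintype.card (S → Matrix (Fin r) (Fin r) L) /
          Fintype.card L ^ (r * finrank L (img B U))) := by
  classical
  have h1 : (univ.filter fun A : S → Matrix (Fin r) (Fin r) L =>
      ∃ x : Fin r → E, Submodule.span L (Set.range x) = U ∧ blow A B x = 0) ⊆
      (univ.filter fun x : Fin r → E => Submodule.span L (Set.range x) = U).biUnion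
        (fun x => univ.filter fun A : S → Matrix (Fin r) (Fin r) L => blow A B x = 0) := by
    intro A hA
    obtain ⟨x, hx, hx0⟩ := (mem_filter.1 hA).2
    exact mem_biUnion.2 ⟨x, mem_filter.2 ⟨mem_univ _, hx⟩, mem_filter.2 ⟨mem_univ _, hx0⟩⟩
  refine (card_le_card h1).trans ((card_biUnion_le_card_mul _ _
    (Fintype.card (S → Matrix (Fin r) (Fin r) L) /
          Fintype.card L ^ (r * finrank L (img B U))) ?_).trans
    (Nat.mul_le_mul_right _ (card_span U)))
  intro x hx
  have hx2 := (mem_filter.1 hx).2
  have h2 := card_le_div (r := r) B x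
  rw [hx2] at h2
  exact h2

/-- tight submodules: there are few bad matrices -/
private theorem card_tight [Fintype E] (B : S → E →ₗ[L] F) (U : Submodule L E) (h0 : U ≠ ⊥)
    (ht : finrank L (img B U) = finrank L U) :
    {A : S → Matrix (Fin r) (Fin r) L |
      ∃ x : Fin r → E, Submodule.span L (Set.range x) = U ∧ blow A B x = 0}.ncard *
        (Fintype.card L - 1) ≤ Nat.card (S → Matrix (Fin r) (Fin r) L) := by
  classical
  rw [ncard_eq, Nat.card_eq_fintype_card]
  have h1 := Finset.card_mul_le_card_mul
    (s := univ.filter fun A : S → Matrix (Fin r) (Fin r) L =>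
      ∃ x : Fin r → E, Submodule.span L (Set.range x) = U ∧ blow A B x = 0)
    (t := univ.filter fun x : Fin r → E => Submodule.span L (Set.range x) = U)
    (fun A x => blow A B x = 0) (m := Fintype.card L - 1)
    (n := Fintype.card (S → Matrix (Fin r) (Fin r) L) / Fintype.card L ^ (r * finrank L U))
    ?_ ?_
  · refine h1.trans ?_
    refine (Nat.mul_le_mul_right _ (card_span U)).trans ?_
    exact Nat.mul_div_le _ _
  · intro A hA
    obtain ⟨x, hx, hx0⟩ := (mem_filter.1 hA).2
    have hxne : x ≠ 0 := by
      rintro rfl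
      apply h0
      rw [← hx, Submodule.span_eq_bot]
      rintro _ ⟨i, rfl⟩
      rfl
    rw [← Fintype.card_units, ← card_univ]
    refine Finset.card_le_card_of_injOn (fun c : Lˣ => (c : L) • x) ?_ ?_
    · intro c _
      rw [Finset.mem_coe, Finset.mem_bipartiteAbove]
      refine ⟨mem_filter.2 ⟨mem_univ _, ?_⟩, ?_⟩
      · rw [← hx]
        apply le_antisymm
        · rw [Submodule.span_le]
          rintro _ ⟨i, rfl⟩
          exact Submodule.smul_mem _ _ (Submodule.subset_span ⟨i, rfl⟩)
        · rw [Submodule.span_le]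
          rintro _ ⟨i, rfl⟩
          have h3 : x i = ((c⁻¹ : Lˣ) : L) • (((c : L) • x) i) := by
            rw [Pi.smul_apply, smul_smul, Units.inv_mul, one_smul]
          rw [SetLike.mem_coe, h3]
          exact Submodule.smul_mem _ _ (Submodule.subset_span ⟨i, rfl⟩)
      · rw [map_smul, hx0, smul_zero]
    · intro c _ c' _ hcc
      apply Units.ext
      have h3 : ((c : L) - (c' : L)) • x = 0 := by
        rw [sub_smul]
        exact sub_eq_zero.2 hcc
      rcases smul_eq_zero.1 h3 with h4 | h4
      · exact sub_eq_zero.1 h4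
      · exact absurd h4 hxne
  · intro x hx
    have hx2 := (mem_filter.1 hx).2
    have h2 := card_le_div (r := r) B x
    rw [hx2, ht] at h2
    refine le_trans (card_le_card ?_) h2
    intro A hA
    exact mem_filter.2 ⟨mem_univ _, (Finset.mem_bipartiteBelow _).1 hA |>.2⟩

private theorem card_submodule : Nat.card (Submodule L E) ≤
    Fintype.card L ^ (finrank L E * finrank L E) := by
  have hf : Finite (E →ₗ[L] E) := Module.finite_of_finite L
  have hs : Function.Surjective (fun f : E →ₗ[L] E => LinearMap.range f) := by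
    intro U
    obtain ⟨g, hg⟩ := LinearMap.exists_leftInverse_of_injective U.subtype
      (LinearMap.ker_eq_bot.2 U.injective_subtype)
    refine ⟨U.subtype ∘ₗ g, ?_⟩
    have h1 : LinearMap.range g = ⊤ := by
      rw [LinearMap.range_eq_top]
      intro u
      exact ⟨U.subtype u, LinearMap.congr_fun hg u⟩
    simp only
    rw [LinearMap.range_comp_of_range_eq_top _ h1, Submodule.range_subtype]
  refine (Nat.card_le_card_of_surjective _ hs).trans ?_
  rw [Module.natCard_eq_pow_finrank (K := L) (V := E →ₗ[L] E), Module.finrank_linearMap,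
    Nat.card_eq_fintype_card]

/-- non-tight submodules: there are few bad matrices -/
private theorem card_nontight [Fintype E] (B : S → E →ₗ[L] F) {D : ℕ} (hD : finrank L E ≤ D)
    (hr : D ^ 2 + 1 ≤ r) (P : Submodule L E → Prop)
    (hP : ∀ U, P U → finrank L U + 1 ≤ finrank L (img B U)) :
    {A : S → Matrix (Fin r) (Fin r) L |
      ∃ x : Fin r → E, P (Submodule.span L (Set.range x)) ∧ blow A B x = 0}.ncard *
        Fintype.card L ≤ Nat.card (S → Matrix (Fin r) (Fin r) L) := by
  classical
  rw [ncard_eq, Nat.card_eq_fintype_card]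
  have hsurj : Finite (Submodule L E) :=
    Finite.of_injective (fun U : Submodule L E => (U : Set E)) SetLike.coe_injective
  have : Fintype (Submodule L E) := Fintype.ofFinite _
  set Ω := Fintype.card (S → Matrix (Fin r) (Fin r) L) with hΩ
  set q := Fintype.card L with hq
  have hq0 : 0 < q := Fintype.card_pos
  have h1 : (univ.filter fun A : S → Matrix (Fin r) (Fin r) L =>
      ∃ x : Fin r → E, P (Submodule.span L (Set.range x)) ∧ blow A B x = 0) ⊆
      (univ.filter fun U : Submodule L E => P U).biUnion
        (fun U => univ.filter fun A : S → Matrix (Fin r) (Fin r) L =>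
          ∃ x : Fin r → E, Submodule.span L (Set.range x) = U ∧ blow A B x = 0) := by
    intro A hA
    obtain ⟨x, hx, hx0⟩ := (mem_filter.1 hA).2
    exact mem_biUnion.2 ⟨_, mem_filter.2 ⟨mem_univ _, hx⟩,
      mem_filter.2 ⟨mem_univ _, x, rfl, hx0⟩⟩
  have h2 := (card_le_card h1).trans (card_biUnion_le_card_mul _ _ (Ω / q ^ r) (by
    intro U hU
    refine (card_killU B U).trans ?_
    rw [Nat.le_div_iff_mul_le (pow_pos hq0 _)]
    have hPU := hP U (mem_filter.1 hU).2
    calc q ^ (r * finrank L U) * (Ω / q ^ (r * finrank L (img B U))) * q ^ r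
        = q ^ (r * (finrank L U + 1)) * (Ω / q ^ (r * finrank L (img B U))) := by
          rw [Nat.mul_succ, pow_add]; ring
      _ ≤ q ^ (r * finrank L (img B U)) * (Ω / q ^ (r * finrank L (img B U))) :=
          Nat.mul_le_mul_right _ (Nat.pow_le_pow_right hq0 (Nat.mul_le_mul_left _ hPU))
      _ ≤ Ω := Nat.mul_div_le _ _))
  have h3 : (univ.filter fun U : Submodule L E => P U).card ≤ q ^ (D ^ 2) := by
    refine (card_filter_le _ _).trans ?_
    rw [card_univ, ← Nat.card_eq_fintype_card]
    refine card_submodule.trans (Nat.pow_le_pow_right hq0 ?_)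
    rw [sq]
    exact Nat.mul_le_mul hD hD
  calc _ ≤ q ^ (D ^ 2) * (Ω / q ^ r) * q :=
        Nat.mul_le_mul_right _ (h2.trans (Nat.mul_le_mul_right _ h3))
    _ = q ^ (D ^ 2 + 1) * (Ω / q ^ r) := by rw [pow_succ]; ring
    _ ≤ q ^ r * (Ω / q ^ r) := Nat.mul_le_mul_right _ (Nat.pow_le_pow_right hq0 hr)
    _ ≤ Ω := Nat.mul_div_le _ _

omit [Fintype L] in
private theorem finrank_map_mkQ (W R : Submodule L E) (h : W ≤ R) :
    finrank L (R.map W.mkQ) + finrank L W = finrank L R := by
  have h1 := LinearMap.finrank_range_add_finrank_ker (W.mkQ.domRestrict R)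
  have h2 : LinearMap.range (W.mkQ.domRestrict R) = R.map W.mkQ := by
    rw [LinearMap.range_domRestrict]
  have h3 : finrank L (LinearMap.ker (W.mkQ.domRestrict R)) = finrank L W := by
    have e : LinearMap.ker (W.mkQ.domRestrict R) = W.comap R.subtype := by
      ext x
      simp
    rw [e]
    exact (Submodule.comapSubtypeEquivOfLe h).finrank_eq
  rw [h2, h3] at h1
  exact h1

/-- the family on the quotients -/
private def quo (B : S → E →ₗ[L] F) (U : Submodule L E) (s : S) : (E ⧸ U) →ₗ[L] (F ⧸ img B U) :=
  U.mapQ (img B U) (B s) (Submodule.map_le_iff_le_comap.1 (le_iSup (fun s => U.map (B s)) s))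

omit [Fintype L] [Fintype S] [FiniteDimensional L E] [FiniteDimensional L F] in
private theorem img_quo (B : S → E →ₗ[L] F) (U : Submodule L E) (R : Submodule L (E ⧸ U)) :
    img (quo B U) R = (img B (R.comap U.mkQ)).map (img B U).mkQ := by
  unfold img
  rw [Submodule.map_iSup]
  refine iSup_congr fun s => ?_
  conv_lhs => rw [← Submodule.map_comap_eq_of_surjective U.mkQ_surjective R]
  rw [← Submodule.map_comp, ← Submodule.map_comp]
  rfl

omit [Fintype L] [Fintype S] in
private theorem hall_quo (B : S → E →ₗ[L] F) (hB : Hall B) (U : Submodule L E)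
    (ht : finrank L (img B U) = finrank L U) : Hall (quo B U) := by
  intro R
  change finrank L R ≤ finrank L (img (quo B U) R)
  have hU : U ≤ R.comap U.mkQ := by
    intro u hu
    rw [Submodule.mem_comap, Submodule.mkQ_apply, (Submodule.Quotient.mk_eq_zero U).2 hu]
    exact R.zero_mem
  have h1 := finrank_map_mkQ U (R.comap U.mkQ) hU
  rw [Submodule.map_comap_eq_of_surjective U.mkQ_surjective R] at h1
  have h2 : img B U ≤ img B (R.comap U.mkQ) := iSup_mono fun s => Submodule.map_mono hU
  have h3 := finrank_map_mkQ (img B U) (img B (R.comap U.mkQ)) h2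
  have h4 : finrank L (R.comap U.mkQ) ≤ finrank L (img B (R.comap U.mkQ)) := hB _
  rw [img_quo]
  omega

omit [Fintype L] [FiniteDimensional L E] [FiniteDimensional L F] in
private theorem blow_quo (A : S → Matrix (Fin r) (Fin r) L) (B : S → E →ₗ[L] F)
    (U : Submodule L E) (x : Fin r → E) (h : blow A B x = 0) :
    blow A (quo B U) (fun i => U.mkQ (x i)) = 0 := by
  funext i
  rw [blow_apply]
  have h1 := congrFun h i
  rw [blow_apply] at h1
  have h2 := congrArg (img B U).mkQ h1
  rw [map_sum] at h2
  simp only [map_sum, map_smul] at h2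
  exact h2

end aux

section main

private theorem main {L : Type*} [Field L] [Fintype L] {S : Type*} [Fintype S] (D r : ℕ)
    (hr : D ^ 2 + 1 ≤ r) : ∀ (n : ℕ), n ≤ D → ∀ (E F : Type u) [AddCommGroup E] [Module L E]
    [FiniteDimensional L E] [AddCommGroup F] [Module L F] [FiniteDimensional L F],
    finrank L E = n → ∀ (B : S → E →ₗ[L] F), Hall B →
    {A : S → Matrix (Fin r) (Fin r) L |
      ∃ x : Fin r → E, x ≠ 0 ∧ blow A B x = 0}.ncard * (Fintype.card L - 1) ≤
      2 * n * Nat.card (S → Matrix (Fin r) (Fin r) L) := by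
  intro n
  induction n using Nat.strong_induction_on with
  | _ n ih =>
  intro hn E F _ _ _ _ _ _ hE B hB
  have hfE : Finite E := Module.finite_of_finite L
  have : Fintype E := Fintype.ofFinite E
  have hspan : ∀ x : Fin r → E, x ≠ 0 → Submodule.span L (Set.range x) ≠ ⊥ := by
    intro x hx h
    apply hx
    rw [Submodule.span_eq_bot] at h
    funext i
    exact h (x i) ⟨i, rfl⟩
  have hHall : ∀ U : Submodule L E, finrank L U ≤ finrank L (img B U) := fun U => hB U
  rcases Nat.eq_zero_or_pos n with hn0 | hn0
  · have h1 : {A : S → Matrix (Fin r) (Fin r) L |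
        ∃ x : Fin r → E, x ≠ 0 ∧ blow A B x = 0} = ∅ := by
      rw [Set.eq_empty_iff_forall_notMem]
      rintro A ⟨x, hx, _⟩
      have : Subsingleton E := by
        rw [hn0] at hE
        exact Module.finrank_zero_iff.1 hE
      exact hx (Subsingleton.elim _ _)
    rw [h1, Set.ncard_empty, Nat.zero_mul]
    exact Nat.zero_le _
  by_cases ht : ∃ d, ∃ U : Submodule L E, finrank L U = d ∧ U ≠ ⊥ ∧
      finrank L (img B U) = finrank L U
  · classical
    obtain ⟨U, hUd, hU0, hUt⟩ := Nat.find_spec ht
    have hmin : ∀ U' : Submodule L E, U' ≠ ⊥ → U' < U →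
        finrank L U' + 1 ≤ finrank L (img B U') := by
      intro U' h0 hlt
      have h1 := hHall U'
      rcases Nat.lt_or_ge (finrank L U') (finrank L (img B U')) with h2 | h2
      · exact h2
      · exfalso
        have h3 : finrank L U' < Nat.find ht := by
          rw [← hUd]
          exact Submodule.finrank_lt_finrank_of_lt hlt
        exact Nat.find_min ht h3 ⟨U', rfl, h0, le_antisymm h2 h1⟩
    have hpos : 1 ≤ finrank L U := by
      rw [Nat.one_le_iff_ne_zero]
      intro h
      exact hU0 (Submodule.finrank_eq_zero.1 h)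
    have hquo := Submodule.finrank_quotient_add_finrank U
    rw [hE] at hquo
    have h1 := ih (finrank L (E ⧸ U)) (by omega) (by omega) (E ⧸ U) (F ⧸ img B U) rfl (quo B U)
      (hall_quo B hB U hUt)
    have h2 := card_tight (r := r) B U hU0 hUt
    have h3 := card_nontight (r := r) B (hE.le.trans hn) hr (fun U' => U' ≠ ⊥ ∧ U' < U)
      (fun U' h => hmin U' h.1 h.2)
    set X1 := {A : S → Matrix (Fin r) (Fin r) L |
          ∃ x : Fin r → (E ⧸ U), x ≠ 0 ∧ blow A (quo B U) x = 0} with hX1
    set X2 := {A : S → Matrix (Fin r) (Fin r) L |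
          ∃ x : Fin r → E, Submodule.span L (Set.range x) = U ∧ blow A B x = 0} with hX2
    set X3 := {A : S → Matrix (Fin r) (Fin r) L |
          ∃ x : Fin r → E, (Submodule.span L (Set.range x) ≠ ⊥ ∧
            Submodule.span L (Set.range x) < U) ∧ blow A B x = 0} with hX3
    have hsub : {A : S → Matrix (Fin r) (Fin r) L |
        ∃ x : Fin r → E, x ≠ 0 ∧ blow A B x = 0} ⊆ (X1 ∪ X2) ∪ X3 := by
      rintro A ⟨x, hx, hx0⟩
      by_cases h4 : (fun i => U.mkQ (x i)) = (0 : Fin r → (E ⧸ U))
      · have h5 : Submodule.span L (Set.range x) ≤ U := by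
          rw [Submodule.span_le]
          rintro _ ⟨i, rfl⟩
          have h6 := congrFun h4 i
          exact (Submodule.Quotient.mk_eq_zero U).1 h6
        rcases h5.eq_or_lt with h6 | h6
        · exact Or.inl (Or.inr ⟨x, h6, hx0⟩)
        · exact Or.inr ⟨x, ⟨hspan x hx, h6⟩, hx0⟩
      · exact Or.inl (Or.inl ⟨_, h4, blow_quo A B U x hx0⟩)
    have h4 : {A : S → Matrix (Fin r) (Fin r) L |
        ∃ x : Fin r → E, x ≠ 0 ∧ blow A B x = 0}.ncard ≤ (X1.ncard + X2.ncard) + X3.ncard :=
      (Set.ncard_le_ncard hsub (Set.toFinite _)).trans ((Set.ncard_union_le _ _).trans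
        (Nat.add_le_add_right (Set.ncard_union_le _ _) _))
    have h5 : X3.ncard * (Fintype.card L - 1) ≤ Nat.card (S → Matrix (Fin r) (Fin r) L) :=
      (Nat.mul_le_mul_left _ (Nat.sub_le _ 1)).trans h3
    calc _ ≤ ((X1.ncard + X2.ncard) + X3.ncard) * (Fintype.card L - 1) :=
          Nat.mul_le_mul_right _ h4
      _ = X1.ncard * (Fintype.card L - 1) + X2.ncard * (Fintype.card L - 1) +
          X3.ncard * (Fintype.card L - 1) := by rw [Nat.add_mul, Nat.add_mul]
      _ ≤ 2 * finrank L (E ⧸ U) * Nat.card (S → Matrix (Fin r) (Fin r) L) +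
          Nat.card (S → Matrix (Fin r) (Fin r) L) + Nat.card (S → Matrix (Fin r) (Fin r) L) :=
          Nat.add_le_add (Nat.add_le_add h1 h2) h5
      _ = 2 * (finrank L (E ⧸ U) + 1) * Nat.card (S → Matrix (Fin r) (Fin r) L) := by ring
      _ ≤ 2 * n * Nat.card (S → Matrix (Fin r) (Fin r) L) :=
          Nat.mul_le_mul_right _ (by omega)
  · push Not at ht
    have h3 := card_nontight (r := r) B (hE.le.trans hn) hr (fun U' => U' ≠ ⊥) (fun U' h => by
      have h1 := hHall U'
      have h2 := ht _ U' rfl h
      omega)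
    have hsub : {A : S → Matrix (Fin r) (Fin r) L |
        ∃ x : Fin r → E, x ≠ 0 ∧ blow A B x = 0} ⊆
        {A : S → Matrix (Fin r) (Fin r) L |
          ∃ x : Fin r → E, Submodule.span L (Set.range x) ≠ ⊥ ∧ blow A B x = 0} := by
      rintro A ⟨x, hx, hx0⟩
      exact ⟨x, hspan x hx, hx0⟩
    refine (Nat.mul_le_mul (Set.ncard_le_ncard hsub (Set.toFinite _))
      (Nat.sub_le (Fintype.card L) 1)).trans (h3.trans ?_)
    exact Nat.le_mul_of_pos_left _ (by omega)

end main

/-- P1b. -/
theorem card_bad (L : Type*) [Field L] [Finite L] {S : Type*} [Fintype S] (D r : ℕ)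
    (hr : D ^ 2 + 1 ≤ r) (n : ℕ) (hn : n ≤ D) (E F : Type u) [AddCommGroup E] [Module L E]
    [FiniteDimensional L E] [AddCommGroup F] [Module L F] [FiniteDimensional L F]
    (hE : finrank L E = n) (B : S → E →ₗ[L] F) (hB : Hall B) :
    Nat.card {A : S → Matrix (Fin r) (Fin r) L // ¬ Function.Injective (blow A B)} *
        (Nat.card L - 1) ≤
      2 * n * Nat.card (S → Matrix (Fin r) (Fin r) L) := by
  have : Fintype L := Fintype.ofFinite L
  have h := main (L := L) (S := S) D r hr n hn E F hE B hB
  rw [Nat.card_eq_fintype_card (α := L)]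
  refine le_trans (Nat.mul_le_mul_right _ ?_) h
  have h2 : Nat.card {A : S → Matrix (Fin r) (Fin r) L // ¬ Function.Injective (blow A B)} =
      {A : S → Matrix (Fin r) (Fin r) L | ¬ Function.Injective (blow A B)}.ncard := rfl
  rw [h2]
  refine Set.ncard_le_ncard ?_ (Set.toFinite _)
  intro A hA
  have h1 : ¬ Function.Injective (blow A B) := hA
  rw [injective_iff_map_eq_zero] at h1
  push Not at h1
  obtain ⟨x, hx, hx0⟩ := h1
  exact ⟨x, hx0, hx⟩

end MP331e4fBw
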