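import Pool.Agent.Lib_MP_331e4f_bw.Defs

/-!
# P1a: the number of coefficient matrices whose blow-up kills a given vector
-/

open Module

namespace MP331e4fBw

/-- P1a. For a fixed vector `u` with coordinates spanning `U`, the number of `A` with
`blow A B u = 0` is `|Ω| / q ^ (r * dim (∑ B_s U))`. -/
theorem card_kill (L : Type*) [Field L] [Finite L] {S : Type*} [Fintype S] (r : ℕ)
    {E F : Type*} [AddCommGroup E] [Module L E] [FiniteDimensional L E]
    [AddCommGroup F] [Module L F] [FiniteDimensional L F] (B : S → E →ₗ[L] F) (x : Fin r → E) :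
    Nat.card {A : S → Matrix (Fin r) (Fin r) L // blow A B x = 0} *
        Nat.card L ^ (r * finrank L ↥(⨆ s, (Submodule.span L (Set.range x)).map (B s))) =
      Nat.card (S → Matrix (Fin r) (Fin r) L) := by
  classical
  set W : Submodule L F := ⨆ s, (Submodule.span L (Set.range x)).map (B s) with hW
  have hmem : ∀ (A : S → Matrix (Fin r) (Fin r) L) (i : Fin r), blow A B x i ∈ W := by
    intro A i
    rw [blow_apply]
    refine Submodule.sum_mem _ fun s _ => Submodule.sum_mem _ fun j _ =>
      Submodule.smul_mem _ _ ?_
    exact Submodule.mem_iSup_of_mem s ⟨x j, Submodule.subset_span ⟨j, rfl⟩, rfl⟩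
  let Φ : (S → Matrix (Fin r) (Fin r) L) →ₗ[L] (Fin r → W) :=
    { toFun := fun A i => ⟨blow A B x i, hmem A i⟩
      map_add' := fun A A' => by
        funext i
        apply Subtype.ext
        simp [blow_apply, add_smul, Finset.sum_add_distrib]
      map_smul' := fun c A => by
        funext i
        apply Subtype.ext
        simp [blow_apply, mul_smul, Finset.smul_sum] }
  have hΦ : ∀ A i, ((Φ A i : W) : F) = blow A B x i := fun A i => rfl
  -- surjectivity
  have hWspan : W = Submodule.span L (Set.range fun sj : S × Fin r => B sj.1 (x sj.2)) := by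
    apply le_antisymm
    · refine iSup_le fun s => ?_
      rw [Submodule.map_span, Submodule.span_le]
      rintro _ ⟨_, ⟨j, rfl⟩, rfl⟩
      exact Submodule.subset_span ⟨(s, j), rfl⟩
    · rw [Submodule.span_le]
      rintro _ ⟨⟨s, j⟩, rfl⟩
      exact Submodule.mem_iSup_of_mem s ⟨x j, Submodule.subset_span ⟨j, rfl⟩, rfl⟩
  have hsurj : Function.Surjective Φ := by
    intro y
    have hy : ∀ i, ∃ c : S × Fin r → L, ∑ sj, c sj • B sj.1 (x sj.2) = (y i : F) := by
      intro i
      have h1 : (y i : F) ∈ Submodule.span L (Set.range fun sj : S × Fin r => B sj.1 (x sj.2)) :=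
        hWspan ▸ (y i).2
      exact (Submodule.mem_span_range_iff_exists_fun L).1 h1
    choose c hc using hy
    refine ⟨fun s => Matrix.of fun i j => c i (s, j), ?_⟩
    funext i
    apply Subtype.ext
    rw [hΦ, blow_apply, ← hc i, Fintype.sum_prod_type]
    rfl
  have hker : Nat.card {A : S → Matrix (Fin r) (Fin r) L // blow A B x = 0} =
      Nat.card (LinearMap.ker Φ) := by
    refine Nat.card_congr (Equiv.subtypeEquivRight fun A => ?_)
    rw [LinearMap.mem_ker]
    constructor
    · intro h
      funext i
      apply Subtype.ext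
      rw [hΦ, h]
      rfl
    · intro h
      funext i
      rw [← hΦ, h]
      rfl
  have h1 : finrank L (LinearMap.range Φ) = r * finrank L W := by
    rw [LinearMap.range_eq_top.2 hsurj, finrank_top, Module.finrank_pi_fintype]
    simp
  have h2 := LinearMap.finrank_range_add_finrank_ker Φ
  rw [hker, Module.natCard_eq_pow_finrank (K := L) (V := LinearMap.ker Φ),
    Module.natCard_eq_pow_finrank (K := L) (V := S → Matrix (Fin r) (Fin r) L), ← pow_add,
    ← h2, h1, add_comm]

end MP331e4fBw
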