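import Pool.Agent.Lib_MP_331e4f_bw.Rel

/-!
# P4: the cut theorem
-/

open Module

namespace MP331e4fBw

universe u

section fil

variable {k : Type*} [Field k] {S : Type*} {M : Type*} [AddCommGroup M] [Module k M]
  {t : S → M →ₗ[k] M} {C N : ℕ} {F : ℕ → Submodule k M}

theorem Fil.le (h : Fil t C N F) {i j : ℕ} (hij : i ≤ j) (hj : j ≤ N) : F i ≤ F j := by
  induction j, hij using Nat.le_induction with
  | base => exact le_rfl
  | succ j hij ih => exact (ih (by omega)).trans (h.mono j (by omega))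

theorem Fil.finrank_le (h : Fil t C N F) (i l : ℕ) (hl : i + l ≤ N) :
    finrank k (F (i + l)) ≤ finrank k (F i) + C * l := by
  induction l with
  | zero => simp
  | succ l ih =>
    have h1 := ih (by omega)
    have h2 := h.inc (i + l) (by omega)
    have h3 : C * (l + 1) = C * l + C := by ring
    rw [← add_assoc]
    omega

theorem Fil.shift (h : Fil t C N F) (a N' : ℕ) (hN : a + N' ≤ N) :
    Fil t C N' (fun i => F (a + i)) where
  fin i hi := h.fin (a + i) (by omega)
  mono i hi := h.mono (a + i) (by omega)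
  map i hi s := h.map (a + i) (by omega) s
  inc i hi := h.inc (a + i) (by omega)

/-- there is a cut of size at most `c` between `F 0` and `F L` -/
def HasCut (t : S → M →ₗ[k] M) (c L : ℕ) (F : ℕ → Submodule k M) : Prop :=
  ∃ U W : Submodule k M, F 0 ≤ U ∧ U ≤ W ∧ W ≤ F L ∧ (∀ s, U.map (t s) ≤ W) ∧
    finrank k W ≤ finrank k U + c

end fil

/-- P4 (helper11). -/
theorem cut_theorem {k : Type*} [Field k] {S : Type*} [Fintype S]
    (hgen : ∀ D : ℕ, ∃ (d : ℕ) (A : S → Matrix (Fin d) (Fin d) k), 0 < d ∧ Good D A) (s₀ : S)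
    (Sys : ∀ (M : Type u) [AddCommGroup M] [Module k M], (S → M →ₗ[k] M) → Prop)
    (hid : ∀ (M : Type u) [AddCommGroup M] [Module k M] (t : S → M →ₗ[k] M), Sys M t →
      t s₀ = LinearMap.id)
    (hinv : ∀ (d : ℕ) (A : S → Matrix (Fin d) (Fin d) k),
      (∀ β : S → k, β ≠ 0 → IsUnit (∑ s, β s • A s)) →
      ∃ n : ℕ, ∀ (M : Type u) [AddCommGroup M] [Module k M] (t : S → M →ₗ[k] M), Sys M t →
        ∃ Y : (Fin d → M) →ₗ[k] (Fin d → M), (∀ x, blow A t (Y x) = x) ∧
          ∀ (N : ℕ) (F : ℕ → Submodule k M), (∀ i < N, F i ≤ F (i + 1)) →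
            (∀ i < N, ∀ s, (F i).map (t s) ≤ F (i + 1)) → ∀ i, i + n ≤ N →
            ∀ x : Fin d → M, (∀ j, x j ∈ F i) → ∀ j, Y x j ∈ F (i + n))
    (C : ℕ) :
    ∃ N : ℕ, ∀ (M : Type u) [AddCommGroup M] [Module k M] (t : S → M →ₗ[k] M), Sys M t →
      ∀ F : ℕ → Submodule k M, Fil t C N F →
        ∃ U : Submodule k M, F 0 ≤ U ∧ U ≤ F N ∧ ∀ s, U.map (t s) ≤ U := by
  classical
  have hex : ∃ c : ℕ, ∃ L : ℕ, ∀ (M : Type u) [AddCommGroup M] [Module k M]
      (t : S → M →ₗ[k] M), Sys M t → ∀ F : ℕ → Submodule k M, Fil t C L F → HasCut t c L F := by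
    refine ⟨C, 1, fun M _ _ t _ F hF => ⟨F 0, F 1, le_rfl, hF.mono 0 (by omega), le_rfl,
      fun s => hF.map 0 (by omega) s, hF.inc 0 (by omega)⟩⟩
  obtain ⟨L₀, hL₀⟩ := Nat.find_spec hex
  set c := Nat.find hex with hc
  rcases Nat.eq_zero_or_pos c with hc0 | hcpos
  · -- cuts of size zero
    refine ⟨L₀, fun M _ _ t ht F hF => ?_⟩
    obtain ⟨U, W, h1, h2, h3, h4, h5⟩ := hL₀ M t ht F hF
    rw [hc0, add_zero] at h5
    have hfin : FiniteDimensional k (F L₀) := hF.fin L₀ le_rfl
    have hW : FiniteDimensional k W := Submodule.finiteDimensional_of_le h3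
    have hUW : U = W := Submodule.eq_of_le_of_finrank_le h2 h5
    exact ⟨U, h1, hUW ▸ h3, fun s => (h4 s).trans hUW.ge⟩
  · exfalso
    -- a window length which is positive
    set L₁ := L₀ + 1 with hL₁
    have hcut : ∀ (M : Type u) [AddCommGroup M] [Module k M] (t : S → M →ₗ[k] M), Sys M t →
        ∀ F : ℕ → Submodule k M, Fil t C L₁ F → HasCut t c L₁ F := by
      intro M _ _ t ht F hF
      have hF' : Fil t C L₀ F := by
        have := hF.shift 0 L₀ (by omega)
        simpa using this
      obtain ⟨U, W, h1, h2, h3, h4, h5⟩ := hL₀ M t ht F hF'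
      exact ⟨U, W, h1, h2, h3.trans (hF.mono L₀ (by omega)), h4, h5⟩
    set D := 2 * (C * L₁) + 1 with hD
    obtain ⟨d, A, hd, hA⟩ := hgen D
    obtain ⟨n, hn⟩ := hinv d A (fun β hβ => hA.isUnit (by omega) β hβ)
    set m := n + 2 with hm
    set L := (m + 1) * L₁ with hL
    have hnot : ¬ ∀ (M : Type u) [AddCommGroup M] [Module k M] (t : S → M →ₗ[k] M), Sys M t →
        ∀ F : ℕ → Submodule k M, Fil t C L F → HasCut t (c - 1) L F := by
      intro h
      exact Nat.find_min hex (show c - 1 < Nat.find hex by omega) ⟨L, h⟩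
    push Not at hnot
    obtain ⟨M, iM1, iM2, t, ht, F, hF, hno⟩ := hnot
    obtain ⟨Y, hY1, hY2⟩ := hn M t ht
    have hidt : t s₀ = LinearMap.id := hid M t ht
    have hfin : ∀ i ≤ L, FiniteDimensional k (F i) := hF.fin
    -- positions
    have hpos : ∀ j, j ≤ m + 1 → j * L₁ ≤ L := fun j hj => Nat.mul_le_mul_right _ hj
    have hsucc : ∀ j, (j + 1) * L₁ = j * L₁ + L₁ := fun j => by ring
    -- every cut has size at least `c`
    have hbig : ∀ R W' : Submodule k M, F 0 ≤ R → R ≤ W' → W' ≤ F L →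
        (∀ s, R.map (t s) ≤ W') → finrank k R + c ≤ finrank k W' := by
      intro R W' h1 h2 h3 h4
      by_contra hlt
      exact hno ⟨R, W', h1, h2, h3, h4, by omega⟩
    have hcuts : ∀ j, ∃ U W : Submodule k M, j ≤ m → F (j * L₁) ≤ U ∧ U ≤ W ∧
        W ≤ F ((j + 1) * L₁) ∧ (∀ s, U.map (t s) ≤ W) ∧ finrank k W = finrank k U + c := by
      intro j
      by_cases hj : j ≤ m
      · have hjL : j * L₁ + L₁ ≤ L := by rw [← hsucc]; exact hpos (j + 1) (by omega)
        obtain ⟨U, W, h1, h2, h3, h4, h5⟩ := hcut M t ht _ (hF.shift (j * L₁) L₁ hjL)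
        have h1' : F (j * L₁) ≤ U := by simpa using h1
        have h3' : W ≤ F ((j + 1) * L₁) := by rw [hsucc]; exact h3
        refine ⟨U, W, fun _ => ⟨h1', h2, h3', h4, le_antisymm h5 ?_⟩⟩
        exact hbig U W ((hF.le (Nat.zero_le _) (by omega)).trans h1') h2
          (h3'.trans (hF.le (hpos (j + 1) (by omega)) le_rfl)) h4
      · exact ⟨⊥, ⊥, fun h => absurd h hj⟩
    choose U W hUW using hcuts
    have hUF : ∀ j ≤ m, W j ≤ F L := fun j hj =>
      (hUW j hj).2.2.1.trans (hF.le (hpos (j + 1) (by omega)) le_rfl)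
    have hFL : FiniteDimensional k (F L) := hfin L le_rfl
    have hWfin : ∀ j ≤ m, FiniteDimensional k (W j) := fun j hj =>
      Submodule.finiteDimensional_of_le (hUF j hj)
    have hUfin : ∀ j ≤ m, FiniteDimensional k (U j) := fun j hj =>
      Submodule.finiteDimensional_of_le ((hUW j hj).2.1.trans (hUF j hj))
    have hWU : ∀ j, j + 1 ≤ m → W j ≤ U (j + 1) := fun j hj =>
      (hUW j (by omega)).2.2.1.trans (hUW (j + 1) hj).1
    -- the step
    have hstep : ∀ j, j + 1 ≤ m → ∀ x : Fin d → M, (∀ i, x i ∈ U (j + 1)) →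
        (∀ i, blow A t x i ∈ W j) → ∀ i, x i ∈ U j := by
      intro j hj x hx hx'
      obtain ⟨a1, a2, a3, a4, a5⟩ := hUW j (by omega)
      obtain ⟨b1, b2, b3, b4, b5⟩ := hUW (j + 1) hj
      have i1 := hUfin (j + 1) hj
      have i2 := hWfin (j + 1) hj
      have i3 := hWfin j (by omega)
      have i4 := hUfin j (by omega)
      have hlen : j * L₁ + 2 * L₁ ≤ L := by
        have h1 := hpos (j + 2) (by omega)
        have h2 : (j + 2) * L₁ = j * L₁ + 2 * L₁ := by ring
        omega
      have i5 : FiniteDimensional k (F (j * L₁ + 2 * L₁)) := hfin _ hlen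
      have hgrow := hF.finrank_le (j * L₁) (2 * L₁) hlen
      have e1 : C * (2 * L₁) = 2 * (C * L₁) := by ring
      have hWj1 : W (j + 1) ≤ F (j * L₁ + 2 * L₁) := by
        have e2 : (j + 1 + 1) * L₁ = j * L₁ + 2 * L₁ := by ring
        rw [← e2]
        exact b3
      have c1 : finrank k (W (j + 1)) ≤ finrank k (F (j * L₁ + 2 * L₁)) :=
        Submodule.finrank_mono hWj1
      have c2 : finrank k (U (j + 1)) ≤ finrank k (F (j * L₁ + 2 * L₁)) :=
        Submodule.finrank_mono (b2.trans hWj1)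
      have c3 : finrank k (F (j * L₁)) ≤ finrank k (U j) := Submodule.finrank_mono a1
      refine hA.rel t (U j) (U (j + 1)) (W j) (W (j + 1)) (a2.trans (hWU j hj))
        ((hWU j hj).trans b2) a4 b4 (by omega) (by omega) ?_ x hx hx'
      intro R hR1 hR2
      have hR0 : F 0 ≤ R := (hF.le (Nat.zero_le _) (by omega)).trans (a1.trans hR1)
      have hRW : R ≤ W j ⊔ ⨆ s, R.map (t s) := by
        have h1 : R = R.map (t s₀) := by rw [hidt, Submodule.map_id]
        calc R = R.map (t s₀) := h1
          _ ≤ ⨆ s, R.map (t s) := le_iSup (fun s => R.map (t s)) s₀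
          _ ≤ _ := le_sup_right
      have hWL : W j ⊔ ⨆ s, R.map (t s) ≤ F L := by
        refine sup_le (hUF j (by omega)) (iSup_le fun s => ?_)
        exact ((Submodule.map_mono hR2).trans (b4 s)).trans (hUF (j + 1) hj)
      have h3 := hbig R _ hR0 hRW hWL
        (fun s => (le_iSup (fun s => R.map (t s)) s).trans le_sup_right)
      omega
    -- the inverse maps `W 0` to `U 0`
    have hW0 : ∀ j ≤ m, W 0 ≤ W j := by
      intro j hj
      rcases Nat.eq_zero_or_pos j with rfl | hjpos
      · exact le_rfl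
      · obtain ⟨b1, b2, b3, b4, b5⟩ := hUW j hj
        refine ((hUW 0 (by omega)).2.2.1.trans (hF.le ?_ (hpos j (by omega)))).trans (b1.trans b2)
        exact Nat.mul_le_mul_right _ (by omega)
    have hmain : ∀ e : Fin d → M, (∀ i, e i ∈ W 0) → ∀ i, Y e i ∈ U 0 := by
      intro e he
      have key : ∀ l, l ≤ m → ∀ i, Y e i ∈ U (m - l) := by
        intro l
        induction l with
        | zero =>
          intro _ i
          have h1 : ∀ i, e i ∈ F L₁ := fun i => by
            have := (hUW 0 (by omega)).2.2.1 (he i)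
            simpa using this
          have h2 : L₁ + n ≤ m * L₁ := by
            rw [hm, hL₁]
            nlinarith
          have h3 : m * L₁ ≤ L := hpos m (by omega)
          have h4 := hY2 L F hF.mono hF.map L₁ (by omega) e h1 i
          exact (hUW m le_rfl).1 (hF.le h2 h3 h4)
        | succ l ih =>
          intro hl
          have h1 := ih (by omega)
          have e1 : m - l = (m - (l + 1)) + 1 := by omega
          rw [e1] at h1
          refine hstep (m - (l + 1)) (by omega) (Y e) h1 (fun i => ?_)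
          rw [hY1]
          exact hW0 _ (by omega) (he i)
      have := key m le_rfl
      simpa using this
    have hYinj : Function.Injective Y := by
      intro x y hxy
      rw [← hY1 x, ← hY1 y, hxy]
    obtain ⟨a1, a2, a3, a4, a5⟩ := hUW 0 (by omega)
    have i1 := hWfin 0 (by omega)
    have i2 := hUfin 0 (by omega)
    let ι : (Fin d → W 0) →ₗ[k] (Fin d → M) := LinearMap.pi fun i =>
      (W 0).subtype ∘ₗ LinearMap.proj i
    have hι : ∀ x i, ι x i = (x i : M) := fun x i => rfl
    let g : (Fin d → W 0) →ₗ[k] (Fin d → U 0) := LinearMap.pi fun i =>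
      LinearMap.codRestrict (U 0) (LinearMap.proj i ∘ₗ Y ∘ₗ ι) (fun x => by
        exact hmain (ι x) (fun i => by rw [hι]; exact (x i).2) i)
    have hg : ∀ x i, ((g x i : U 0) : M) = Y (ι x) i := fun x i => rfl
    have hginj : Function.Injective g := by
      intro x y hxy
      have h1 : Y (ι x) = Y (ι y) := by
        ext i
        rw [← hg, ← hg, hxy]
      have h2 := hYinj h1
      ext i
      rw [← hι, ← hι, h2]
    have h1 := LinearMap.finrank_le_finrank_of_injective hginj
    rw [Module.finrank_pi_fintype, Module.finrank_pi_fintype] at h1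
    simp only [Finset.sum_const, Finset.card_univ, Fintype.card_fin, smul_eq_mul] at h1
    have h2 := Nat.le_of_mul_le_mul_left h1 hd
    omega

end MP331e4fBw
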