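import Mathlib

/-!
# Blow-ups of families of linear maps, and filtrations
-/

open Module

namespace MP331e4fBw

variable {k : Type*} [Field k] {S : Type*} [Fintype S]

section

variable {E F : Type*} [AddCommGroup E] [Module k E] [AddCommGroup F] [Module k F]

/-- the blow-up `∑ A_s ⊗ B_s : E^d → F^d` -/
def blow {d : ℕ} (A : S → Matrix (Fin d) (Fin d) k) (B : S → E →ₗ[k] F) :
    (Fin d → E) →ₗ[k] (Fin d → F) :=
  LinearMap.pi fun i => ∑ s, ∑ j, A s i j • (B s ∘ₗ LinearMap.proj j)

theorem blow_apply {d : ℕ} (A : S → Matrix (Fin d) (Fin d) k) (B : S → E →ₗ[k] F)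
    (x : Fin d → E) (i : Fin d) : blow A B x i = ∑ s, ∑ j, A s i j • B s (x j) := by
  simp [blow]

/-- Hall's condition for a family of linear maps -/
def Hall (B : S → E →ₗ[k] F) : Prop :=
  ∀ R : Submodule k E, finrank k R ≤ finrank k (↥(⨆ s, R.map (B s)))

end

/-- `A` has injective blow-ups for all families with Hall's condition between spaces of dimension
at most `D` -/
def Good (D : ℕ) {d : ℕ} (A : S → Matrix (Fin d) (Fin d) k) : Prop :=
  ∀ (n m : ℕ), n ≤ D → m ≤ D → ∀ B : S → (Fin n → k) →ₗ[k] (Fin m → k), Hall B →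
    Function.Injective (blow A B)

/-- increasing finite-dimensional subspaces `F 0 ≤ F 1 ≤ ... ≤ F N` with `t s (F i) ≤ F (i + 1)`
and increments of dimension at most `C` -/
structure Fil {M : Type*} [AddCommGroup M] [Module k M] (t : S → M →ₗ[k] M) (C N : ℕ)
    (F : ℕ → Submodule k M) : Prop where
  fin : ∀ i ≤ N, FiniteDimensional k (F i)
  mono : ∀ i < N, F i ≤ F (i + 1)
  map : ∀ i < N, ∀ s, (F i).map (t s) ≤ F (i + 1)
  inc : ∀ i < N, finrank k (F (i + 1)) ≤ finrank k (F i) + C

/-- the submodules `ω^n V` of a representation -/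
def loewy {P V : Type*} [Group P] [AddCommGroup V] [Module k V] (ρ : Representation k P V) :
    ℕ → Submodule k V
  | 0 => ⊤
  | n + 1 => ⨆ g : P, (loewy ρ n).map (ρ g - 1)

end MP331e4fBw
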