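import Pool.Agent.Lib_MP_331e4f_al.Alg

/-!
# P5a: descent of `J = ω` from a field extension to a subfield
-/

namespace MP331e4fBw

open MP331e4f MonoidAlgebra

section descend

variable {k K P : Type*} [Field k] [Field K] [Algebra k K] [Group P]

/-- a `k`-linear map on coefficients commutes with right multiplication by elements of `k[P]` -/
private theorem map_mul_right (f : K →ₗ[k] k) (z : MonoidAlgebra K P) (w : MonoidAlgebra k P) :
    MonoidAlgebra.map (f : K →+ k) (z * mapRingHom P (algebraMap k K) w) =
      MonoidAlgebra.map (f : K →+ k) z * w := by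
  induction w using MonoidAlgebra.induction_linear with
  | zero => simp
  | add a b ha hb => simp only [map_add, mul_add, MonoidAlgebra.map_add, ha, hb]
  | single b s =>
    induction z using MonoidAlgebra.induction_linear with
    | zero => simp
    | add x y hx hy => simp only [add_mul, MonoidAlgebra.map_add, hx, hy]
    | single a r =>
      rw [mapRingHom_single, single_mul_single, MonoidAlgebra.map_single,
        MonoidAlgebra.map_single, single_mul_single]
      congr 1
      rw [mul_comm r, ← Algebra.smul_def, mul_comm]
      exact f.map_smul s r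

end descend

/-- P5a. Descent of `J = ω` from a field extension to a subfield. -/
theorem augRad_descend (k : Type*) {K : Type*} [Field k] [Field K] [Algebra k K] {P : Type*}
    [Group P] (h : AugRad K P) : AugRad k P := by
  obtain ⟨f, hf⟩ := (Algebra.linearMap k K).exists_leftInverse_of_injective
    (LinearMap.ker_eq_bot.2 (algebraMap k K).injective)
  have hf1 : f 1 = 1 := by
    have := LinearMap.congr_fun hf 1
    simpa using this
  intro g
  rw [mem_rad_iff]
  intro y
  obtain ⟨z, hz⟩ := mem_rad_iff.1 (h g) (mapRingHom P (algebraMap k K) y)
  refine ⟨MonoidAlgebra.map (f : K →+ k) z, ?_⟩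
  have e1 : (of K P g - 1 : MonoidAlgebra K P) =
      mapRingHom P (algebraMap k K) (of k P g - 1) := by
    rw [map_sub, map_one]
    simp [of]
  rw [e1, mul_assoc, ← map_mul] at hz
  have h1 := congrArg (MonoidAlgebra.map (f : K →+ k)) hz
  rw [MonoidAlgebra.map_add, map_mul_right, ← mul_assoc] at h1
  rw [h1]
  have e2 : (1 : MonoidAlgebra K P) = single 1 1 := rfl
  rw [e2, MonoidAlgebra.map_single]
  change single 1 (f 1) = _
  rw [hf1]
  rfl

end MP331e4fBw
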