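import Pool.Agent.Lib_MP_331e4f_bw.Thin

/-!
# P7: fields which are not algebraic over the prime field
-/

namespace MP331e4fBw

open MP331e4f (aug AugRad)

open Polynomial in
/-- linear functionals that shift along the multiplication by a transcendental element -/
private lemma exists_functionals {F : Type*} [Field F] {K : Type*} [Field K] [Algebra F K]
    {x : K} (hx : Transcendental F x) (S : Finset K) :
    ∃ (μ : ℕ → K →ₗ[F] F) (w : F[X]), w ≠ 0 ∧ (∀ n, μ n 1 = w.coeff n) ∧
      (∀ c ∈ S, ∀ n, μ (n + 1) (x * c) = μ n c) ∧ (∀ c ∈ S, μ 0 (x * c) = 0) ∧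
      ∃ N, ∀ n, N ≤ n → ∀ c ∈ S, μ n c = 0 := by
  classical
  let _ : Module F[X] K := Module.compHom K (aeval x : F[X] →ₐ[F] K).toRingHom
  have hsmul : ∀ (q : F[X]) (c : K), q • c = aeval x q * c := fun _ _ => rfl
  have : IsScalarTower F F[X] K := by
    refine ⟨fun a q c => ?_⟩
    rw [hsmul, hsmul, map_smul, smul_mul_assoc]
  have htf : Module.IsTorsionFree F[X] K := by
    refine ⟨fun q hq c c' h => ?_⟩
    have h' : aeval x q * c = aeval x q * c' := h
    have hq0 : q ≠ 0 := hq.ne_zero
    have h2 : aeval x q ≠ 0 := fun h0 => hq0 ((transcendental_iff.1 hx) q h0)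
    exact mul_left_cancel₀ h2 h'
  let N : Submodule F[X] K := Submodule.span F[X] ((insert 1 S : Finset K) : Set K)
  have hN : ∀ c ∈ insert 1 S, c ∈ N := fun c hc => Submodule.subset_span hc
  have : Module.Finite F[X] N := Module.Finite.span_of_finite F[X] (Finset.finite_toSet _)
  have : Module.IsTorsionFree F[X] N := inferInstance
  have : Module.Free F[X] N := Module.free_of_finite_type_torsion_free'
  obtain ⟨l, hl⟩ : ∃ l : N →ₗ[F[X]] F[X], l ⟨1, hN 1 (Finset.mem_insert_self _ _)⟩ ≠ 0 := by
    by_contra hcon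
    push Not at hcon
    have h1 : (⟨1, hN 1 (Finset.mem_insert_self _ _)⟩ : N) = 0 := by
      refine (Module.Free.chooseBasis F[X] N).ext_elem fun i => ?_
      rw [map_zero, Finsupp.zero_apply]
      exact hcon ((Module.Free.chooseBasis F[X] N).coord i)
    exact one_ne_zero (congrArg Subtype.val h1)
  set w : F[X] := l ⟨1, hN 1 (Finset.mem_insert_self _ _)⟩ with hw
  have hν : ∀ n : ℕ, ∃ μ : K →ₗ[F] F, ∀ c : N, μ (c : K) = (l c).coeff n := by
    intro n
    let ν : (N.restrictScalars F) →ₗ[F] F :=
      { toFun := fun c => (l c).coeff n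
        map_add' := by
          intro a b
          have : l (a + b) = l a + l b := l.map_add a b
          rw [this, coeff_add]
        map_smul' := by
          rintro a ⟨b, hb⟩
          have hab : a • b ∈ N := (N.restrictScalars F).smul_mem a hb
          have h1 : (⟨a • b, hab⟩ : N) = (C a : F[X]) • (⟨b, hb⟩ : N) := by
            refine Subtype.ext ?_
            show a • b = (C a : F[X]) • b
            rw [hsmul, aeval_C, Algebra.smul_def]
          have h2 : l ⟨a • b, hab⟩ = C a * l ⟨b, hb⟩ := by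
            rw [h1, l.map_smul, smul_eq_mul]
          show (l ⟨a • b, hab⟩).coeff n = a • (l ⟨b, hb⟩).coeff n
          rw [h2, coeff_C_mul, smul_eq_mul] }
    obtain ⟨μ, hμ⟩ := LinearMap.exists_extend ν
    exact ⟨μ, fun c => LinearMap.congr_fun hμ c⟩
  choose μ hμ using hν
  have hX : ∀ c (hc : c ∈ N), x * c ∈ N := by
    intro c hc
    have h1 : x * c = (X : F[X]) • c := by rw [hsmul, aeval_X]
    rw [h1]
    exact N.smul_mem _ hc
  have hlX : ∀ c (hc : c ∈ N), l ⟨x * c, hX c hc⟩ = X * l ⟨c, hc⟩ := by
    intro c hc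
    have h1 : (⟨x * c, hX c hc⟩ : N) = (X : F[X]) • ⟨c, hc⟩ := by
      refine Subtype.ext ?_
      show x * c = (X : F[X]) • c
      rw [hsmul, aeval_X]
    rw [h1, l.map_smul, smul_eq_mul]
  refine ⟨μ, w, hl, fun n => hμ n ⟨1, _⟩, ?_, ?_, ?_⟩
  · intro c hc n
    have hcN := hN c (Finset.mem_insert_of_mem hc)
    have h1 := hμ (n + 1) ⟨x * c, hX c hcN⟩
    have h2 := hμ n ⟨c, hcN⟩
    rw [hlX c hcN, coeff_X_mul] at h1
    exact h1.trans h2.symm
  · intro c hc
    have hcN := hN c (Finset.mem_insert_of_mem hc)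
    have h1 := hμ 0 ⟨x * c, hX c hcN⟩
    rw [hlX c hcN, coeff_X_mul_zero] at h1
    exact h1
  · refine ⟨(S.attach.sup fun c => (l ⟨c, hN c (Finset.mem_insert_of_mem c.2)⟩).natDegree) + 1,
      fun n hn c hc => ?_⟩
    have hcN := hN c (Finset.mem_insert_of_mem hc)
    have h1 := hμ n ⟨c, hcN⟩
    have h2 : (l ⟨c, hcN⟩).natDegree ≤
        S.attach.sup fun c => (l ⟨c, hN c (Finset.mem_insert_of_mem c.2)⟩).natDegree :=
      Finset.le_sup (f := fun c : S => (l ⟨c, hN c (Finset.mem_insert_of_mem c.2)⟩).natDegree)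
        (Finset.mem_attach S ⟨c, hc⟩)
    rw [coeff_eq_zero_of_natDegree_lt (by omega)] at h1
    exact h1

section coeff

variable {F : Type*} [Field F] {K : Type*} [Field K] [Algebra F K] {H : Type*} [Group H]

private lemma map_lift_mul (μ : K →ₗ[F] F) (t : MonoidAlgebra F H) (c : MonoidAlgebra K H) :
    MonoidAlgebra.map (μ : K →+ F) (MonoidAlgebra.mapRingHom H (algebraMap F K) t * c) =
      t * MonoidAlgebra.map (μ : K →+ F) c := by
  induction t using MonoidAlgebra.induction_linear with
  | zero => simp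
  | add f g hf hg => rw [map_add, add_mul, MonoidAlgebra.map_add, hf, hg, add_mul]
  | single a r =>
    induction c using MonoidAlgebra.induction_linear with
    | zero => simp
    | add f g hf hg => rw [mul_add, MonoidAlgebra.map_add, hf, hg, MonoidAlgebra.map_add, mul_add]
    | single b s =>
      rw [MonoidAlgebra.mapRingHom_single, MonoidAlgebra.single_mul_single,
        MonoidAlgebra.map_single, MonoidAlgebra.map_single, MonoidAlgebra.single_mul_single]
      congr 1
      show μ (algebraMap F K r * s) = r * μ s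
      rw [← Algebra.smul_def, map_smul, smul_eq_mul]

private lemma aug_lift (t : MonoidAlgebra F H) :
    aug K H (MonoidAlgebra.mapRingHom H (algebraMap F K) t) = algebraMap F K (aug F H t) := by
  induction t using MonoidAlgebra.induction_linear with
  | zero => simp
  | add f g hf hg => rw [map_add, map_add, hf, hg, map_add, map_add]
  | single a r => simp

end coeff

/-- P7. -/
theorem thin_of_transcendental {p : ℕ} [Fact p.Prime] {K : Type*} [Field K]
    [Algebra (ZMod p) K] {x : K} (hx : Transcendental (ZMod p) x) {H : Type*} [Group H]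
    (h : AugRad K H) (hp : AugRad (ZMod p) H) : Thin p H := by
  classical
  intro d T hT
  set ι := MonoidAlgebra.mapRingHom H (algebraMap (ZMod p) K) with hι
  -- the matrix `1 - x T` over `K[H]` is invertible
  have hunit : IsUnit ((aug K H).toRingHom.mapMatrix (1 - x • T.map ι)) := by
    have : (aug K H).toRingHom.mapMatrix (1 - x • T.map ι) = 1 := by
      rw [map_sub, map_one]
      have h0 : (aug K H).toRingHom.mapMatrix (x • T.map ι) = 0 := by
        ext i j
        show aug K H (x • ι (T i j)) = 0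
        rw [map_smul, hι, aug_lift, hT i j, map_zero, smul_zero]
      rw [h0, sub_zero]
    rw [this]
    exact isUnit_one
  obtain ⟨Y, hY⟩ := h.exists_inv (1 - x • T.map ι) hunit
  have hY1 : Y = 1 + x • (T.map ι * Y) := by
    rw [sub_mul, one_mul, Matrix.smul_mul] at hY
    rw [← hY]
    abel
  -- the finite set of the coefficients
  let S : Finset K := Finset.univ.biUnion fun i : Fin d => Finset.univ.biUnion fun j : Fin d =>
    (Y i j).coeff.support.image fun g => (Y i j).coeff g
  have hS : ∀ i j g, (Y i j).coeff g ≠ 0 → (Y i j).coeff g ∈ S := by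
    intro i j g hg
    refine Finset.mem_biUnion.2 ⟨i, Finset.mem_univ _, Finset.mem_biUnion.2
      ⟨j, Finset.mem_univ _, Finset.mem_image.2 ⟨g, ?_, rfl⟩⟩⟩
    exact Finsupp.mem_support_iff.2 hg
  obtain ⟨μ, w, hw, h1, hsucc, hzero, N, hN⟩ := exists_functionals hx S
  let y : ℕ → Matrix (Fin d) (Fin d) (MonoidAlgebra (ZMod p) H) := fun n =>
    Matrix.of fun i j => MonoidAlgebra.map (μ n : K →+ ZMod p) (Y i j)
  have hxs : ∀ n i j, MonoidAlgebra.map (μ (n + 1) : K →+ ZMod p) (x • Y i j) = y n i j := by
    intro n i j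
    ext g
    show μ (n + 1) ((x • Y i j).coeff g) = μ n ((Y i j).coeff g)
    have e : (x • Y i j).coeff g = x * (Y i j).coeff g := rfl
    rw [e]
    by_cases hg : (Y i j).coeff g = 0
    · rw [hg, mul_zero, map_zero, map_zero]
    · exact hsucc _ (hS i j g hg) n
  have hx0 : ∀ i j, MonoidAlgebra.map (μ 0 : K →+ ZMod p) (x • Y i j) = 0 := by
    intro i j
    ext g
    show μ 0 ((x • Y i j).coeff g) = 0
    have e : (x • Y i j).coeff g = x * (Y i j).coeff g := rfl
    rw [e]
    by_cases hg : (Y i j).coeff g = 0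
    · rw [hg, mul_zero, map_zero]
    · exact hzero _ (hS i j g hg)
  have hone : ∀ n i j, MonoidAlgebra.map (μ n : K →+ ZMod p)
      ((1 : Matrix (Fin d) (Fin d) (MonoidAlgebra K H)) i j) =
        (w.coeff n • (1 : Matrix (Fin d) (Fin d) (MonoidAlgebra (ZMod p) H))) i j := by
    intro n i j
    rw [Matrix.smul_apply, Matrix.one_apply, Matrix.one_apply]
    split_ifs
    · rw [MonoidAlgebra.one_def, MonoidAlgebra.map_single, MonoidAlgebra.one_def,
        MonoidAlgebra.smul_single, smul_eq_mul, mul_one]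
      congr 1
      exact h1 n
    · rw [MonoidAlgebra.map_zero, smul_zero]
  have hentry : ∀ n i j, y n i j = (w.coeff n • (1 : Matrix (Fin d) (Fin d) _)) i j +
      ∑ l, T i l * MonoidAlgebra.map (μ n : K →+ ZMod p) (x • Y l j) := by
    intro n i j
    show MonoidAlgebra.map (μ n : K →+ ZMod p) (Y i j) = _
    conv_lhs => rw [hY1]
    have e : (x • (T.map ι * Y)) i j = ∑ l, ι (T i l) * (x • Y l j) := by
      rw [Matrix.smul_apply, Matrix.mul_apply, Finset.smul_sum]
      refine Finset.sum_congr rfl fun l _ => ?_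
      rw [mul_smul_comm]
      rfl
    rw [Matrix.add_apply, MonoidAlgebra.map_add, hone, e, MonoidAlgebra.map_sum]
    congr 1
    exact Finset.sum_congr rfl fun l _ => map_lift_mul (μ n) (T i l) (x • Y l j)
  have hy0 : y 0 = w.coeff 0 • 1 := by
    ext1 i j
    rw [hentry]
    simp only [hx0, mul_zero, Finset.sum_const_zero, add_zero]
  have hys : ∀ n, y (n + 1) = T * y n + w.coeff (n + 1) • 1 := by
    intro n
    ext1 i j
    rw [hentry, Matrix.add_apply, Matrix.mul_apply, add_comm]
    simp only [hxs]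
  have hyn : ∀ n, y n = ∑ i ∈ Finset.range (n + 1), w.coeff i • T ^ (n - i) := by
    intro n
    induction n with
    | zero => rw [hy0]; simp
    | succ n ih =>
      rw [hys, ih, Finset.sum_range_succ _ (n + 1), Nat.sub_self, pow_zero, Finset.mul_sum]
      congr 1
      refine Finset.sum_congr rfl fun i hi => ?_
      rw [Finset.mem_range] at hi
      rw [mul_smul_comm, ← pow_succ', show n + 1 - i = n - i + 1 by omega]
  set D := w.natDegree with hD
  set q : Matrix (Fin d) (Fin d) (MonoidAlgebra (ZMod p) H) :=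
    ∑ i ∈ Finset.range (D + 1), w.coeff i • T ^ (D - i) with hq
  -- a power of `T` kills `q`
  have hkill : T ^ N * q = 0 := by
    have hz : y (N + D) = 0 := by
      ext1 i j
      show MonoidAlgebra.map (μ (N + D) : K →+ ZMod p) (Y i j) = 0
      ext g
      show μ (N + D) ((Y i j).coeff g) = 0
      by_cases hg : (Y i j).coeff g = 0
      · rw [hg, map_zero]
      · exact hN _ (by omega) _ (hS i j g hg)
    rw [hyn] at hz
    have hsplit : ∑ i ∈ Finset.range (N + D + 1), w.coeff i • T ^ (N + D - i) =
        ∑ i ∈ Finset.range (D + 1), w.coeff i • T ^ (N + D - i) := by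
      symm
      refine Finset.sum_subset (Finset.range_subset_range.2 (by omega)) ?_
      intro i _ hi
      rw [Finset.mem_range, not_lt] at hi
      rw [Polynomial.coeff_eq_zero_of_natDegree_lt (by omega), zero_smul]
    rw [hsplit] at hz
    rw [hq, Finset.mul_sum, ← hz]
    refine Finset.sum_congr rfl fun i hi => ?_
    rw [Finset.mem_range] at hi
    rw [mul_smul_comm, ← pow_add, show N + (D - i) = N + D - i by omega]
  -- `q` is invertible
  have hqu : IsUnit ((aug (ZMod p) H).toRingHom.mapMatrix q) := by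
    have hT0 : (aug (ZMod p) H).toRingHom.mapMatrix T = 0 := by
      ext i j
      exact hT i j
    have hsm : ∀ (c : ZMod p) (Z : Matrix (Fin d) (Fin d) (MonoidAlgebra (ZMod p) H)),
        (aug (ZMod p) H).toRingHom.mapMatrix (c • Z) =
          c • (aug (ZMod p) H).toRingHom.mapMatrix Z := by
      intro c Z
      ext i j
      show aug (ZMod p) H (c • Z i j) = c • aug (ZMod p) H (Z i j)
      rw [map_smul]
    have h2 : (aug (ZMod p) H).toRingHom.mapMatrix q =
        w.coeff D • (1 : Matrix (Fin d) (Fin d) (ZMod p)) := by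
      rw [hq, map_sum, Finset.sum_range_succ, Nat.sub_self, pow_zero, hsm, map_one]
      rw [Finset.sum_eq_zero, zero_add]
      intro i hi
      rw [Finset.mem_range] at hi
      rw [hsm, map_pow, hT0, zero_pow (by omega), smul_zero]
    rw [h2]
    have h3 : w.coeff D ≠ 0 := by
      rw [hD, Polynomial.coeff_natDegree]
      exact Polynomial.leadingCoeff_ne_zero.2 hw
    exact ⟨⟨w.coeff D • 1, (w.coeff D)⁻¹ • 1, by
      rw [smul_mul_smul_comm, mul_inv_cancel₀ h3, one_mul, one_smul], by
      rw [smul_mul_smul_comm, inv_mul_cancel₀ h3, one_mul, one_smul]⟩, rfl⟩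
  obtain ⟨Q, hQ⟩ := hp.exists_inv q hqu
  refine ⟨N, ?_⟩
  calc T ^ N = T ^ N * (q * Q) := by rw [hQ, mul_one]
    _ = 0 := by rw [← mul_assoc, hkill, zero_mul]

end MP331e4fBw
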