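import Pool.Agent.Lib_MP_331e4f_bw.Rat
import Pool.Agent.Lib_MP_331e4f_bw.Trans
import Pool.Agent.Lib_MP_331e4f_bw.Descend

/-!
# P16: the condition depends only on `p` and on the transcendence degree

`AugRad k H → AugRad K H` for `K / k` algebraic: let `ζ ∈ K[H]` have augmentation `1`, let `A ≤ K` be the
(finite-dimensional) `k`-algebra generated by the coefficients of `ζ`, with basis `b_1, ..., b_e`. Then
`ζ b_j = ∑ b_i X_ij` with `X` a matrix over `k[H]` whose augmentation is the unit matrix, so `X Y = 1` for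
some `Y` over `k[H]` and `ζ (∑ b_i Y_ij β_j) = 1`, where `1 = ∑ b_j β_j`.
-/

namespace MP331e4fBw

open MP331e4f (aug AugRad mem_rad_iff aug_of)

theorem augRad_of_right_inv {K : Type*} [Field K] {H : Type*} [Group H]
    (hr : ∀ ζ : MonoidAlgebra K H, aug K H ζ = 1 → ∃ v, ζ * v = 1) : AugRad K H := by
  intro g
  rw [mem_rad_iff]
  intro y
  set ζ := 1 + y * (MonoidAlgebra.of K H g - 1) with hζ
  have h1 : aug K H ζ = 1 := by
    rw [hζ, map_add, map_mul, map_sub, aug_of, map_one, sub_self, mul_zero, add_zero]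
  obtain ⟨v, hv⟩ := hr ζ h1
  have h2 : aug K H v = 1 := by
    have := congrArg (aug K H) hv
    rwa [map_mul, h1, one_mul, map_one] at this
  obtain ⟨w, hw⟩ := hr v h2
  have h3 : w = ζ := by
    calc w = ζ * v * w := by rw [hv, one_mul]
      _ = ζ := by rw [mul_assoc, hw, mul_one]
  refine ⟨v, ?_⟩
  calc v * y * (MonoidAlgebra.of K H g - 1) + v = v * ζ := by
        rw [hζ]; noncomm_ring
    _ = 1 := by rw [← h3, hw]

theorem aug_map {k K : Type*} [Field k] [Field K] {H : Type*} [Group H] (f : K →+ k)
    (x : MonoidAlgebra K H) : aug k H (MonoidAlgebra.map f x) = f (aug K H x) := by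
  induction x using MonoidAlgebra.induction_linear with
  | zero => simp
  | add a b ha hb => rw [MonoidAlgebra.map_add, map_add, map_add, map_add, ha, hb]
  | single a r => rw [MonoidAlgebra.map_single, MP331e4f.aug_single, MP331e4f.aug_single]

/-- P16a. -/
theorem augRad_of_algebraic {k K : Type*} [Field k] [Field K] [Algebra k K]
    [Algebra.IsAlgebraic k K] {H : Type*} [Group H] (h : AugRad k H) : AugRad K H := by
  classical
  refine augRad_of_right_inv fun ζ hζ => ?_
  set T : Finset K := ζ.coeff.support.image ζ.coeff with hT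
  set A := Algebra.adjoin k (T : Set K) with hA
  have hfg : (Subalgebra.toSubmodule A).FG :=
    fg_adjoin_of_finite (Finset.finite_toSet _) fun y _ => Algebra.IsIntegral.isIntegral y
  have hfin : Module.Finite k A := Module.Finite.iff_fg.2 hfg
  have hcoeff : ∀ g, ζ.coeff g ∈ A := by
    intro g
    by_cases hg : ζ.coeff g = 0
    · rw [hg]; exact zero_mem A
    · exact Algebra.subset_adjoin (Finset.mem_coe.2
        (Finset.mem_image_of_mem _ (Finsupp.mem_support_iff.2 hg)))
  obtain ⟨π, hπ⟩ := (A.val.toLinearMap).exists_leftInverse_of_injective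
    (LinearMap.ker_eq_bot.2 Subtype.val_injective)
  have hπ' : ∀ a : A, π (a : K) = a := fun a => LinearMap.congr_fun hπ a
  set b := Module.finBasis k A with hb
  set e := Module.finrank k A with he
  let φ : Fin e → Fin e → K →ₗ[k] k := fun i j =>
    (b.coord i) ∘ₗ (LinearMap.mulRight k (b j)) ∘ₗ π
  set ι := MonoidAlgebra.mapRingHom H (algebraMap k K) with hι
  let X : Matrix (Fin e) (Fin e) (MonoidAlgebra k H) :=
    Matrix.of fun i j => MonoidAlgebra.map (φ i j : K →+ k) ζ
  let B : Fin e → MonoidAlgebra K H := fun i => MonoidAlgebra.single 1 (b i : K)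
  have key : ζ • B = Matrix.vecMul B (ι.mapMatrix X) := by
    funext j
    refine MonoidAlgebra.ext (Finsupp.ext fun g => ?_)
    have e1 : (ζ • B) j = ζ * MonoidAlgebra.single 1 (b j : K) := rfl
    have e2 : Matrix.vecMul B (ι.mapMatrix X) j =
        ∑ i, MonoidAlgebra.single 1 (b i : K) * ι (MonoidAlgebra.map (φ i j : K →+ k) ζ) := rfl
    rw [e1, e2, MonoidAlgebra.coeff_mul_single_one, MonoidAlgebra.coeff_sum,
      Finsupp.finset_sum_apply]
    set c : A := ⟨ζ.coeff g, hcoeff g⟩ with hc
    have e3 : ∀ i, (MonoidAlgebra.single 1 (b i : K) *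
        ι (MonoidAlgebra.map (φ i j : K →+ k) ζ)).coeff g =
          (((b.repr (c * b j) i) • b i : A) : K) := by
      intro i
      rw [MonoidAlgebra.coeff_single_one_mul, hι, MonoidAlgebra.coeff_mapRingHom,
        MonoidAlgebra.coeff_map, Finsupp.mapRange_apply]
      have e4 : (φ i j : K →+ k) (ζ.coeff g) = b.repr (c * b j) i := by
        show (b.coord i) (π (ζ.coeff g) * b j) = _
        have : π (ζ.coeff g) = c := hπ' c
        rw [this]
        rfl
      rw [e4, mul_comm, ← Algebra.smul_def]
      rfl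
    rw [Finset.sum_congr rfl fun i _ => e3 i]
    have e5 := congrArg (Subtype.val : A → K) (b.sum_repr (c * b j))
    rw [← AddSubmonoidClass.coe_finset_sum, e5]
    rfl
  have haug : (aug k H).toRingHom.mapMatrix X = 1 := by
    ext i j
    have e1 : (aug k H).toRingHom.mapMatrix X i j = (φ i j) (aug K H ζ) := aug_map _ _
    rw [e1, hζ]
    show (b.coord i) (π 1 * b j) = _
    have : π 1 = 1 := hπ' 1
    rw [this, one_mul, Module.Basis.coord_apply, Module.Basis.repr_self, Matrix.one_apply,
      Finsupp.single_apply]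
    simp [eq_comm]
  obtain ⟨Y, hY⟩ := h.exists_inv X (by rw [haug]; exact isUnit_one)
  let β : Fin e → MonoidAlgebra K H := fun j =>
    MonoidAlgebra.single 1 (algebraMap k K (b.repr 1 j))
  refine ⟨Matrix.vecMul B (ι.mapMatrix Y) ⬝ᵥ β, ?_⟩
  calc ζ * (Matrix.vecMul B (ι.mapMatrix Y) ⬝ᵥ β)
      = Matrix.vecMul (ζ • B) (ι.mapMatrix Y) ⬝ᵥ β := by
        rw [Matrix.smul_vecMul, smul_dotProduct, smul_eq_mul]
    _ = B ⬝ᵥ β := by
        rw [key, Matrix.vecMul_vecMul, ← map_mul, hY, map_one, Matrix.vecMul_one]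
    _ = 1 := by
        have e5 := congrArg (Subtype.val : A → K) (b.sum_repr 1)
        simp only [dotProduct, B, β, MonoidAlgebra.single_mul_single, one_mul]
        have e6 : ∑ j, (b j : K) * algebraMap k K (b.repr 1 j) = 1 := by
          rw [AddSubmonoidClass.coe_finset_sum] at e5
          rw [← show ((1 : A) : K) = 1 from rfl, ← e5]
          refine Finset.sum_congr rfl fun j _ => ?_
          rw [mul_comm, ← Algebra.smul_def]
          rfl
        have e7 : ∑ j, (MonoidAlgebra.single (1 : H) ((b j : K) * algebraMap k K (b.repr 1 j)) :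
            MonoidAlgebra K H) =
            MonoidAlgebra.single 1 (∑ j, (b j : K) * algebraMap k K (b.repr 1 j)) :=
          (map_sum (MonoidAlgebra.singleAddHom (R := K) (1 : H)) _ _).symm
        rw [e7, e6]
        rfl

/-- P16b. -/
theorem augRad_iff_thin_of_trdeg_one {p : ℕ} [Fact p.Prime] {K : Type*} [Field K]
    [Algebra (ZMod p) K] (hK : Algebra.trdeg (ZMod p) K = 1) {H : Type*} [Group H] :
    AugRad K H ↔ Thin p H := by
  obtain ⟨ι, x, hx⟩ := exists_isTranscendenceBasis' (ZMod p) K
  have hcard : Cardinal.mk ι = 1 := hx.cardinalMk_eq_trdeg.trans hK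
  obtain ⟨hsub, ⟨i⟩⟩ := Cardinal.eq_one_iff_unique.1 hcard
  have htr : Transcendental (ZMod p) (x i) := hx.1.transcendental i
  constructor
  · intro h
    exact thin_of_transcendental htr h (augRad_descend (ZMod p) h)
  · intro h
    have h1 := augRad_ratFunc_of_thin h
    have hrange : Set.range x = {x i} := by
      ext y
      constructor
      · rintro ⟨j, rfl⟩
        rw [Subsingleton.elim j i]
        exact Set.mem_singleton _
      · rintro rfl
        exact ⟨i, rfl⟩
    have halg := hx.isAlgebraic_field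
    rw [hrange] at halg
    let e := RatFunc.algEquivOfTranscendental (x i) htr
    let _ : Algebra (RatFunc (ZMod p)) (IntermediateField.adjoin (ZMod p) {x i}) :=
      e.toRingEquiv.toRingHom.toAlgebra
    have : Algebra.IsAlgebraic (RatFunc (ZMod p)) (IntermediateField.adjoin (ZMod p) {x i}) :=
      ⟨fun y => by
        obtain ⟨r, rfl⟩ := e.surjective y
        exact isAlgebraic_algebraMap r⟩
    have h2 : AugRad (IntermediateField.adjoin (ZMod p) {x i}) H := augRad_of_algebraic h1
    exact augRad_of_algebraic h2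

end MP331e4fBw
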