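import Pool.Agent.Lib_MP_331e4f_bw.Thin
import Pool.Agent.Lib_MP_331e4f_al.Known

/-!
# P12c: thinness passes to overgroups of finite index, for `p`-groups
-/

namespace MP331e4fBw

open MP331e4f (aug AugRad aug_mapDomain exists_of_ker aug_single)
open MonoidAlgebra

/-! ## finite `p`-groups are thin -/

private theorem thin_of_finite_aux {p : ℕ} [Fact p.Prime] (n : ℕ) :
    ∀ (H : Type*) [Group H] [Finite H], Nat.card H ≤ n → IsPGroup p H → Thin p H := by
  induction n with
  | zero =>
    intro H _ _ hcard
    have : 0 < Nat.card H := Nat.card_pos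
    omega
  | succ n ih =>
    intro H _ _ hcard hH d T hT
    rcases subsingleton_or_nontrivial H with hs | hs
    · have key : ∀ y : MonoidAlgebra (ZMod p) H, y = single 1 (aug (ZMod p) H y) := by
        intro y
        induction y using MonoidAlgebra.induction_linear with
        | zero => simp
        | add a b ha hb => rw [map_add, single_add, ← ha, ← hb]
        | single g r => rw [aug_single, Subsingleton.elim g 1]
      have h0 : T = 0 := by
        ext1 i j
        rw [key (T i j), hT, single_zero, Matrix.zero_apply]
      rw [h0]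
      exact IsNilpotent.zero
    · have hcn := hH.center_nontrivial
      obtain ⟨⟨z, hz⟩, hz1⟩ := _root_.exists_ne (1 : Subgroup.center H)
      have hz1' : z ≠ 1 := fun h => hz1 (Subtype.ext h)
      have hnormal : (Subgroup.zpowers z).Normal := by
        constructor
        intro a ha g
        have hc : a ∈ Subgroup.center H := by
          have : Subgroup.zpowers z ≤ Subgroup.center H := by
            rw [Subgroup.zpowers_le]; exact hz
          exact this ha
        have : g * a * g⁻¹ = a := by
          rw [Subgroup.mem_center_iff.1 hc g]; group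
        rwa [this]
      have hlt : Nat.card (H ⧸ Subgroup.zpowers z) ≤ n := by
        have h1 := Subgroup.card_eq_card_quotient_mul_card_subgroup (Subgroup.zpowers z)
        have h2 : 1 < Nat.card (Subgroup.zpowers z) := by
          rw [Nat.card_zpowers]
          have h3 : orderOf z ≠ 1 := by rwa [Ne, orderOf_eq_one_iff]
          have h4 : 0 < orderOf z := orderOf_pos z
          omega
        have h5 : 0 < Nat.card (H ⧸ Subgroup.zpowers z) := Nat.card_pos
        nlinarith
      have hq : IsPGroup p (H ⧸ Subgroup.zpowers z) := hH.to_quotient _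
      set q := mapDomainRingHom (ZMod p) (QuotientGroup.mk' (Subgroup.zpowers z)) with hqdef
      obtain ⟨m, hm⟩ := ih (H ⧸ Subgroup.zpowers z) hlt hq d (q.mapMatrix T) (by
        intro i j
        change aug (ZMod p) _ (q (T i j)) = 0
        rw [hqdef, aug_mapDomain, hT])
      rw [← map_pow] at hm
      have hm' : ∀ i j, ∃ w, (T ^ m) i j = (of (ZMod p) H z - 1) * w := by
        intro i j
        refine exists_of_ker (ZMod p) hz _ ?_
        have := congrFun (congrFun hm i) j
        exact this
      choose w hw using hm'
      have hT' : T ^ m = Matrix.scalar (Fin d) (of (ZMod p) H z - 1) * Matrix.of w := by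
        ext1 i j
        rw [hw]
        simp [Matrix.scalar_apply, Matrix.diagonal_mul]
      obtain ⟨k, hk⟩ := hH z
      refine ⟨m * p ^ k, ?_⟩
      have hcen : ∀ r', Commute (of (ZMod p) H z - 1) r' := fun r' =>
        ((of_commute (fun m' => (Subgroup.mem_center_iff.1 hz m').symm) r').sub_left
          (Commute.one_left r'))
      have hcomm : Commute (Matrix.scalar (Fin d) (of (ZMod p) H z - 1)) (Matrix.of w) :=
        Matrix.scalar_commute _ hcen _
      have hchar : CharP (MonoidAlgebra (ZMod p) H) p :=
        charP_of_injective_algebraMap (algebraMap (ZMod p) (MonoidAlgebra (ZMod p) H)).injective p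
      have hzp : (of (ZMod p) H z - 1) ^ (p ^ k) = 0 := by
        rw [sub_pow_char_pow_of_commute _ _ (Commute.one_right _), ← map_pow, hk, map_one,
          one_pow, sub_self]
      rw [pow_mul, hT', hcomm.mul_pow, ← map_pow, hzp, map_zero, zero_mul]

/-- finite `p`-groups are thin -/
theorem thin_of_finite {p : ℕ} [Fact p.Prime] {H : Type*} [Group H] [Finite H]
    (hH : IsPGroup p H) : Thin p H :=
  thin_of_finite_aux _ H le_rfl hH

/-! ## the representation of `k[Q]` by matrices over `k[L]` -/

section schreier

variable {k : Type*} [Field k] {Q : Type*} [Group Q] (L : Subgroup Q)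

/-- the cocycle -/
private noncomputable def coc (g : Q) (r : Q ⧸ L) : L :=
  ⟨(g • r).out⁻¹ * (g * r.out), by
    rw [← QuotientGroup.eq, QuotientGroup.out_eq']
    conv_lhs => rw [← QuotientGroup.out_eq' r]
    rfl⟩

private theorem coc_mul (g h : Q) (r : Q ⧸ L) : coc L (g * h) r = coc L g (h • r) * coc L h r := by
  apply Subtype.ext
  simp only [coc, Subgroup.coe_mul, mul_smul]
  group

private theorem coc_one (r : Q ⧸ L) : coc L 1 r = 1 := by
  apply Subtype.ext
  simp [coc]

variable [Fintype (Q ⧸ L)] [DecidableEq (Q ⧸ L)]

variable (k) in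
/-- the Schreier representation -/
private noncomputable def sch : Q →* Matrix (Q ⧸ L) (Q ⧸ L) (MonoidAlgebra k L) where
  toFun g := Matrix.of fun r' r => if r' = g • r then single (coc L g r) 1 else 0
  map_one' := by
    ext1 r' r
    simp only [Matrix.of_apply, one_smul, coc_one, Matrix.one_apply]
    rfl
  map_mul' g h := by
    ext1 r' r
    simp only [Matrix.mul_apply, Matrix.of_apply]
    rw [Finset.sum_eq_single (h • r)]
    · rw [if_pos rfl, mul_smul]
      split_ifs
      · rw [single_mul_single, mul_one, coc_mul]
      · rw [zero_mul]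
    · intro b _ hb
      rw [if_neg hb, mul_zero]
    · simp

private theorem sch_apply (g : Q) (r' r : Q ⧸ L) :
    sch k L g r' r = if r' = g • r then single (coc L g r) 1 else 0 := rfl

variable (k) in
/-- the Schreier representation of the group algebra -/
private noncomputable def Sch :
    MonoidAlgebra k Q →ₐ[k] Matrix (Q ⧸ L) (Q ⧸ L) (MonoidAlgebra k L) :=
  MonoidAlgebra.lift k _ Q (sch k L)

private theorem Sch_single (g : Q) (a : k) (r' r : Q ⧸ L) :
    Sch k L (single g a) r' r = if r' = g • r then single (coc L g r) a else 0 := by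
  rw [Sch, MonoidAlgebra.lift_single, Matrix.smul_apply, sch_apply]
  split_ifs <;> simp

private theorem Sch_coeff (x : MonoidAlgebra k Q) (r' r : Q ⧸ L) (l : L) :
    (Sch k L x r' r).coeff l = x.coeff (r'.out * l * r.out⁻¹) := by
  classical
  induction x using MonoidAlgebra.induction_linear with
  | zero => simp
  | add x y hx hy => simp [hx, hy]
  | single g a =>
    rw [Sch_single]
    by_cases h : g = r'.out * l * r.out⁻¹
    · have h1 : r' = g • r := by
        have e1 : g • r = (QuotientGroup.mk (g * r.out) : Q ⧸ L) := by
          conv_lhs => rw [← QuotientGroup.out_eq' r]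
          rfl
        rw [e1, h, inv_mul_cancel_right]
        conv_lhs => rw [← QuotientGroup.out_eq' r']
        rw [QuotientGroup.eq]
        simp
      have h2 : coc L g r = l := by
        apply Subtype.ext
        change (g • r).out⁻¹ * (g * r.out) = l
        rw [← h1, h]
        group
      rw [if_pos h1, h2, h]
      simp
    · rw [coeff_single, Finsupp.single_eq_of_ne (Ne.symm h)]
      split_ifs with h1
      · rw [coeff_single, Finsupp.single_eq_of_ne]
        intro h2
        apply h
        rw [h2]
        change g = r'.out * ((g • r).out⁻¹ * (g * r.out)) * r.out⁻¹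
        rw [← h1]
        group
      · simp

private theorem Sch_injective : Function.Injective (Sch k L) := by
  rw [injective_iff_map_eq_zero]
  intro x hx
  ext g
  have h1 : g = (g • (QuotientGroup.mk 1 : Q ⧸ L)).out * (coc L g (QuotientGroup.mk 1) : L) *
      (QuotientGroup.mk 1 : Q ⧸ L).out⁻¹ := by
    simp only [coc]
    group
  rw [h1, ← Sch_coeff, hx]
  simp

end schreier

/-- P12c. Thinness passes to overgroups of finite index, for `p`-groups. -/
theorem Thin.of_finiteIndex {p : ℕ} [Fact p.Prime] {Q : Type*} [Group Q]
    (hQ : ∀ g : Q, ∃ n : ℕ, g ^ p ^ n = 1) (L : Subgroup Q) [L.FiniteIndex] (h : Thin p L) :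
    Thin p Q := by
  classical
  have hfin : Finite (Q ⧸ L) := inferInstance
  let _ : Fintype (Q ⧸ L) := Fintype.ofFinite _
  intro d T hT
  -- the finite quotient
  set f : Q →* (MulAction.toPermHom Q (Q ⧸ L)).range := (MulAction.toPermHom Q (Q ⧸ L)).rangeRestrict
    with hf
  have hfp : IsPGroup p (MulAction.toPermHom Q (Q ⧸ L)).range := by
    rintro ⟨_, g, rfl⟩
    obtain ⟨n, hn⟩ := hQ g
    refine ⟨n, Subtype.ext ?_⟩
    rw [Subgroup.coe_pow, ← map_pow, hn, map_one]
    rfl
  -- permutation matrices
  let ψ0 : (MulAction.toPermHom Q (Q ⧸ L)).range →* Matrix (Q ⧸ L) (Q ⧸ L) (ZMod p) :=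
    { toFun := fun σ => Matrix.of fun r' r => if r' = (σ : Equiv.Perm (Q ⧸ L)) r then 1 else 0
      map_one' := by
        ext1 r' r
        simp [Matrix.one_apply]
      map_mul' := by
        intro σ τ
        ext1 r' r
        simp only [Matrix.mul_apply, Matrix.of_apply]
        rw [Finset.sum_eq_single ((τ : Equiv.Perm (Q ⧸ L)) r)]
        · rw [if_pos rfl, mul_one]
          rfl
        · intro b _ hb
          rw [if_neg hb, mul_zero]
        · simp }
  let ψ := MonoidAlgebra.lift (ZMod p) (Matrix (Q ⧸ L) (Q ⧸ L) (ZMod p)) _ ψ0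
  have hψ : ∀ x : MonoidAlgebra (ZMod p) Q,
      (aug (ZMod p) L).toRingHom.mapMatrix (Sch (ZMod p) L x) =
        ψ (mapDomainRingHom (ZMod p) f x) := by
    intro x
    induction x using MonoidAlgebra.induction_linear with
    | zero => simp
    | add x y hx hy => simp only [map_add, hx, hy]
    | single g a =>
      have e1 : mapDomainRingHom (ZMod p) f (single g a) = single (f g) a := by
        simp [mapDomainRingHom]
      rw [e1]
      ext1 r' r
      change aug (ZMod p) L (Sch (ZMod p) L (single g a) r' r) = _
      rw [Sch_single]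
      simp only [ψ, MonoidAlgebra.lift_single, Matrix.smul_apply]
      change _ = a • (if r' = g • r then (1 : ZMod p) else 0)
      split_ifs
      · rw [aug_single, smul_eq_mul, mul_one]
      · rw [map_zero, smul_zero]
  -- nilpotent augmentation
  obtain ⟨m, hm⟩ := thin_of_finite hfp d ((mapDomainRingHom (ZMod p) f).mapMatrix T) (by
    intro i j
    change aug (ZMod p) _ (mapDomainRingHom (ZMod p) f (T i j)) = 0
    rw [aug_mapDomain, hT])
  set Φ : Matrix (Fin d) (Fin d) (MonoidAlgebra (ZMod p) Q) →+*
      Matrix (Fin d) (Fin d) (Matrix (Q ⧸ L) (Q ⧸ L) (MonoidAlgebra (ZMod p) L)) :=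
    (Sch (ZMod p) L).toRingHom.mapMatrix with hΦ
  have hΦinj : Function.Injective Φ := Matrix.map_injective (Sch_injective L)
  have haug : ∀ i j r' r, aug (ZMod p) L ((Φ (T ^ m)) i j r' r) = 0 := by
    intro i j r' r
    have h1 : (aug (ZMod p) L).toRingHom.mapMatrix (Sch (ZMod p) L ((T ^ m) i j)) = 0 := by
      rw [hψ]
      have h2 : mapDomainRingHom (ZMod p) f ((T ^ m) i j) = 0 := by
        rw [← map_pow] at hm
        exact congrFun (congrFun hm i) j
      rw [h2, map_zero]
    exact congrFun (congrFun h1 r') r
  -- reindex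
  let e : Fin d × (Q ⧸ L) ≃ Fin (Fintype.card (Fin d × (Q ⧸ L))) := Fintype.equivFin _
  let R := (Matrix.compRingEquiv (Fin d) (Q ⧸ L) (MonoidAlgebra (ZMod p) L)).trans
    (Matrix.reindexRingEquiv (MonoidAlgebra (ZMod p) L) e)
  have h3 : IsNilpotent (R (Φ (T ^ m))) := by
    apply h
    intro i j
    exact haug _ _ _ _
  rw [IsNilpotent.map_iff R.injective, IsNilpotent.map_iff hΦinj] at h3
  exact IsNilpotent.of_pow h3

end MP331e4fBw
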