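import Pool.Agent.Lib_MP_331e4f_bw.Count

/-!
# P2c: good coefficient matrices over the prime field (the union bound and the restriction of
scalars)
-/

open Module

namespace MP331e4fBw

/-- the types: dimensions at most `D` and a family of matrices over `k` -/
abbrev BTy (k : Type*) (S : Type*) (D : ℕ) : Type _ :=
  Σ q : Fin (D + 1) × Fin (D + 1), S → Matrix (Fin q.2) (Fin q.1) k

/-- the union bound -/
theorem exists_good_ext {k L : Type} [Field k] [Finite k] [Field L] [Finite L] [Algebra k L]
    {S : Type*} [Fintype S] (D : ℕ)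
    (hext : ∀ (n m : ℕ) (B : S → Matrix (Fin m) (Fin n) k),
      Hall (fun s => Matrix.toLin' (B s)) →
        Hall (fun s => Matrix.toLin' ((B s).map (algebraMap k L))))
    (hq : Nat.card (BTy k S D) * (2 * D) < Nat.card L - 1) :
    ∃ A : S → Matrix (Fin (D ^ 2 + 1)) (Fin (D ^ 2 + 1)) L, ∀ (n m : ℕ), n ≤ D → m ≤ D →
      ∀ B : S → Matrix (Fin m) (Fin n) k, Hall (fun s => Matrix.toLin' (B s)) →
        Function.Injective (blow A (fun s => Matrix.toLin' ((B s).map (algebraMap k L)))) := by
  classical
  by_contra hcon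
  push Not at hcon
  have : Fintype L := Fintype.ofFinite L
  have : Fintype k := Fintype.ofFinite k
  set Ω : Type _ := S → Matrix (Fin (D ^ 2 + 1)) (Fin (D ^ 2 + 1)) L with hΩ
  have : Finite Ω := inferInstance
  have : Fintype Ω := Fintype.ofFinite Ω
  have : Finite (BTy k S D) := inferInstance
  have : Fintype (BTy k S D) := Fintype.ofFinite _
  let bad : BTy k S D → Finset Ω := fun t => Finset.univ.filter fun A =>
    Hall (fun s => Matrix.toLin' (t.2 s)) ∧
      ¬ Function.Injective (blow A (fun s => Matrix.toLin' ((t.2 s).map (algebraMap k L))))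
  have hcover : (Finset.univ : Finset Ω) ⊆ Finset.univ.biUnion bad := by
    intro A _
    obtain ⟨n, m, hn, hm, B, hB, hinj⟩ := hcon A
    rw [Finset.mem_biUnion]
    refine ⟨⟨(⟨n, Nat.lt_succ_of_le hn⟩, ⟨m, Nat.lt_succ_of_le hm⟩), B⟩, Finset.mem_univ _, ?_⟩
    rw [Finset.mem_filter]
    exact ⟨Finset.mem_univ _, hB, hinj⟩
  have hbad : ∀ t, (bad t).card * (Nat.card L - 1) ≤ 2 * D * Nat.card Ω := by
    intro t
    by_cases ht : Hall (fun s => Matrix.toLin' (t.2 s))
    · have h1 := card_bad L D (D ^ 2 + 1) le_rfl (t.1.1 : ℕ) (Nat.lt_succ_iff.1 t.1.1.2)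
        (Fin t.1.1 → L) (Fin t.1.2 → L) (by simp)
        (fun s => Matrix.toLin' ((t.2 s).map (algebraMap k L))) (hext _ _ _ ht)
      have h2 : (bad t).card = Nat.card {A : Ω // ¬ Function.Injective (blow A
          (fun s => Matrix.toLin' ((t.2 s).map (algebraMap k L))))} := by
        rw [Nat.card_eq_fintype_card, Fintype.card_subtype]
        congr 1
        ext A
        simp only [bad, Finset.mem_filter, Finset.mem_univ, true_and, ht]
      rw [h2]
      refine h1.trans ?_
      have h3 : (t.1.1 : ℕ) ≤ D := Nat.lt_succ_iff.1 t.1.1.2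
      exact Nat.mul_le_mul_right _ (Nat.mul_le_mul_left _ h3)
    · have h2 : (bad t).card = 0 := by
        rw [Finset.card_eq_zero, Finset.filter_eq_empty_iff]
        intro A _ h
        exact ht h.1
      rw [h2, zero_mul]
      exact Nat.zero_le _
  have h1 : Nat.card Ω ≤ ∑ t, (bad t).card := by
    rw [Nat.card_eq_fintype_card, ← Finset.card_univ]
    exact (Finset.card_le_card hcover).trans Finset.card_biUnion_le
  have h2 : Nat.card Ω * (Nat.card L - 1) ≤ Nat.card Ω * (Nat.card (BTy k S D) * (2 * D)) := by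
    calc Nat.card Ω * (Nat.card L - 1) ≤ (∑ t, (bad t).card) * (Nat.card L - 1) :=
          Nat.mul_le_mul_right _ h1
      _ = ∑ t, (bad t).card * (Nat.card L - 1) := Finset.sum_mul _ _ _
      _ ≤ ∑ _t : BTy k S D, 2 * D * Nat.card Ω := Finset.sum_le_sum fun t _ => hbad t
      _ = Nat.card Ω * (Nat.card (BTy k S D) * (2 * D)) := by
          rw [Finset.sum_const, Finset.card_univ, ← Nat.card_eq_fintype_card, smul_eq_mul]
          ring
  have h3 : 0 < Nat.card Ω := Nat.card_pos
  have h4 := Nat.le_of_mul_le_mul_left h2 h3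
  omega

/-- restriction of scalars -/
theorem good_of_ext {k L : Type} [Field k] [Field L] [Algebra k L] [FiniteDimensional k L]
    {S : Type*} [Fintype S] (D r : ℕ) (hr : 0 < r) (A : S → Matrix (Fin r) (Fin r) L)
    (hA : ∀ (n m : ℕ), n ≤ D → m ≤ D →
      ∀ B : S → Matrix (Fin m) (Fin n) k, Hall (fun s => Matrix.toLin' (B s)) →
        Function.Injective (blow A (fun s => Matrix.toLin' ((B s).map (algebraMap k L))))) :
    ∃ (d : ℕ) (A' : S → Matrix (Fin d) (Fin d) k), 0 < d ∧ Good D A' := by
  classical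
  have : Nonempty (Fin r) := ⟨⟨0, hr⟩⟩
  let V := Fin r → L
  let e : V ≃ₗ[k] (Fin (finrank k V) → k) := (finBasis k V).equivFun
  let TL : S → V →ₗ[k] V := fun s => ((A s).mulVecLin).restrictScalars k
  have he : ∀ s y, e.symm ((LinearMap.toMatrix' (e.toLinearMap ∘ₗ TL s ∘ₗ
      e.symm.toLinearMap)).mulVec y) = TL s (e.symm y) := by
    intro s y
    rw [LinearMap.toMatrix'_mulVec]
    simp
  have hpos : 0 < finrank k V := finrank_pos
  refine ⟨finrank k V, fun s => LinearMap.toMatrix' (e.toLinearMap ∘ₗ TL s ∘ₗ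
    e.symm.toLinearMap), hpos, ?_⟩
  intro n m hn hm B hB
  rw [← LinearMap.ker_eq_bot, LinearMap.ker_eq_bot']
  intro x hx
  set A' : S → Matrix (Fin (finrank k V)) (Fin (finrank k V)) k :=
    fun s => LinearMap.toMatrix' (e.toLinearMap ∘ₗ TL s ∘ₗ e.symm.toLinearMap) with hA'
  let BM : S → Matrix (Fin m) (Fin n) k := fun s => LinearMap.toMatrix' (B s)
  have hBM : ∀ s, Matrix.toLin' (BM s) = B s := fun s => Matrix.toLin'_toMatrix' (B s)
  have hB' : Hall (fun s => Matrix.toLin' (BM s)) := by
    simpa only [hBM] using hB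
  have hinj := hA n m hn hm BM hB'
  let y : Fin r → Fin n → L := fun i c => e.symm (fun j => x j c) i
  have hy : blow A (fun s => Matrix.toLin' ((BM s).map (algebraMap k L))) y = 0 := by
    ext i a
    rw [blow_apply]
    -- the coordinate `a` of the equation over `k`
    have h2 : ∑ s, ∑ c, BM s a c • (A' s).mulVec (fun j => x j c) = 0 := by
      ext i'
      have h3 := congrFun (congrFun hx i') a
      rw [blow_apply] at h3
      simp only [Finset.sum_apply, Pi.smul_apply, Pi.zero_apply, smul_eq_mul] at h3 ⊢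
      rw [← h3]
      apply Finset.sum_congr rfl
      intro s _
      simp only [Matrix.mulVec, dotProduct, Finset.mul_sum]
      rw [Finset.sum_comm]
      apply Finset.sum_congr rfl
      intro j _
      rw [← hBM s, Matrix.toLin'_apply, Matrix.mulVec, dotProduct, Finset.mul_sum]
      apply Finset.sum_congr rfl
      intro c _
      ring
    have h4 : ∑ s, ∑ c, BM s a c • ((A s).mulVec (e.symm fun j => x j c) : Fin r → L) = 0 := by
      have h5 := congrArg (fun z => e.symm z) h2
      simp only [map_sum, map_smul, map_zero, hA', he] at h5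
      exact h5
    have h6 := congrFun h4 i
    simp only [Finset.sum_apply, Pi.smul_apply, Pi.zero_apply] at h6
    simp only [Matrix.mulVec, dotProduct, Algebra.smul_def, Finset.mul_sum] at h6
    simp only [Finset.sum_apply, Pi.smul_apply, Pi.zero_apply, smul_eq_mul, Matrix.toLin'_apply,
      Matrix.mulVec, dotProduct, Matrix.map_apply, Finset.mul_sum]
    rw [← h6]
    apply Finset.sum_congr rfl
    intro s _
    rw [Finset.sum_comm]
    apply Finset.sum_congr rfl
    intro c _
    apply Finset.sum_congr rfl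
    intro j _
    ring
  have hy0 : y = 0 := hinj (hy.trans (map_zero _).symm)
  ext j c
  have h6 : e.symm (fun j => x j c) = 0 := by
    ext i
    exact congrFun (congrFun hy0 i) c
  have h7 : (fun j => x j c) = 0 := by
    have := congrArg e h6
    simpa using this
  exact congrFun h7 j

/-- P2c with Hall's condition after extension of scalars as a hypothesis -/
theorem exists_good_of_extend (p : ℕ) [Fact p.Prime] (S : Type*) [Fintype S] (D : ℕ)
    (hext : ∀ (L : Type) [Field L] [Algebra (ZMod p) L] [FiniteDimensional (ZMod p) L]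
      (n m : ℕ) (B : S → Matrix (Fin m) (Fin n) (ZMod p)),
      Hall (fun s => Matrix.toLin' (B s)) →
        Hall (fun s => Matrix.toLin' ((B s).map (algebraMap (ZMod p) L)))) :
    ∃ (d : ℕ) (A : S → Matrix (Fin d) (Fin d) (ZMod p)), 0 < d ∧ Good D A := by
  set τ : ℕ := Nat.card (BTy (ZMod p) S D) * (2 * D) with hτ
  have he : τ + 1 ≠ 0 := Nat.succ_ne_zero _
  have hcard : Nat.card (GaloisField p (τ + 1)) = p ^ (τ + 1) := GaloisField.card p _ he
  have hfin : Finite (GaloisField p (τ + 1)) :=
    Nat.finite_of_card_ne_zero (by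
      rw [hcard]
      exact pow_ne_zero _ (Fact.out : p.Prime).ne_zero)
  have hlt : τ < Nat.card (GaloisField p (τ + 1)) - 1 := by
    rw [hcard]
    have h1 : τ + 1 < 2 ^ (τ + 1) := Nat.lt_two_pow_self
    have h2 : 2 ^ (τ + 1) ≤ p ^ (τ + 1) :=
      Nat.pow_le_pow_left (Fact.out : p.Prime).two_le _
    omega
  obtain ⟨A, hA⟩ := exists_good_ext (k := ZMod p) (L := GaloisField p (τ + 1)) (S := S) D
    (hext (GaloisField p (τ + 1))) hlt
  exact good_of_ext D (D ^ 2 + 1) (Nat.succ_pos _) A hA

end MP331e4fBw
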