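import Pool.Agent.Lib_MP_331e4f_bw.Hall
import Pool.Agent.Lib_MP_331e4f_bw.GoodAux

/-!
# P2: good coefficient matrices over the prime field

`Hall.prod` and `Hall.extend` are in `Hall.lean`, the union bound and the restriction of scalars in
`GoodAux.lean`.
-/

open Module

namespace MP331e4fBw

/-- P2c. -/
theorem exists_good (p : ℕ) [Fact p.Prime] (S : Type*) [Fintype S] (D : ℕ) :
    ∃ (d : ℕ) (A : S → Matrix (Fin d) (Fin d) (ZMod p)), 0 < d ∧ Good D A :=
  exists_good_of_extend p S D fun _ _ _ _ _ _ B h => Hall.extend B h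

end MP331e4fBw
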