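import Pool.Agent.Lib_MP_331e4f_bw.Defs

/-!
# P2a, P2b: Hall's condition for products and after extension of scalars
-/

open Module

namespace MP331e4fBw

section

variable {k : Type*} [Field k] {E F E' F' : Type*}
    [AddCommGroup E] [Module k E] [AddCommGroup F] [Module k F]
    [AddCommGroup E'] [Module k E'] [AddCommGroup F'] [Module k F']

/-- the dimension of a subspace of a product -/
private theorem finrank_prod_sub [FiniteDimensional k E] [FiniteDimensional k E']
    (R : Submodule k (E × E')) :
    finrank k R = finrank k (R.map (LinearMap.fst k E E')) +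
      finrank k (R.comap (LinearMap.inr k E E')) := by
  have h1 := LinearMap.finrank_range_add_finrank_ker ((LinearMap.fst k E E').domRestrict R)
  rw [LinearMap.range_domRestrict] at h1
  rw [← h1]
  congr 1
  have h2 : finrank k (R.comap (LinearMap.inr k E E')) =
      finrank k ((R.comap (LinearMap.inr k E E')).map (LinearMap.inr k E E')) :=
    (Submodule.equivMapOfInjective _ LinearMap.inr_injective _).finrank_eq
  rw [h2]
  have h3 : (LinearMap.ker ((LinearMap.fst k E E').domRestrict R)).map R.subtype =
      (R.comap (LinearMap.inr k E E')).map (LinearMap.inr k E E') := by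
    ext ⟨a, b⟩
    constructor
    · rintro ⟨⟨⟨a', b'⟩, hx⟩, hk, h⟩
      have hk' : a' = 0 := hk
      subst hk'
      have : ((0 : E), b') = (a, b) := h
      exact ⟨b', hx, this⟩
    · rintro ⟨b', hb', h⟩
      have h' : ((0 : E), b') = (a, b) := h
      refine ⟨⟨(0, b'), hb'⟩, ?_, h'⟩
      change (0 : E) = 0
      rfl
  rw [← h3]
  exact (Submodule.equivMapOfInjective _ R.subtype_injective _).finrank_eq

/-- Hall's condition is invariant under linear equivalences -/
private theorem Hall.congr {S : Type*} [Fintype S] {B : S → E →ₗ[k] F} {B₂ : S → E' →ₗ[k] F'}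
    (h : Hall B) (φ : E' ≃ₗ[k] E) (ψ : F' ≃ₗ[k] F) (hc : ∀ s x, ψ (B₂ s x) = B s (φ x)) :
    Hall B₂ := by
  intro R
  have h1 := h (R.map (φ : E' →ₗ[k] E))
  have h2 : (⨆ s, (R.map (φ : E' →ₗ[k] E)).map (B s)) =
      (⨆ s, R.map (B₂ s)).map (ψ : F' →ₗ[k] F) := by
    rw [Submodule.map_iSup]
    refine iSup_congr fun s => ?_
    rw [← Submodule.map_comp, ← Submodule.map_comp]
    congr 1
    ext x
    simp [hc]
  rw [h2, LinearEquiv.finrank_map_eq, LinearEquiv.finrank_map_eq] at h1
  exact h1

end

/-- P2a. Hall's condition for a product of two families. -/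
theorem Hall.prod {k : Type*} [Field k] {S : Type*} [Fintype S] {E F E' F' : Type*}
    [AddCommGroup E] [Module k E] [FiniteDimensional k E] [AddCommGroup F] [Module k F]
    [FiniteDimensional k F] [AddCommGroup E'] [Module k E'] [FiniteDimensional k E']
    [AddCommGroup F'] [Module k F'] [FiniteDimensional k F']
    {B : S → E →ₗ[k] F} {B' : S → E' →ₗ[k] F'} (h : Hall B) (h' : Hall B') :
    Hall (fun s => (B s).prodMap (B' s)) := by
  intro R
  rw [finrank_prod_sub R, finrank_prod_sub]
  refine Nat.add_le_add ((h _).trans (Submodule.finrank_mono ?_))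
    ((h' _).trans (Submodule.finrank_mono ?_))
  · rw [Submodule.map_iSup]
    refine iSup_mono fun s => ?_
    rintro _ ⟨_, ⟨x, hx, rfl⟩, rfl⟩
    exact ⟨_, ⟨x, hx, rfl⟩, rfl⟩
  · refine iSup_le fun s => ?_
    rintro _ ⟨x, hx, rfl⟩
    refine Submodule.mem_iSup_of_mem s ⟨(0, x), hx, ?_⟩
    simp

private theorem Hall.pi {k : Type*} [Field k] {S : Type*} [Fintype S] {E F : Type*}
    [AddCommGroup E] [Module k E] [FiniteDimensional k E] [AddCommGroup F] [Module k F]
    [FiniteDimensional k F] {B : S → E →ₗ[k] F} (h : Hall B) (e : ℕ) :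
    Hall (fun s => (B s).compLeft (Fin e)) := by
  induction e with
  | zero =>
    intro R
    have : finrank k R = 0 := finrank_zero_of_subsingleton
    omega
  | succ e ih =>
    refine (h.prod ih).congr (Fin.consLinearEquiv k (fun _ : Fin (e + 1) => E)).symm
      (Fin.consLinearEquiv k (fun _ : Fin (e + 1) => F)).symm fun s x => ?_
    rw [LinearEquiv.symm_apply_eq]
    funext i
    refine Fin.cases ?_ (fun i => ?_) i
    · simp [Fin.consLinearEquiv]
    · simp [Fin.consLinearEquiv, Fin.tail]

private theorem finrank_restrict {k L : Type*} [Field k] [Field L] [Algebra k L] {n : ℕ}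
    (W : Submodule L (Fin n → L)) :
    finrank k L * finrank L W = finrank k (W.restrictScalars k) :=
  finrank_mul_finrank k L W

/-- P2b. Hall's condition after extension of scalars, for matrices. -/
theorem Hall.extend {k L : Type*} [Field k] [Field L] [Algebra k L] [FiniteDimensional k L]
    {S : Type*} [Fintype S] {n m : ℕ} (B : S → Matrix (Fin m) (Fin n) k)
    (h : Hall (fun s => Matrix.toLin' (B s))) :
    Hall (fun s => Matrix.toLin' ((B s).map (algebraMap k L))) := by
  classical
  set b := finBasis k L
  have hpi := h.pi (finrank k L)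
  -- coordinates
  let co (n : ℕ) : (Fin n → L) ≃ₗ[k] (Fin (finrank k L) → (Fin n → k)) :=
    { toFun := fun x c j => b.repr (x j) c
      invFun := fun y j => b.repr.symm (Finsupp.equivFunOnFinite.symm fun c => y c j)
      map_add' := fun x y => by ext; simp
      map_smul' := fun a x => by ext; simp
      left_inv := fun x => by
        funext j
        apply b.repr.injective
        ext c
        simp
      right_inv := fun y => by
        funext c j
        simp }
  have hk : Hall (k := k) (fun s =>
      (Matrix.toLin' ((B s).map (algebraMap k L))).restrictScalars k) := by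
    refine hpi.congr (co n) (co m) fun s x => ?_
    funext c i
    change b.repr (Matrix.toLin' ((B s).map (algebraMap k L)) x i) c =
      Matrix.toLin' (B s) (fun j => b.repr (x j) c) i
    simp only [Matrix.toLin'_apply, Matrix.mulVec, dotProduct, Matrix.map_apply]
    rw [map_sum, Finsupp.finsetSum_apply]
    refine Finset.sum_congr rfl fun j _ => ?_
    rw [← Algebra.smul_def, map_smul]
    simp
  intro R
  have h1 := hk (R.restrictScalars k)
  have h2 : (⨆ s, (R.restrictScalars k).map
      ((Matrix.toLin' ((B s).map (algebraMap k L))).restrictScalars k)) ≤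
      (⨆ s, R.map (Matrix.toLin' ((B s).map (algebraMap k L)))).restrictScalars k := by
    refine iSup_le fun s => ?_
    rintro _ ⟨x, hx, rfl⟩
    exact Submodule.mem_iSup_of_mem s ⟨x, hx, rfl⟩
  have h3 := h1.trans (Submodule.finrank_mono h2)
  rw [← finrank_restrict, ← finrank_restrict] at h3
  exact Nat.le_of_mul_le_mul_left h3 finrank_pos

end MP331e4fBw
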