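import Pool.Agent.Lib_MP_331e4f_bw.JI1

/-!
# P15b: two commuting subgroups in a just infinite group which is not hereditarily just infinite
-/

namespace MP331e4fBw

section JIaux

variable {Q : Type*} [Group Q]

/-- every finitely generated subgroup of `A` is finite -/
private def LF (A : Subgroup Q) : Prop := ∀ P : Subgroup Q, P ≤ A → P.FG → Finite P

/-- `H` is normalized by `L` -/
private def Nz (L H : Subgroup Q) : Prop := ∀ l ∈ L, ∀ h ∈ H, l * h * l⁻¹ ∈ H

/-- the conjugate `g H g⁻¹` -/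
private def cj (g : Q) (H : Subgroup Q) : Subgroup Q := H.comap (MulAut.conj g⁻¹).toMonoidHom

private theorem mem_cj {g x : Q} {H : Subgroup Q} : x ∈ cj g H ↔ g⁻¹ * x * g ∈ H := by
  unfold cj
  rw [Subgroup.mem_comap]
  simp

private theorem cj_cj (a b : Q) (H : Subgroup Q) : cj a (cj b H) = cj (a * b) H := by
  ext x
  rw [mem_cj, mem_cj, mem_cj, mul_inv_rev]
  simp only [mul_assoc]

private theorem cj_one (H : Subgroup Q) : cj 1 H = H := by
  ext x; rw [mem_cj]; simp

private theorem cj_mono {g : Q} {A B : Subgroup Q} (h : A ≤ B) : cj g A ≤ cj g B := fun x hx => by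
  rw [mem_cj] at hx ⊢; exact h hx

private theorem cj_ne {g : Q} {H : Subgroup Q} (h : H ≠ ⊥) : cj g H ≠ ⊥ := by
  intro h1
  apply h
  rw [← cj_one H, ← inv_mul_cancel g, ← cj_cj, h1]
  ext x
  rw [mem_cj, Subgroup.mem_bot, Subgroup.mem_bot]
  constructor
  · intro h2
    have : x = (g⁻¹) * (g⁻¹⁻¹ * x * g⁻¹) * g := by group
    rw [this, h2]; group
  · rintro rfl; group

private theorem cj_self {g : Q} {L : Subgroup Q} (hL : L.Normal) : cj g L = L := by
  ext x
  rw [mem_cj]
  constructor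
  · intro h
    have := hL.conj_mem _ h g
    rwa [show g * (g⁻¹ * x * g) * g⁻¹ = x by group] at this
  · intro h
    have := hL.conj_mem _ h g⁻¹
    rwa [inv_inv] at this

private theorem Nz.cj {L H : Subgroup Q} (hL : L.Normal) (h : Nz L H) (g : Q) : Nz L (cj g H) := by
  intro l hl x hx
  rw [mem_cj] at hx ⊢
  have h1 : g⁻¹ * l * g ∈ L := by
    have := hL.conj_mem _ hl g⁻¹
    rwa [inv_inv] at this
  have := h _ h1 _ hx
  rwa [show g⁻¹ * l * g * (g⁻¹ * x * g) * (g⁻¹ * l * g)⁻¹ = g⁻¹ * (l * x * l⁻¹) * g by group] at this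

private theorem cj_congr {L H : Subgroup Q} (h : Nz L H) {g g' : Q} (hg : g⁻¹ * g' ∈ L) :
    cj g H = cj g' H := by
  ext x
  rw [mem_cj, mem_cj]
  constructor
  · intro hx
    have := h _ (L.inv_mem hg) _ hx
    rwa [show (g⁻¹ * g')⁻¹ * (g⁻¹ * x * g) * (g⁻¹ * g')⁻¹⁻¹ = g'⁻¹ * x * g' by group] at this
  · intro hx
    have := h _ hg _ hx
    rwa [show (g⁻¹ * g') * (g'⁻¹ * x * g') * (g⁻¹ * g')⁻¹ = g⁻¹ * x * g by group] at this

private theorem finite_cj {L H : Subgroup Q} (hL : L.FiniteIndex) (h : Nz L H) :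
    (Set.range fun g => cj g H).Finite := by
  have : Finite (Q ⧸ L) := inferInstance
  refine Set.Finite.subset (Set.finite_range fun c : Q ⧸ L => cj c.out H) ?_
  rintro _ ⟨g, rfl⟩
  refine ⟨(g : Q ⧸ L), ?_⟩
  have h1 : ((Quotient.out (g : Q ⧸ L) : Q) : Q ⧸ L) = (g : Q ⧸ L) := QuotientGroup.out_eq' _
  exact cj_congr h (QuotientGroup.eq.1 h1)

private theorem nz_sInf {L : Subgroup Q} {S : Set (Subgroup Q)} (h : ∀ A ∈ S, Nz L A) :
    Nz L (sInf S) := by
  intro l hl x hx
  rw [Subgroup.mem_sInf] at hx ⊢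
  exact fun A hA => h A hA l hl x (hx A hA)

private theorem fg_map {G G' : Type*} [Group G] [Group G'] {P : Subgroup G} (h : P.FG)
    (f : G →* G') : (P.map f).FG := by
  classical
  obtain ⟨S, rfl⟩ := h
  refine ⟨S.image f, ?_⟩
  rw [MonoidHom.map_closure, Finset.coe_image]

/-- two nontrivial subgroups with trivial intersection -/
private theorem exists_disj {L : Subgroup Q} (hQ : Infinite Q) {S : Set (Subgroup Q)}
    (hS : S.Finite) : (∀ A ∈ S, A ≠ ⊥ ∧ A ≤ L ∧ Nz L A) → sInf S = ⊥ →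
    ∃ H₁ H₂ : Subgroup Q, (H₁ ≠ ⊥ ∧ H₁ ≤ L ∧ Nz L H₁) ∧ (H₂ ≠ ⊥ ∧ H₂ ≤ L ∧ Nz L H₂) ∧
      H₁ ⊓ H₂ = ⊥ := by
  induction S, hS using Set.Finite.induction_on with
  | empty =>
    intro _ h
    rw [sInf_empty] at h
    exfalso
    have : Nontrivial Q := inferInstance
    exact top_ne_bot h
  | @insert A S _ _ ih =>
    intro h1 h2
    by_cases h3 : sInf S = ⊥
    · exact ih (fun B hB => h1 B (Set.mem_insert_of_mem _ hB)) h3
    · rcases S.eq_empty_or_nonempty with h4 | ⟨B, hB⟩
      · rw [h4] at h2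
        have h5 := (h1 A (Set.mem_insert _ _)).1
        simp at h2
        exact absurd h2 h5
      · refine ⟨A, sInf S, h1 A (Set.mem_insert _ _), ⟨h3, ?_, ?_⟩, ?_⟩
        · exact (sInf_le hB).trans (h1 B (Set.mem_insert_of_mem _ hB)).2.1
        · exact nz_sInf fun C hC => (h1 C (Set.mem_insert_of_mem _ hC)).2.2
        · rw [← sInf_insert]; exact h2

private theorem fin_of_fin_index {A : Subgroup Q} (h1 : Finite A) (h2 : A.FiniteIndex) :
    Finite Q := by
  have : Finite (Q ⧸ A) := inferInstance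
  exact Finite.of_equiv _ (Subgroup.groupEquivQuotientProdSubgroup (s := A)).symm

private theorem LF.sup {A B : Subgroup Q} (hn : Nz B A) (hA : LF A) (hB : LF B) :
    LF (A ⊔ B) := by
  classical
  intro D hD hfg
  have hnorm : ∀ P : Subgroup Q, P ≤ B → P ≤ Subgroup.normalizer (A : Set Q) := by
    intro P hP x hx
    rw [Subgroup.mem_normalizer_iff]
    intro h
    constructor
    · intro hh; exact hn x (hP hx) h hh
    · intro hh
      have := hn x⁻¹ (B.inv_mem (hP hx)) _ hh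
      rwa [show x⁻¹ * (x * h * x⁻¹) * x⁻¹⁻¹ = h by group] at this
  have hmul : ∀ P : Subgroup Q, P ≤ B → ∀ x ∈ P ⊔ A, ∃ b ∈ P, ∃ a ∈ A, b * a = x := by
    intro P hP x hx
    have h1 := Subgroup.coe_mul_of_left_le_normalizer_right P A (hnorm P hP)
    have h2 : x ∈ ((P ⊔ A : Subgroup Q) : Set Q) := hx
    rw [h1] at h2
    obtain ⟨b, hb, a, ha, h3⟩ := Set.mem_mul.1 h2
    exact ⟨b, hb, a, ha, h3⟩
  obtain ⟨S, hS⟩ := hfg
  have hSD : ∀ x ∈ S, ∃ b ∈ B, ∃ a ∈ A, b * a = x := by
    intro x hx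
    refine hmul B le_rfl x ?_
    rw [sup_comm]
    exact hD (by rw [← hS]; exact Subgroup.subset_closure hx)
  choose! b hb a ha hba using hSD
  set P : Subgroup Q := Subgroup.closure (S.image b : Set Q) with hP
  have hPB : P ≤ B := by
    rw [hP, Subgroup.closure_le]
    intro x hx
    obtain ⟨y, hy, rfl⟩ := Finset.mem_image.1 (Finset.mem_coe.1 hx)
    exact hb y hy
  have hPfin : Finite P := hB P hPB ⟨S.image b, rfl⟩
  have hDP : D ≤ P ⊔ A := by
    rw [← hS, Subgroup.closure_le]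
    intro x hx
    have hx' : x ∈ S := hx
    have h1 : b x ∈ P ⊔ A := Subgroup.mem_sup_left
      (Subgroup.subset_closure (Finset.mem_coe.2 (Finset.mem_image_of_mem b hx')))
    have h2 : a x ∈ P ⊔ A := Subgroup.mem_sup_right (ha x hx')
    have := (P ⊔ A).mul_mem h1 h2
    rwa [hba x hx'] at this
  have hfin : Finite ((P ⊔ A : Subgroup Q) ⧸ A.subgroupOf (P ⊔ A)) := by
    refine Finite.of_surjective
      (fun p : P => ((⟨p.1, Subgroup.mem_sup_left p.2⟩ : (P ⊔ A : Subgroup Q)) :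
        (P ⊔ A : Subgroup Q) ⧸ A.subgroupOf (P ⊔ A))) ?_
    intro c
    obtain ⟨x, rfl⟩ := QuotientGroup.mk_surjective c
    obtain ⟨p, hp, y, hy, hpy⟩ := hmul P hPB x.1 x.2
    refine ⟨⟨p, hp⟩, QuotientGroup.eq.2 ?_⟩
    rw [Subgroup.mem_subgroupOf]
    show p⁻¹ * x.1 ∈ A
    rw [← hpy, inv_mul_cancel_left]
    exact hy
  have hidx : A.relIndex (P ⊔ A) ≠ 0 := by
    unfold Subgroup.relIndex
    exact Subgroup.index_ne_zero_of_finite
  have hidx2 : (A.subgroupOf D).index ≠ 0 := fun h =>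
    hidx (Subgroup.relIndex_eq_zero_of_le_right hDP h)
  have hDfg : Group.FG D := (Group.fg_iff_subgroup_fg D).2 ⟨S, hS⟩
  have h3 : (A.subgroupOf D).FG := by
    have : (A.subgroupOf D).FiniteIndex := ⟨hidx2⟩
    exact (Group.fg_iff_subgroup_fg _).1 inferInstance
  have h4 : ((A.subgroupOf D).map D.subtype).FG := fg_map h3 _
  have h5 : Finite ((A.subgroupOf D).map D.subtype) := by
    refine hA _ ?_ h4
    rintro _ ⟨x, hx, rfl⟩
    exact hx
  have h6 : Finite (A.subgroupOf D) := by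
    refine Finite.of_injective (fun x : A.subgroupOf D =>
      (⟨D.subtype x.1, ⟨x.1, x.2, rfl⟩⟩ : (A.subgroupOf D).map D.subtype)) ?_
    intro x y hxy
    have := congrArg Subtype.val hxy
    exact Subtype.ext (Subtype.ext this)
  exact fin_of_fin_index h6 ⟨hidx2⟩

private theorem LF.sSup {L : Subgroup Q} {S : Set (Subgroup Q)} (hS : S.Finite) :
    (∀ A ∈ S, A ≤ L ∧ Nz L A ∧ LF A) → LF (sSup S) ∧ sSup S ≤ L := by
  induction S, hS using Set.Finite.induction_on with
  | empty =>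
    intro _
    rw [sSup_empty]
    refine ⟨?_, bot_le⟩
    intro P hP _
    rw [le_bot_iff] at hP
    rw [hP]
    infer_instance
  | @insert A S _ _ ih =>
    intro h
    obtain ⟨h1, h2⟩ := ih fun B hB => h B (Set.mem_insert_of_mem _ hB)
    obtain ⟨h3, h4, h5⟩ := h A (Set.mem_insert _ _)
    rw [sSup_insert]
    exact ⟨LF.sup (fun l hl => h4 l (h2 hl)) h5 h1, sup_le h3 h2⟩

/-- a finitely generated torsion just infinite group has no nontrivial element with centralizer
of finite index -/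
private theorem icc (hfg : Group.FG Q) (htor : ∀ g : Q, IsOfFinOrder g) (hJI : JustInf Q) {x : Q}
    (hx : x ≠ 1) {L : Subgroup Q} (hL : L.Normal) (hLf : L.FiniteIndex)
    (hc : ∀ l ∈ L, l * x = x * l) : False := by
  set M : Subgroup Q := Subgroup.normalClosure {x} with hM
  have hxM : x ∈ M := Subgroup.subset_normalClosure rfl
  have hMn : M.Normal := Subgroup.normalClosure_normal
  have hMf : M.FiniteIndex := hJI.2 M hMn fun h => by
    rw [h, Subgroup.mem_bot] at hxM
    exact hx hxM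
  have hcM : ∀ m ∈ M, ∀ l ∈ L, l * m = m * l := by
    intro m hm
    have h1 : M ≤ Subgroup.centralizer (L : Set Q) := by
      rw [hM]
      refine Subgroup.normalClosure_le_normal (N := Subgroup.centralizer (L : Set Q)) ?_
      rintro _ rfl
      rw [SetLike.mem_coe, Subgroup.mem_centralizer_iff]
      intro l hl
      exact hc l hl
    have h2 := h1 hm
    rw [Subgroup.mem_centralizer_iff] at h2
    exact h2
  have hI : (L ⊓ M).FiniteIndex := inferInstance
  have hIfg : Group.FG (L ⊓ M : Subgroup Q) := inferInstance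
  let _ : CommGroup (L ⊓ M : Subgroup Q) :=
    { (inferInstance : Group (L ⊓ M : Subgroup Q)) with
      mul_comm := fun a b => Subtype.ext (hcM b.1 b.2.2 a.1 a.2.1) }
  have ht : IsMulTorsion (L ⊓ M : Subgroup Q) := fun g => by
    have h1 := htor g.1
    exact Submonoid.isOfFinOrder_coe.1 h1
  have h1 : Finite (L ⊓ M : Subgroup Q) := CommGroup.finite_of_fg_isMulTorsion _ ht
  have := fin_of_fin_index h1 hI
  exact hJI.1.not_finite this

/-- a nontrivial subgroup normalized by a normal subgroup of finite index and contained in it is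
not locally finite -/
private theorem not_LF (hfg : Group.FG Q) (hJI : JustInf Q) {L H : Subgroup Q} (hL : L.Normal)
    (hLf : L.FiniteIndex) (hH : H ≠ ⊥) (hHL : H ≤ L) (hn : Nz L H) : ¬ LF H := by
  intro hlf
  set S : Set (Subgroup Q) := Set.range fun g => cj g H with hS
  have hlfc : ∀ g, LF (cj g H) := by
    intro g P hP hPfg
    have h1 : cj g⁻¹ P ≤ H := by
      have := cj_mono (g := g⁻¹) hP
      rwa [cj_cj, inv_mul_cancel, cj_one] at this
    have h2 : (cj g⁻¹ P).FG := by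
      have : cj g⁻¹ P = P.map (MulAut.conj g⁻¹).toMonoidHom := by
        ext y
        rw [mem_cj, Subgroup.mem_map]
        constructor
        · intro hy
          refine ⟨_, hy, ?_⟩
          simp [mul_assoc]
        · rintro ⟨z, hz, rfl⟩
          simpa [mul_assoc] using hz
      rw [this]
      exact fg_map hPfg _
    have h3 := hlf _ h1 h2
    refine Finite.of_injective (fun y : P => (⟨g⁻¹ * y.1 * g, ?_⟩ : (cj g⁻¹ P : Subgroup Q))) ?_
    · rw [mem_cj]
      have : g⁻¹⁻¹ * (g⁻¹ * y.1 * g) * g⁻¹ = y.1 := by group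
      rw [this]; exact y.2
    · intro y z hyz
      have := congrArg Subtype.val hyz
      simp only [mul_left_inj, mul_right_inj] at this
      exact Subtype.ext this
  obtain ⟨h1, -⟩ := LF.sSup (L := L) (finite_cj hLf hn) (by
    rintro _ ⟨g, rfl⟩
    refine ⟨?_, hn.cj hL g, hlfc g⟩
    have := cj_mono (g := g) hHL
    rwa [cj_self hL] at this)
  have hMn : (sSup S).Normal := by
    refine ⟨fun n hn' g => ?_⟩
    have h2 : sSup S ≤ cj g⁻¹ (sSup S) := by
      refine sSup_le ?_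
      rintro _ ⟨b, rfl⟩
      have h3 : cj (g * b) H ≤ sSup S := le_sSup ⟨g * b, rfl⟩
      have h4 := cj_mono (g := g⁻¹) h3
      rwa [cj_cj, inv_mul_cancel_left] at h4
    have h5 := h2 hn'
    rw [mem_cj, inv_inv] at h5
    exact h5
  have hHM : H ≤ sSup S := le_sSup ⟨1, cj_one H⟩
  have hMf : (sSup S).FiniteIndex := hJI.2 _ hMn fun h => hH (by
    rw [h, le_bot_iff] at hHM
    exact hHM)
  have hMfg : (sSup S).FG := (Group.fg_iff_subgroup_fg _).1 inferInstance
  exact hJI.1.not_finite (fin_of_fin_index (h1 _ le_rfl hMfg) hMf)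

end JIaux

/-- P15b. Proof. Let `L` have finite index, `N ⊲ L`, `N ≠ 1` of infinite index in `L`. (1) `N` is infinite:
otherwise the centralizer of `N` in `L` has finite index in `Q`; its core `C` centralizes `N` and all its
conjugates, so the normal closure `M` of `N`, which has finite index; `C ∩ M` is abelian of finite index in
`Q`, f.g. and torsion, so finite, contradiction. (2) Let `L₀` be the normal core of `L` and `N₀ = N ∩ L₀`,
infinite, normalized by `L₀`, of infinite index. Its conjugates `g N₀ g⁻¹` are finitely many, normalized by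
`L₀` and contained in `L₀`; their intersection is normal in `Q` and of infinite index, so `⊥`. Take a maximal
set `I` of conjugates with `H₁ = ⋂ I ≠ ⊥` and a conjugate `H₂` not in `I`: `H₁ ∩ H₂ = ⊥`, both normalized by
`L₀` and contained in it, so they commute. (3) `H ∈ {H₁, H₂}` is not locally finite: otherwise the finitely
many conjugates of `H` are locally finite and normalized by `L₀`; their product is normal in `Q`, of finite
index, and locally finite (lemma: `A`, `B` normalized by each other and locally finite, then `A B` is: a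
f.g. `D ≤ A B` has `D / (D ∩ A)` isomorphic to a subgroup of `B / (A ∩ B)`, so finite; `D ∩ A` is f.g., so
finite); a f.g. locally finite group is finite, so `Q` is finite. -/
theorem exists_commuting {Q : Type*} [Group Q] (hfg : Group.FG Q)
    (htor : ∀ g : Q, IsOfFinOrder g) (hJI : JustInf Q) (hn : ¬ HJI Q) :
    ∃ H₁ H₂ : Subgroup Q, (∀ a ∈ H₁, ∀ b ∈ H₂, a * b = b * a) ∧
      (∃ P : Subgroup Q, P ≤ H₁ ∧ P.FG ∧ Infinite P) ∧
      (∃ P : Subgroup Q, P ≤ H₂ ∧ P.FG ∧ Infinite P) := by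
  have hinf := hJI.1
  unfold HJI at hn
  push Not at hn
  obtain ⟨L, hLf, N, hNn, hN, hNi⟩ := hn
  set Λ : Subgroup Q := L.normalCore with hΛ
  have hΛn : Λ.Normal := Subgroup.normalCore_normal L
  have hΛf : Λ.FiniteIndex := inferInstance
  have hΛL : Λ ≤ L := Subgroup.normalCore_le L
  set N' : Subgroup Q := N.map L.subtype with hN'
  have hN'n : Nz L N' := by
    rintro l hl _ ⟨h, hh, rfl⟩
    exact ⟨⟨l, hl⟩ * h * ⟨l, hl⟩⁻¹, hNn.conj_mem h hh _, rfl⟩
  have hN'b : N' ≠ ⊥ := by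
    intro h
    apply hN
    rw [hN', Subgroup.map_eq_bot_iff, Subgroup.ker_subtype, le_bot_iff] at h
    exact h
  have hN'i : ¬ N'.FiniteIndex := by
    intro h
    apply hNi
    have h1 : (N'.subgroupOf L).FiniteIndex := inferInstance
    have h2 : N'.subgroupOf L = N := by
      rw [hN']
      exact Subgroup.comap_map_eq_self_of_injective L.subtype_injective N
    rwa [h2] at h1
  set N₀ : Subgroup Q := N' ⊓ Λ with hN₀
  have hN₀n : Nz Λ N₀ := by
    intro l hl h hh
    exact ⟨hN'n l (hΛL hl) h hh.1, hΛn.conj_mem h hh.2 l⟩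
  have hN₀b : N₀ ≠ ⊥ := by
    intro h
    obtain ⟨x, hx, hx1⟩ : ∃ x ∈ N', x ≠ 1 := by
      by_contra hc
      push Not at hc
      exact hN'b ((Subgroup.eq_bot_iff_forall N').2 hc)
    refine icc hfg htor hJI hx1 hΛn hΛf fun l hl => ?_
    have h1 : l * x * l⁻¹ * x⁻¹ ∈ N₀ := by
      refine ⟨N'.mul_mem (hN'n l (hΛL hl) x hx) (N'.inv_mem hx), ?_⟩
      have h2 := Λ.mul_mem hl (hΛn.conj_mem _ (Λ.inv_mem hl) x)
      rwa [show l * (x * l⁻¹ * x⁻¹) = l * x * l⁻¹ * x⁻¹ by group] at h2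
    rw [h, Subgroup.mem_bot] at h1
    have : l * x = l * x * l⁻¹ * x⁻¹ * (x * l) := by group
    rw [this, h1, one_mul]
  set S : Set (Subgroup Q) := Set.range fun g => cj g N₀ with hS
  have hSb : sInf S = ⊥ := by
    by_contra hne
    have hSn : (sInf S).Normal := by
      refine ⟨fun n hn' g => ?_⟩
      rw [Subgroup.mem_sInf] at hn' ⊢
      rintro _ ⟨b, rfl⟩
      have h1 := hn' (cj (g⁻¹ * b) N₀) ⟨g⁻¹ * b, rfl⟩
      rw [mem_cj] at h1 ⊢
      rwa [show (g⁻¹ * b)⁻¹ * n * (g⁻¹ * b) = b⁻¹ * (g * n * g⁻¹) * b by group] at h1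
    have hSf := hJI.2 _ hSn hne
    apply hN'i
    have h1 : sInf S ≤ N' := by
      have h2 : N₀ ∈ S := ⟨1, cj_one N₀⟩
      exact (sInf_le h2).trans inf_le_left
    exact Subgroup.finiteIndex_of_le h1
  obtain ⟨H₁, H₂, ⟨a1, a2, a3⟩, ⟨b1, b2, b3⟩, hd⟩ := exists_disj (L := Λ) hinf
    (finite_cj hΛf hN₀n) (by
      rintro _ ⟨g, rfl⟩
      refine ⟨cj_ne hN₀b, ?_, hN₀n.cj hΛn g⟩
      have := cj_mono (g := g) (inf_le_right : N₀ ≤ Λ)
      rwa [cj_self hΛn] at this) hSb
  have key : ∀ H : Subgroup Q, ¬ LF H → ∃ P : Subgroup Q, P ≤ H ∧ P.FG ∧ Infinite P := by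
    intro H hH
    unfold LF at hH
    push Not at hH
    obtain ⟨P, h1, h2, h3⟩ := hH
    exact ⟨P, h1, h2, h3⟩
  refine ⟨H₁, H₂, fun a ha b hb => ?_, key H₁ (not_LF hfg hJI hΛn hΛf a1 a2 a3),
    key H₂ (not_LF hfg hJI hΛn hΛf b1 b2 b3)⟩
  have h1 : a * b * a⁻¹ * b⁻¹ ∈ H₁ ⊓ H₂ := by
    constructor
    · have h2 := a3 b (b2 hb) _ (H₁.inv_mem ha)
      have h3 := H₁.mul_mem ha h2
      rwa [show a * (b * a⁻¹ * b⁻¹) = a * b * a⁻¹ * b⁻¹ by group] at h3
    · exact H₂.mul_mem (b3 a (a2 ha) b hb) (H₂.inv_mem hb)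
  rw [hd, Subgroup.mem_bot] at h1
  have : a * b = a * b * a⁻¹ * b⁻¹ * (b * a) := by group
  rw [this, h1, one_mul]

end MP331e4fBw
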