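import Pool.Agent.Lib_MP_331e4f_al.PGroup

/-!
# P15a: just infinite quotients
-/

namespace MP331e4fBw

open MP331e4f (aug AugRad)

/-- infinite, and every nontrivial normal subgroup has finite index -/
def JustInf (Q : Type*) [Group Q] : Prop :=
  Infinite Q ∧ ∀ N : Subgroup Q, N.Normal → N ≠ ⊥ → N.FiniteIndex

/-- every nontrivial normal subgroup of every subgroup of finite index has finite index -/
def HJI (Q : Type*) [Group Q] : Prop :=
  ∀ L : Subgroup Q, L.FiniteIndex → ∀ N : Subgroup L, N.Normal → N ≠ ⊥ → N.FiniteIndex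

/-- residually finite -/
def ResFin (Q : Type*) [Group Q] : Prop :=
  ∀ g : Q, g ≠ 1 → ∃ N : Subgroup Q, N.Normal ∧ N.FiniteIndex ∧ g ∉ N

private lemma finset_mem_of_chain {P : Type*} [Group P] {c : Set (Subgroup P)}
    (hc : IsChain (· ≤ ·) c) {y : Subgroup P} (hy : y ∈ c) (T : Finset P)
    (hT : ∀ t ∈ T, ∃ N ∈ c, t ∈ N) : ∃ N ∈ c, ∀ t ∈ T, t ∈ N := by
  classical
  induction T using Finset.induction_on with
  | empty => exact ⟨y, hy, by simp⟩
  | insert a T _ ih =>
    obtain ⟨N, hN, hNT⟩ := ih fun t ht => hT t (Finset.mem_insert_of_mem ht)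
    obtain ⟨M, hM, haM⟩ := hT a (Finset.mem_insert_self a T)
    rcases hc.total hN hM with h | h
    · refine ⟨M, hM, fun t ht => ?_⟩
      rcases Finset.mem_insert.1 ht with rfl | ht
      · exact haM
      · exact h (hNT t ht)
    · refine ⟨N, hN, fun t ht => ?_⟩
      rcases Finset.mem_insert.1 ht with rfl | ht
      · exact h haM
      · exact hNT t ht

/-- P15a1. Zorn: the union of a chain of normal subgroups of infinite index of a finitely generated
group has infinite index, since subgroups of finite index are finitely generated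
(`Subgroup.fg_of_index_ne_zero`). -/
theorem exists_justInf (P : Type*) [Group P] (hfg : Group.FG P) [Infinite P] :
    ∃ (N : Subgroup P) (_ : N.Normal), JustInf (P ⧸ N) := by
  obtain ⟨N, -, hN⟩ := zorn_le_nonempty₀ {N : Subgroup P | N.Normal ∧ N.index = 0} (by
    intro c hcs hc y hy
    have hdir : DirectedOn (· ≤ ·) c := hc.directedOn
    have hmem : ∀ x, x ∈ sSup c ↔ ∃ s ∈ c, x ∈ s := fun x =>
      Subgroup.mem_sSup_of_directedOn ⟨y, hy⟩ hdir
    refine ⟨sSup c, ⟨?_, ?_⟩, fun z hz => le_sSup hz⟩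
    · refine ⟨fun n hn g => ?_⟩
      obtain ⟨s, hs, hns⟩ := (hmem n).1 hn
      exact (hmem _).2 ⟨s, hs, (hcs hs).1.conj_mem n hns g⟩
    · by_contra h0
      have hfi : (sSup c).FiniteIndex := ⟨h0⟩
      have hUfg : (sSup c).FG :=
        (Group.fg_iff_subgroup_fg _).1 (Subgroup.fg_of_index_ne_zero (sSup c))
      obtain ⟨T, hT⟩ := hUfg
      obtain ⟨N, hN, hTN⟩ := finset_mem_of_chain hc hy T fun t ht =>
        (hmem t).1 (hT ▸ Subgroup.subset_closure ht)
      have hle : sSup c ≤ N := by
        rw [← hT, Subgroup.closure_le]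
        exact fun t ht => hTN t ht
      have h1 : N.index ∣ (sSup c).index := Subgroup.index_dvd_of_le hle
      rw [(hcs hN).2, zero_dvd_iff] at h1
      exact h0 h1) ⊥ ⟨inferInstance, by
        rw [Subgroup.index_bot, Nat.card_eq_zero]
        exact Or.inr inferInstance⟩
  have hNn : N.Normal := hN.prop.1
  refine ⟨N, hNn, ?_, ?_⟩
  · have h1 : Nat.card (P ⧸ N) = 0 := hN.prop.2
    rw [Nat.card_eq_zero] at h1
    rcases h1 with h1 | h1
    · exact (h1.false (QuotientGroup.mk (s := N) (1 : P))).elim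
    · exact h1
  · intro M hM hMne
    by_contra hcon
    have hMi : M.index = 0 := by
      by_contra h0
      exact hcon ⟨h0⟩
    have h2 : (M.comap (QuotientGroup.mk' N)).index = 0 := by
      rw [Subgroup.index_comap_of_surjective _ (QuotientGroup.mk'_surjective N)]
      exact hMi
    have h3 : N ≤ M.comap (QuotientGroup.mk' N) := by
      intro x hx
      rw [Subgroup.mem_comap, QuotientGroup.mk'_apply, (QuotientGroup.eq_one_iff x).2 hx]
      exact M.one_mem
    have h4 := hN.le_of_ge (y := M.comap (QuotientGroup.mk' N)) ⟨hM.comap _, h2⟩ h3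
    apply hMne
    rw [Subgroup.eq_bot_iff_forall]
    intro x hx
    obtain ⟨x, rfl⟩ := QuotientGroup.mk'_surjective N x
    exact (QuotientGroup.eq_one_iff x).2 (h4 hx)

/-- P15a2. Let `R` be the intersection of all normal subgroups of finite index. If `R ≠ ⊥` it has finite
index, so it is finitely generated, and it satisfies `AugRad` (`AugRad.restrict`), so it has a proper
(normal) subgroup `M` of index `p` (`AugRad.exists_normal'` or `AugRad.exists_index_pow` in
`Lib_MP_331e4f_al/PGroup.lean`, `Lib_MP_331e4f_al/Nak.lean`); the normal core of `M` in `Q` has finite index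
and is properly contained in `R`, contradiction. -/
theorem resFin_of_augRad {K : Type*} [Field K] {Q : Type*} [Group Q] (h : AugRad K Q)
    (hfg : Group.FG Q) (hJI : JustInf Q) : ResFin Q := by
  obtain ⟨hinf, hji⟩ := hJI
  intro g hg
  by_contra hcon
  push Not at hcon
  set R : Subgroup Q := ⨅ N : {N : Subgroup Q // N.Normal ∧ N.FiniteIndex}, (N : Subgroup Q)
    with hR
  have hRmem : ∀ x, x ∈ R ↔ ∀ N : Subgroup Q, N.Normal → N.FiniteIndex → x ∈ N := by
    intro x
    rw [hR, Subgroup.mem_iInf]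
    exact ⟨fun h N h1 h2 => h ⟨N, h1, h2⟩, fun h N => h N.1 N.2.1 N.2.2⟩
  have hRn : R.Normal := by
    refine ⟨fun n hn a => ?_⟩
    rw [hRmem] at hn ⊢
    exact fun N h1 h2 => h1.conj_mem n (hn N h1 h2) a
  have hRne : R ≠ ⊥ := by
    intro h0
    apply hg
    have : g ∈ R := (hRmem g).2 fun N h1 h2 => hcon N h1 h2
    rw [h0] at this
    exact this
  have hRfi : R.FiniteIndex := hji R hRn hRne
  have hRfg : R.FG := (Group.fg_iff_subgroup_fg _).1 (Subgroup.fg_of_index_ne_zero R)
  have hnt : Nontrivial Q := inferInstance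
  obtain ⟨p, hp, hchar, -⟩ := h.exists_prime
  obtain ⟨N, -, hNR, -, hN⟩ := h.exists_normal' hp hRfg (bot_lt_iff_ne_bot.2 hRne)
  have hNi : N.index ≠ 0 := by
    rw [← Subgroup.relIndex_mul_index hNR, hN]
    exact mul_ne_zero hp.ne_zero hRfi.index_ne_zero
  have hNfi : N.FiniteIndex := ⟨hNi⟩
  have h1 : R ≤ N := by
    intro x hx
    exact Subgroup.normalCore_le N ((hRmem x).1 hx _ inferInstance inferInstance)
  have h2 : N.relIndex R = 1 := Subgroup.relIndex_eq_one.2 h1
  rw [hN] at h2
  exact hp.one_lt.ne' h2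

end MP331e4fBw
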