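import Pool.Agent.Lib_MP_331e4f_bw.Defs
import Pool.Agent.Lib_MP_331e4f_al.Alg

/-!
# Thin groups: all square matrices over the augmentation ideal are nilpotent
-/

namespace MP331e4fBw

open MP331e4f (aug AugRad)

/-- all square matrices over the augmentation ideal of `F_p[H]` are nilpotent -/
def Thin (p : ℕ) [Fact p.Prime] (H : Type*) [Group H] : Prop :=
  ∀ (d : ℕ) (T : Matrix (Fin d) (Fin d) (MonoidAlgebra (ZMod p) H)),
    (∀ i j, aug (ZMod p) H (T i j) = 0) → IsNilpotent T

end MP331e4fBw
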