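import Pool.Agent.Lib_MP_331e4f_bw.Cut
import Pool.Agent.Lib_MP_331e4f_bw.Gen
import Pool.Agent.Lib_MP_331e4f_bw.Thin

/-!
# P6: Loewy layers of modules over thin groups
-/

open Module

namespace MP331e4fBw

open MP331e4f (aug)

universe u

/-! ## The submodules `ω^n V` -/

section loewy

variable {k : Type*} [Field k] {P V : Type*} [Group P] [AddCommGroup V] [Module k V]
  (ρ : Representation k P V)

private theorem loewy_stable (n : ℕ) (g : P) : ∀ v ∈ loewy ρ n, ρ g v ∈ loewy ρ n := by
  induction n with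
  | zero => intro v _; simp [loewy]
  | succ n ih =>
    intro v hv
    have hle : loewy ρ (n + 1) ≤ (loewy ρ (n + 1)).comap (ρ g) := by
      conv_lhs => rw [loewy]
      refine iSup_le fun h => ?_
      rintro _ ⟨w, hw, rfl⟩
      rw [Submodule.mem_comap]
      have e : ρ g ((ρ h - 1) w) = (ρ (g * h * g⁻¹) - 1) (ρ g w) := by
        simp only [LinearMap.sub_apply, Module.End.one_apply, map_sub]
        rw [← Module.End.mul_apply, ← map_mul, ← Module.End.mul_apply, ← map_mul]
        congr 3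
        group
      rw [e, loewy]
      exact Submodule.mem_iSup_of_mem _ ⟨_, ih w hw, rfl⟩
    exact hle hv

private theorem loewy_maps (n : ℕ) (g : P) : ∀ v ∈ loewy ρ n, (ρ g - 1) v ∈ loewy ρ (n + 1) := by
  intro v hv
  rw [loewy]
  exact Submodule.mem_iSup_of_mem g ⟨v, hv, rfl⟩

private theorem loewy_succ_le (n : ℕ) : loewy ρ (n + 1) ≤ loewy ρ n := by
  conv_lhs => rw [loewy]
  refine iSup_le fun h => ?_
  rintro _ ⟨w, hw, rfl⟩
  exact sub_mem (loewy_stable ρ n h w hw) hw

private theorem loewy_gen {S : Set P} (hS : Subgroup.closure S = ⊤) (n : ℕ)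
    (W : Submodule k V) (hW : ∀ s ∈ S, ∀ v ∈ loewy ρ n, (ρ s - 1) v ∈ W) :
    loewy ρ (n + 1) ≤ W := by
  conv_lhs => rw [loewy]
  refine iSup_le fun g => ?_
  rintro _ ⟨w, hw, rfl⟩
  have key : ∀ v ∈ loewy ρ n, (ρ g - 1) v ∈ W := by
    have hg : g ∈ Subgroup.closure S := by rw [hS]; trivial
    induction hg using Subgroup.closure_induction with
    | mem x hx => exact hW x hx
    | one => intro v _; simp
    | mul x y _ _ hx hy =>
      intro v hv
      have e : (ρ (x * y) - 1) v = (ρ x - 1) (ρ y v) + (ρ y - 1) v := by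
        simp only [LinearMap.sub_apply, Module.End.one_apply, map_mul, Module.End.mul_apply]
        abel
      rw [e]
      exact add_mem (hx _ (loewy_stable ρ n y v hv)) (hy v hv)
    | inv x _ hx =>
      intro v hv
      have e : (ρ x⁻¹ - 1) v = -((ρ x - 1) (ρ x⁻¹ v)) := by
        simp only [LinearMap.sub_apply, Module.End.one_apply]
        rw [← Module.End.mul_apply, ← map_mul, mul_inv_cancel, map_one, Module.End.one_apply]
        abel
      rw [e]
      exact neg_mem (hx _ (loewy_stable ρ n x⁻¹ v hv))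
  exact key w hw

/-! ## The graded module -/

/-- the layers -/
private def Lay (n : ℕ) : Type _ :=
  ↥(loewy ρ n) ⧸ (loewy ρ (n + 1)).comap (loewy ρ n).subtype

private instance (n : ℕ) : AddCommGroup (Lay ρ n) :=
  inferInstanceAs (AddCommGroup (↥(loewy ρ n) ⧸ (loewy ρ (n + 1)).comap (loewy ρ n).subtype))

private instance (n : ℕ) : Module k (Lay ρ n) :=
  inferInstanceAs (Module k (↥(loewy ρ n) ⧸ (loewy ρ (n + 1)).comap (loewy ρ n).subtype))

/-- the class of an element -/
private def lmk (n : ℕ) : ↥(loewy ρ n) →ₗ[k] Lay ρ n :=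
  Submodule.mkQ ((loewy ρ (n + 1)).comap (loewy ρ n).subtype)

private theorem lmk_surj (n : ℕ) : Function.Surjective (lmk ρ n) :=
  Submodule.mkQ_surjective _

private theorem lmk_eq_zero (n : ℕ) (v : ↥(loewy ρ n)) :
    lmk ρ n v = 0 ↔ (v : V) ∈ loewy ρ (n + 1) :=
  Submodule.Quotient.mk_eq_zero ((loewy ρ (n + 1)).comap (loewy ρ n).subtype)

/-- `g - 1` on the layers -/
private noncomputable def shl (g : P) (n : ℕ) : Lay ρ n →ₗ[k] Lay ρ (n + 1) :=
  Submodule.mapQ ((loewy ρ (n + 1)).comap (loewy ρ n).subtype)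
    ((loewy ρ (n + 1 + 1)).comap (loewy ρ (n + 1)).subtype)
    ((ρ g - 1).restrict (loewy_maps ρ n g)) (by
      rintro ⟨v, hv⟩ hv'
      exact loewy_maps ρ (n + 1) g v hv')

private theorem shl_mk (g : P) (n : ℕ) (v : V) (hv : v ∈ loewy ρ n) :
    shl ρ g n (lmk ρ n ⟨v, hv⟩) = lmk ρ (n + 1) ⟨(ρ g - 1) v, loewy_maps ρ n g v hv⟩ := rfl

/-- the components of the operators -/
private noncomputable def ttc (g : P) : ∀ n, (∀ i, Lay ρ i) →ₗ[k] Lay ρ n
  | 0 => 0
  | n + 1 => shl ρ g n ∘ₗ LinearMap.proj n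

/-- the operator given by `g - 1` -/
private noncomputable def tt (g : P) : (∀ i, Lay ρ i) →ₗ[k] (∀ i, Lay ρ i) :=
  LinearMap.pi (ttc ρ g)

private theorem tt_zero (g : P) (f : ∀ i, Lay ρ i) : tt ρ g f 0 = 0 := rfl

private theorem tt_succ (g : P) (f : ∀ i, Lay ρ i) (n : ℕ) :
    tt ρ g f (n + 1) = shl ρ g n (f n) := rfl

/-! ## Matrices over the group algebra -/

variable {S : Type*} [Fintype S] (σ : S → P)

/-- the matrix `∑ B_s (s - 1)` over the group algebra -/
private noncomputable def tmat {d : ℕ} (B : S → Matrix (Fin d) (Fin d) k) :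
    Matrix (Fin d) (Fin d) (MonoidAlgebra k P) :=
  Matrix.of fun i j => ∑ s, B s i j • (MonoidAlgebra.of k P (σ s) - 1)

/-- matrices over the group algebra act on `V^d` -/
private noncomputable def mact {d : ℕ} (X : Matrix (Fin d) (Fin d) (MonoidAlgebra k P)) :
    (Fin d → V) →ₗ[k] (Fin d → V) :=
  LinearMap.pi fun i => ∑ j, (ρ.asAlgebraHom (X i j)) ∘ₗ LinearMap.proj j

private theorem mact_apply {d : ℕ} (X : Matrix (Fin d) (Fin d) (MonoidAlgebra k P))
    (v : Fin d → V) (i : Fin d) : mact ρ X v i = ∑ j, ρ.asAlgebraHom (X i j) (v j) := by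
  simp [mact]

private theorem mact_mul {d : ℕ} (X Y : Matrix (Fin d) (Fin d) (MonoidAlgebra k P)) :
    mact ρ (X * Y) = mact ρ X * mact ρ Y := by
  refine LinearMap.ext fun v => funext fun i => ?_
  rw [Module.End.mul_apply]
  simp only [mact_apply, Matrix.mul_apply, map_sum, map_mul, LinearMap.sum_apply,
    Module.End.mul_apply]
  rw [Finset.sum_comm]

private theorem mact_one {d : ℕ} :
    mact ρ (1 : Matrix (Fin d) (Fin d) (MonoidAlgebra k P)) = 1 := by
  refine LinearMap.ext fun v => funext fun i => ?_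
  rw [mact_apply, Finset.sum_eq_single i]
  · simp
  · intro j _ hj
    rw [Matrix.one_apply_ne (Ne.symm hj)]
    simp
  · simp

private theorem mact_pow {d : ℕ} (X : Matrix (Fin d) (Fin d) (MonoidAlgebra k P)) (n : ℕ) :
    mact ρ (X ^ n) = mact ρ X ^ n := by
  induction n with
  | zero => simp [mact_one]
  | succ n ih => rw [pow_succ, pow_succ, mact_mul, ih]

private theorem mact_tmat {d : ℕ} (B : S → Matrix (Fin d) (Fin d) k) (v : Fin d → V)
    (i : Fin d) :
    mact ρ (tmat σ B) v i = ∑ s, ∑ j, B s i j • (ρ (σ s) - 1) (v j) := by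
  rw [mact_apply, Finset.sum_comm]
  refine Finset.sum_congr rfl fun j _ => ?_
  simp only [tmat, Matrix.of_apply, map_sum, map_smul, map_sub, map_one, LinearMap.sum_apply,
    LinearMap.smul_apply, MonoidAlgebra.of_apply, Representation.asAlgebraHom_single_one]

/-! ## The powers of the operators on the graded module -/

private theorem gr_pow {d : ℕ} (B : S → Matrix (Fin d) (Fin d) k) (x : Fin d → ∀ i, Lay ρ i)
    (i : ℕ) (v : Fin d → V) (hv : ∀ j, v j ∈ loewy ρ i)
    (hx : ∀ j, x j i = lmk ρ i ⟨v j, hv j⟩) (n : ℕ) :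
    ∃ hv' : ∀ j, ((mact ρ (tmat σ B)) ^ n) v j ∈ loewy ρ (i + n),
      ∀ j, ((blow B fun s => tt ρ (σ s)) ^ n) x j (i + n) =
        lmk ρ (i + n) ⟨((mact ρ (tmat σ B)) ^ n) v j, hv' j⟩ := by
  induction n with
  | zero => exact ⟨hv, hx⟩
  | succ n ih =>
    obtain ⟨h1, h2⟩ := ih
    set w := ((mact ρ (tmat σ B)) ^ n) v with hw
    set y := ((blow B fun s => tt ρ (σ s)) ^ n) x with hy
    have e1 : ((mact ρ (tmat σ B)) ^ (n + 1)) v = mact ρ (tmat σ B) w := by
      rw [pow_succ', Module.End.mul_apply]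
    have e2 : ((blow B fun s => tt ρ (σ s)) ^ (n + 1)) x =
        (blow B fun s => tt ρ (σ s)) y := by
      rw [pow_succ', Module.End.mul_apply]
    have h3 : ∀ j, mact ρ (tmat σ B) w j ∈ loewy ρ (i + n + 1) := by
      intro j
      rw [mact_tmat]
      exact Submodule.sum_mem _ fun s _ => Submodule.sum_mem _ fun l _ =>
        Submodule.smul_mem _ _ (loewy_maps ρ (i + n) _ _ (h1 l))
    have e3 : ∀ j, ((mact ρ (tmat σ B)) ^ (n + 1)) v j ∈ loewy ρ (i + (n + 1)) := by
      intro j
      rw [e1]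
      exact h3 j
    refine ⟨e3, fun j => ?_⟩
    have e4 : lmk ρ (i + (n + 1)) ⟨((mact ρ (tmat σ B)) ^ (n + 1)) v j, e3 j⟩ =
        lmk ρ (i + (n + 1)) ⟨mact ρ (tmat σ B) w j, h3 j⟩ := by
      congr 2
      rw [e1]
    rw [e4, e2]
    change (blow B fun s => tt ρ (σ s)) y j (i + n + 1) = _
    rw [blow_apply]
    simp only [Finset.sum_apply, Pi.smul_apply, tt_succ, h2, shl_mk]
    have e5 : (⟨mact ρ (tmat σ B) w j, h3 j⟩ : ↥(loewy ρ (i + n + 1))) =
        ∑ s, ∑ l, B s j l • ⟨(ρ (σ s) - 1) (w l), loewy_maps ρ (i + n) (σ s) (w l) (h1 l)⟩ := by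
      apply Subtype.ext
      change mact ρ (tmat σ B) w j = _
      rw [mact_tmat]
      simp
    change _ = lmk ρ (i + n + 1) ⟨mact ρ (tmat σ B) w j, h3 j⟩
    rw [e5]
    simp only [map_sum, map_smul]
    rfl

private theorem gr_low {d : ℕ} (B : S → Matrix (Fin d) (Fin d) k) (x : Fin d → ∀ i, Lay ρ i)
    (n : ℕ) : ∀ i < n, ∀ j, ((blow B fun s => tt ρ (σ s)) ^ n) x j i = 0 := by
  induction n with
  | zero => intro i hi; omega
  | succ n ih =>
    intro i hi j
    rw [pow_succ', Module.End.mul_apply, blow_apply]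
    simp only [Finset.sum_apply, Pi.smul_apply]
    cases i with
    | zero => simp [tt_zero]
    | succ i =>
      have h := ih i (by omega)
      simp only [tt_succ, h, map_zero, smul_zero, Finset.sum_const_zero]

private theorem gr_nil {d : ℕ} (B : S → Matrix (Fin d) (Fin d) k) (n : ℕ)
    (h : tmat σ B ^ n = 0) : (blow B fun s => tt ρ (σ s)) ^ n = 0 := by
  refine LinearMap.ext fun x => funext fun j => funext fun i => ?_
  change ((blow B fun s => tt ρ (σ s)) ^ n) x j i = 0
  rcases lt_or_ge i n with hi | hi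
  · exact gr_low ρ σ B x n i hi j
  · obtain ⟨i, rfl⟩ : ∃ i', i = i' + n := ⟨i - n, by omega⟩
    have h1 : ∀ j, ∃ v : ↥(loewy ρ i), lmk ρ i v = x j i := fun j => lmk_surj ρ i _
    choose v hv using h1
    obtain ⟨h2, h3⟩ := gr_pow ρ σ B x i (fun j => (v j : V)) (fun j => (v j).2)
      (fun j => (hv j).symm) n
    rw [h3 j, lmk_eq_zero]
    have e : ((mact ρ (tmat σ B)) ^ n) (fun j => (v j : V)) j = 0 := by
      rw [← mact_pow, h]
      simp [mact_apply]
    simp only [e]
    exact Submodule.zero_mem _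

end loewy

/-! ## The inverse of the blow-up -/

section sys

variable {k : Type*} [Field k] {P : Type*} [Group P] {S : Type*} [Fintype S] (σ : S → P)

/-- systems of operators satisfying the relations of the operators `s - 1` -/
private def Sys {M : Type*} [AddCommGroup M] [Module k M] (t : Option S → M →ₗ[k] M) : Prop :=
  t none = LinearMap.id ∧ ∀ (d n : ℕ) (B : S → Matrix (Fin d) (Fin d) k), tmat σ B ^ n = 0 →
    (blow B fun s => t (some s)) ^ n = 0

/-- scalar matrices act on `M^d` -/
private def sact (M : Type*) [AddCommGroup M] [Module k M] {d : ℕ}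
    (X : Matrix (Fin d) (Fin d) k) : (Fin d → M) →ₗ[k] (Fin d → M) :=
  LinearMap.pi fun i => ∑ j, X i j • LinearMap.proj j

private theorem sact_apply {M : Type*} [AddCommGroup M] [Module k M] {d : ℕ}
    (X : Matrix (Fin d) (Fin d) k) (x : Fin d → M) (i : Fin d) :
    sact M X x i = ∑ j, X i j • x j := by
  simp [sact]

private theorem sact_sact {M : Type*} [AddCommGroup M] [Module k M] {d : ℕ}
    (X Y : Matrix (Fin d) (Fin d) k) (x : Fin d → M) :
    sact M X (sact M Y x) = sact M (X * Y) x := by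
  funext i
  simp only [sact_apply, Matrix.mul_apply, Finset.smul_sum, Finset.sum_smul, smul_smul]
  rw [Finset.sum_comm]

private theorem sact_one {M : Type*} [AddCommGroup M] [Module k M] {d : ℕ} (x : Fin d → M) :
    sact M (1 : Matrix (Fin d) (Fin d) k) x = x := by
  funext i
  rw [sact_apply, Finset.sum_eq_single i]
  · simp
  · intro j _ hj
    rw [Matrix.one_apply_ne (Ne.symm hj), zero_smul]
  · simp

private theorem blow_split {M : Type*} [AddCommGroup M] [Module k M] {d : ℕ}
    (A : Option S → Matrix (Fin d) (Fin d) k) (I : Matrix (Fin d) (Fin d) k)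
    (hI : A none * I = 1) (t : Option S → M →ₗ[k] M) (ht : t none = LinearMap.id)
    (x : Fin d → M) :
    blow A t x = sact M (A none)
      (x - (blow (fun s => -(I * A (some s))) fun s => t (some s)) x) := by
  rw [map_sub]
  funext i
  rw [blow_apply, Fintype.sum_option, ht, Pi.sub_apply, sact_apply, sub_eq_add_neg]
  congr 1
  rw [sact_apply, ← Finset.sum_neg_distrib]
  have e : ∀ s : S, A (some s) = A none * (I * A (some s)) := by
    intro s
    rw [← mul_assoc, hI, one_mul]
  have h1 : ∀ s : S, ∑ j, A (some s) i j • t (some s) (x j) =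
      ∑ j, ∑ l, (A none i l * (I * A (some s)) l j) • t (some s) (x j) := by
    intro s
    conv_lhs => rw [e s]
    simp only [Matrix.mul_apply (M := A none), Finset.sum_smul]
  simp only [h1]
  have h2 : ∀ l, -(A none i l • (blow (fun s => -(I * A (some s))) fun s => t (some s)) x l) =
      ∑ s, ∑ j, (A none i l * (I * A (some s)) l j) • t (some s) (x j) := by
    intro l
    rw [blow_apply, Finset.smul_sum, ← Finset.sum_neg_distrib]
    refine Finset.sum_congr rfl fun s _ => ?_
    rw [Finset.smul_sum, ← Finset.sum_neg_distrib]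
    refine Finset.sum_congr rfl fun j _ => ?_
    rw [Matrix.neg_apply, neg_smul, smul_neg, neg_neg, smul_smul]
  simp only [h2]
  symm
  rw [Finset.sum_comm]
  exact Finset.sum_congr rfl fun s _ => Finset.sum_comm

private theorem hinv_aux {M : Type*} [AddCommGroup M] [Module k M] {d n : ℕ}
    (A : Option S → Matrix (Fin d) (Fin d) k) (I : Matrix (Fin d) (Fin d) k)
    (hI : A none * I = 1) (t : Option S → M →ₗ[k] M) (ht : t none = LinearMap.id)
    (hT : (blow (fun s => -(I * A (some s))) fun s => t (some s)) ^ n = 0) :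
    ∃ Y : (Fin d → M) →ₗ[k] (Fin d → M), (∀ x, blow A t (Y x) = x) ∧
      ∀ (N : ℕ) (F : ℕ → Submodule k M), (∀ i < N, F i ≤ F (i + 1)) →
        (∀ i < N, ∀ s, (F i).map (t s) ≤ F (i + 1)) → ∀ i, i + n ≤ N →
        ∀ x : Fin d → M, (∀ j, x j ∈ F i) → ∀ j, Y x j ∈ F (i + n) := by
  set T := blow (fun s => -(I * A (some s))) fun s => t (some s) with hTdef
  refine ⟨(∑ m ∈ Finset.range n, T ^ m) * sact M I, fun x => ?_, ?_⟩
  · rw [blow_split A I hI t ht, ← hTdef]
    set y := ((∑ m ∈ Finset.range n, T ^ m) * sact M I) x with hy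
    have e1 : y - T y = sact M I x := by
      have h1 : (1 - T) * (∑ m ∈ Finset.range n, T ^ m) = 1 - T ^ n := mul_neg_geom_sum T n
      rw [hT, sub_zero] at h1
      have h2 := LinearMap.congr_fun h1 (sact M I x)
      rw [Module.End.mul_apply, LinearMap.sub_apply, Module.End.one_apply,
        Module.End.one_apply] at h2
      rw [hy, Module.End.mul_apply]
      exact h2
    rw [e1, sact_sact, hI, sact_one]
  · intro N F hmono hmap i hi x hx j
    have hstep : ∀ m, m ≤ n → ∀ y : Fin d → M, (∀ j, y j ∈ F i) →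
        ∀ j, (T ^ m) y j ∈ F (i + m) := by
      intro m
      induction m with
      | zero => intro _ y hy j; exact hy j
      | succ m ih =>
        intro hm y hy j
        have h1 := ih (by omega) y hy
        rw [pow_succ', Module.End.mul_apply, hTdef, blow_apply]
        refine Submodule.sum_mem _ fun s _ => Submodule.sum_mem _ fun l _ =>
          Submodule.smul_mem _ _ ?_
        exact hmap (i + m) (by omega) (some s) ⟨_, h1 l, rfl⟩
    have hmono' : ∀ m, m ≤ n → F (i + (n - m)) ≤ F (i + n) := by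
      intro m
      induction m with
      | zero => intro _; exact le_rfl
      | succ m ih =>
        intro hm
        refine le_trans ?_ (ih (by omega))
        have h1 := hmono (i + (n - (m + 1))) (by omega)
        have h2 : i + (n - (m + 1)) + 1 = i + (n - m) := by omega
        rwa [h2] at h1
    have hI' : ∀ j, sact M I x j ∈ F i := by
      intro j
      rw [sact_apply]
      exact Submodule.sum_mem _ fun l _ => Submodule.smul_mem _ _ (hx l)
    rw [Module.End.mul_apply, LinearMap.sum_apply, Finset.sum_apply]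
    refine Submodule.sum_mem _ fun m hm => ?_
    have hm' : m < n := Finset.mem_range.1 hm
    have h1 := hstep m hm'.le _ hI' j
    have h2 := hmono' (n - m) (by omega)
    have h3 : i + (n - (n - m)) = i + m := by omega
    rw [h3] at h2
    exact h2 h1

end sys

/-! ## The filtration of the graded module -/

section fil

variable {k : Type*} [Field k] {P V : Type*} [Group P] [AddCommGroup V] [Module k V]
  (ρ : Representation k P V)

/-- families supported in `[a, a + j]` -/
private def FF (a j : ℕ) : Submodule k (∀ i, Lay ρ i) where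
  carrier := {f | ∀ i, (i < a ∨ a + j < i) → f i = 0}
  add_mem' := by
    intro f g hf hg i hi
    rw [Pi.add_apply, hf i hi, hg i hi, add_zero]
  zero_mem' := by
    intro i _
    rfl
  smul_mem' := by
    intro c f hf i hi
    rw [Pi.smul_apply, hf i hi, smul_zero]

private theorem FF_mono (a j : ℕ) : FF ρ a j ≤ FF ρ a (j + 1) := by
  intro f hf i hi
  exact hf i (by omega)

private theorem FF_fin (a j : ℕ) (h : ∀ i, a ≤ i → i ≤ a + j → Module.Finite k (Lay ρ i)) :
    Module.Finite k (FF ρ a j) := by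
  have h' : ∀ i : Fin (j + 1), Module.Finite k (Lay ρ (a + i)) := fun i =>
    h (a + i) (by omega) (by omega)
  let ev : FF ρ a j →ₗ[k] (∀ i : Fin (j + 1), Lay ρ (a + i)) :=
    (LinearMap.pi fun i : Fin (j + 1) => LinearMap.proj (a + (i : ℕ))) ∘ₗ (FF ρ a j).subtype
  have hev : Function.Injective ev := by
    rw [← LinearMap.ker_eq_bot, LinearMap.ker_eq_bot']
    rintro ⟨f, hf⟩ h0
    apply Subtype.ext
    funext i
    change f i = 0
    by_cases hi : i < a ∨ a + j < i
    · exact hf i hi
    · have h1 := congrFun h0 ⟨i - a, by omega⟩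
      obtain ⟨i', rfl⟩ : ∃ i', i = a + i' := ⟨i - a, by omega⟩
      have h2 : ∀ m (hm : m < j + 1), ev ⟨f, hf⟩ ⟨m, hm⟩ = f (a + m) := fun m hm => rfl
      have h3 := congrFun h0 ⟨i', by omega⟩
      rw [h2] at h3
      exact h3
  exact Module.Finite.of_injective ev hev

private theorem FF_inc (a j C : ℕ) (h : ∀ i, a ≤ i → i ≤ a + (j + 1) → Module.Finite k (Lay ρ i))
    (hC : finrank k (Lay ρ (a + (j + 1))) ≤ C) :
    finrank k (FF ρ a (j + 1)) ≤ finrank k (FF ρ a j) + C := by
  haveI := FF_fin ρ a (j + 1) h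
  haveI := FF_fin ρ a j fun i h1 h2 => h i h1 (by omega)
  haveI := h (a + (j + 1)) (by omega) le_rfl
  let ev : FF ρ a (j + 1) →ₗ[k] Lay ρ (a + (j + 1)) :=
    (LinearMap.proj (a + (j + 1))) ∘ₗ (FF ρ a (j + 1)).subtype
  have h1 := LinearMap.finrank_range_add_finrank_ker ev
  have h2 : finrank k (LinearMap.range ev) ≤ C := le_trans (Submodule.finrank_le _) hC
  have h3 : finrank k (LinearMap.ker ev) ≤ finrank k (FF ρ a j) := by
    let g : LinearMap.ker ev →ₗ[k] FF ρ a j :=
      LinearMap.codRestrict (FF ρ a j) ((FF ρ a (j + 1)).subtype ∘ₗ (LinearMap.ker ev).subtype) (by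
        rintro ⟨⟨f, hf⟩, h0⟩ i hi
        change f i = 0
        rcases hi with hi | hi
        · exact hf i (Or.inl hi)
        · by_cases hi' : a + (j + 1) < i
          · exact hf i (Or.inr hi')
          · have : i = a + (j + 1) := by omega
            subst this
            exact h0)
    refine LinearMap.finrank_le_finrank_of_injective (f := g) ?_
    intro x y hxy
    have := congrArg Subtype.val hxy
    exact Subtype.ext (Subtype.ext this)
  omega

private theorem FF_map (a j : ℕ) (g : P) : (FF ρ a j).map (tt ρ g) ≤ FF ρ a (j + 1) := by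
  rintro _ ⟨f, hf, rfl⟩ i hi
  cases i with
  | zero => exact tt_zero ρ g f
  | succ i =>
    rw [tt_succ, hf i (by omega), map_zero]

private theorem tt_single (g : P) (n : ℕ) (v : V) (hv : v ∈ loewy ρ n) :
    tt ρ g (Pi.single n (lmk ρ n ⟨v, hv⟩)) =
      Pi.single (n + 1) (lmk ρ (n + 1) ⟨(ρ g - 1) v, loewy_maps ρ n g v hv⟩) := by
  funext i
  cases i with
  | zero => rw [tt_zero, Pi.single_eq_of_ne (by omega)]
  | succ i =>
    rw [tt_succ]
    by_cases h : i = n
    · subst h
      rw [Pi.single_eq_same, Pi.single_eq_same, shl_mk]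
    · rw [Pi.single_eq_of_ne h, Pi.single_eq_of_ne (by omega), map_zero]

private theorem single_mem {S : Set P} (hS : Subgroup.closure S = ⊤) (a : ℕ)
    (U : Submodule k (∀ i, Lay ρ i)) (h0 : FF ρ a 0 ≤ U)
    (hU : ∀ s ∈ S, U.map (tt ρ s) ≤ U) (j : ℕ) :
    ∀ v : ↥(loewy ρ (a + j)), (Pi.single (a + j) (lmk ρ (a + j) v) : ∀ i, Lay ρ i) ∈ U := by
  induction j with
  | zero =>
    intro v
    refine h0 fun i hi => ?_
    exact Pi.single_eq_of_ne (by omega) _
  | succ j ih =>
    rintro ⟨v, hv⟩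
    let W : Submodule k V := (U.comap ((LinearMap.single k (Lay ρ) (a + (j + 1))) ∘ₗ
      lmk ρ (a + (j + 1)))).map (loewy ρ (a + (j + 1))).subtype
    have h1 : v ∈ W := by
      refine loewy_gen ρ hS (a + j) W (fun s hs w hw => ?_) hv
      refine ⟨⟨(ρ s - 1) w, loewy_maps ρ (a + j) s w hw⟩, ?_, rfl⟩
      have h2 := hU s hs ⟨_, ih ⟨w, hw⟩, rfl⟩
      rw [tt_single] at h2
      exact h2
    obtain ⟨⟨w, hw⟩, h2, h3⟩ := h1
    have h4 : w = v := h3
    subst h4
    exact h2

end fil

/-- P6. -/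
theorem thin_loewy {p : ℕ} [Fact p.Prime] {P : Type*} [Group P] (hP : Thin p P)
    (hfg : Group.FG P) (C : ℕ) :
    ∃ N : ℕ, ∀ (V : Type u) [AddCommGroup V] [Module (ZMod p) V]
      (ρ : Representation (ZMod p) P V) (a : ℕ),
      (∀ i, a ≤ i → i ≤ a + N →
        Module.rank (ZMod p) (↥(loewy ρ i) ⧸ (loewy ρ (i + 1)).comap (loewy ρ i).subtype) ≤
          (C : Cardinal)) →
      ∃ n ≤ a + N, loewy ρ n = loewy ρ (n + 1) := by
  classical
  obtain ⟨S, hS⟩ := Group.fg_def.1 hfg
  let σ : ↥S → P := Subtype.val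
  have hinv : ∀ (d : ℕ) (A : Option ↥S → Matrix (Fin d) (Fin d) (ZMod p)),
      (∀ β : Option ↥S → ZMod p, β ≠ 0 → IsUnit (∑ s, β s • A s)) →
      ∃ n : ℕ, ∀ (M : Type u) [AddCommGroup M] [Module (ZMod p) M]
        (t : Option ↥S → M →ₗ[ZMod p] M), Sys σ t →
        ∃ Y : (Fin d → M) →ₗ[ZMod p] (Fin d → M), (∀ x, blow A t (Y x) = x) ∧
          ∀ (N : ℕ) (F : ℕ → Submodule (ZMod p) M), (∀ i < N, F i ≤ F (i + 1)) →
            (∀ i < N, ∀ s, (F i).map (t s) ≤ F (i + 1)) → ∀ i, i + n ≤ N →
            ∀ x : Fin d → M, (∀ j, x j ∈ F i) → ∀ j, Y x j ∈ F (i + n) := by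
    intro d A hA
    have hu : IsUnit (A none) := by
      have h1 := hA (Pi.single none 1) (by
        intro h
        have h2 := congrFun h none
        rw [Pi.single_eq_same] at h2
        exact one_ne_zero h2)
      rw [Finset.sum_eq_single none] at h1
      · rwa [Pi.single_eq_same, one_smul] at h1
      · intro s _ hs
        rw [Pi.single_eq_of_ne hs, zero_smul]
      · intro h
        exact absurd (Finset.mem_univ _) h
    obtain ⟨u, hu⟩ := hu
    have hI : A none * (↑u⁻¹ : Matrix (Fin d) (Fin d) (ZMod p)) = 1 := by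
      rw [← hu]
      exact u.mul_inv
    obtain ⟨n, hn⟩ := hP d
      (tmat σ (fun s => -((↑u⁻¹ : Matrix (Fin d) (Fin d) (ZMod p)) * A (some s)))) (by
        intro i j
        simp only [tmat, Matrix.of_apply, map_sum, map_smul, map_sub, map_one]
        simp [aug])
    exact ⟨n, fun M _ _ t ht => hinv_aux A _ hI t ht.1 (ht.2 d n _ hn)⟩
  obtain ⟨N, hN⟩ := cut_theorem.{u} (k := ZMod p) (S := Option ↥S)
    (fun D => exists_good p _ D) none (fun M _ _ t => Sys σ t) (fun M _ _ t ht => ht.1) hinv C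
  refine ⟨N + 1, fun V _ _ ρ a h => ⟨a + (N + 1), le_rfl, ?_⟩⟩
  have hfin : ∀ i, a ≤ i → i ≤ a + (N + 1) → Module.Finite (ZMod p) (Lay ρ i) := by
    intro i h1 h2
    rw [← Module.rank_lt_aleph0_iff]
    exact lt_of_le_of_lt (h i h1 h2) (Cardinal.natCast_lt_aleph0)
  have hle : ∀ i, a ≤ i → i ≤ a + (N + 1) → finrank (ZMod p) (Lay ρ i) ≤ C := by
    intro i h1 h2
    exact Module.finrank_le_of_rank_le (h i h1 h2)
  obtain ⟨U, hU1, hU2, hU3⟩ := hN (∀ i, Lay ρ i)
    (fun s => s.elim LinearMap.id fun s => tt ρ (σ s))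
    ⟨rfl, fun d n B hB => gr_nil ρ σ B n hB⟩ (FF ρ a)
    { fin := fun i hi => FF_fin ρ a i fun i' h1 h2 => hfin i' h1 (by omega)
      mono := fun i _ => FF_mono ρ a i
      map := by
        intro i _ s
        cases s with
        | none =>
          change (FF ρ a i).map LinearMap.id ≤ _
          rw [Submodule.map_id]
          exact FF_mono ρ a i
        | some s => exact FF_map ρ a i (σ s)
      inc := fun i hi => FF_inc ρ a i C (fun i' h1 h2 => hfin i' h1 (by omega))
        (hle _ (by omega) (by omega)) }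
  refine le_antisymm (fun v hv => ?_) (loewy_succ_le ρ _)
  have h1 := single_mem ρ hS a U hU1 (fun s hs => hU3 (some ⟨s, hs⟩)) (N + 1) ⟨v, hv⟩
  have h2 := hU2 h1 (a + (N + 1)) (by omega)
  rw [Pi.single_eq_same, lmk_eq_zero] at h2
  exact h2

end MP331e4fBw
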