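import Pool.Agent.Lib_MP_331e4f_bw.Pair1
import Pool.Agent.Lib_MP_331e4f_al.Known
import Pool.Agent.Lib_MP_331e4f_am.Central

/-!
# P8: of two commuting subgroups one is thin
-/

namespace MP331e4fBw

open MP331e4f (aug AugRad)

/-- A matrix with entries in the left ideal generated by finitely many central nilpotent elements is
nilpotent. -/
private theorem nilp_of_central {R : Type*} [Ring R] {d : ℕ} (s : Finset R)
    (hc : ∀ c ∈ s, ∀ r : R, c * r = r * c) (hn : ∀ c ∈ s, IsNilpotent c)
    (A : Matrix (Fin d) (Fin d) R) (hA : ∀ i j, A i j ∈ Ideal.span (s : Set R)) :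
    IsNilpotent A := by
  classical
  induction s using Finset.induction_on generalizing A with
  | empty =>
    refine ⟨1, ?_⟩
    rw [pow_one]
    refine Matrix.ext fun i j => ?_
    have := hA i j
    rw [Finset.coe_empty, Ideal.span_empty] at this
    simpa using this
  | insert c s _ ih =>
    have h1 : ∀ i j, ∃ a, ∃ z ∈ Ideal.span (s : Set R), A i j = a * c + z := by
      intro i j
      have := hA i j
      rw [Finset.coe_insert, Ideal.mem_span_insert] at this
      obtain ⟨a, z, hz, h⟩ := this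
      exact ⟨a, z, hz, h⟩
    choose B A' hA' hAB using h1
    obtain ⟨k, hk⟩ := ih (fun c hc' => hc c (Finset.mem_insert_of_mem hc'))
      (fun c hc' => hn c (Finset.mem_insert_of_mem hc')) (Matrix.of A') hA'
    have hcc : ∀ X : Matrix (Fin d) (Fin d) R, Matrix.scalar (Fin d) c * X =
        X * Matrix.scalar (Fin d) c := by
      intro X
      refine Matrix.ext fun i j => ?_
      simp [Matrix.scalar_apply, Matrix.diagonal_mul, Matrix.mul_diagonal,
        hc c (Finset.mem_insert_self _ _)]
    have hA1 : A = Matrix.scalar (Fin d) c * Matrix.of B + Matrix.of A' := by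
      refine Matrix.ext fun i j => ?_
      simp [Matrix.scalar_apply, Matrix.diagonal_mul, hAB,
        hc c (Finset.mem_insert_self _ _)]
    have h2 : ∀ n : ℕ, ∃ X, A ^ n = Matrix.scalar (Fin d) c * X + (Matrix.of A') ^ n := by
      intro n
      induction n with
      | zero => exact ⟨0, by simp⟩
      | succ n ih =>
        obtain ⟨X, hX⟩ := ih
        refine ⟨X * A + (Matrix.of A') ^ n * Matrix.of B, ?_⟩
        calc A ^ (n + 1) = (Matrix.scalar (Fin d) c * X + Matrix.of A' ^ n) * A := by
              rw [pow_succ, hX]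
          _ = Matrix.scalar (Fin d) c * X * A + Matrix.of A' ^ n * A := add_mul _ _ _
          _ = Matrix.scalar (Fin d) c * X * A +
              Matrix.of A' ^ n * (Matrix.scalar (Fin d) c * Matrix.of B + Matrix.of A') :=
            congrArg (fun Y => Matrix.scalar (Fin d) c * X * A + Matrix.of A' ^ n * Y) hA1
          _ = Matrix.scalar (Fin d) c * (X * A + Matrix.of A' ^ n * Matrix.of B) +
              Matrix.of A' ^ (n + 1) := by
            rw [mul_add (Matrix.of A' ^ n), ← mul_assoc, ← hcc, pow_succ, mul_assoc, mul_assoc,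
              mul_add, add_assoc]
    obtain ⟨X, hX⟩ := h2 k
    rw [hk, add_zero] at hX
    obtain ⟨m, hm⟩ := hn c (Finset.mem_insert_self _ _)
    refine ⟨k * m, ?_⟩
    rw [pow_mul, hX, (show Commute (Matrix.scalar (Fin d) c) X from hcc X).mul_pow, ← map_pow, hm,
      map_zero, zero_mul]

open Classical in
private theorem mem_span_of_map {k H Q : Type*} [Field k] [Group H] [Group Q] (π : H →* Q)
    (hπ : Function.Surjective π) (x : MonoidAlgebra k H)
    (hx : MonoidAlgebra.mapDomainRingHom k π x = 0) :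
    ∃ Z : Finset H, (∀ z ∈ Z, π z = 1) ∧
      x ∈ Ideal.span ((fun z => MonoidAlgebra.of k H z - 1) '' (Z : Set H)) := by
  obtain ⟨σ, hσ⟩ : ∃ σ : Q → H, ∀ q, π (σ q) = q := ⟨_, Function.surjInv_eq hπ⟩
  have key : ∀ y : MonoidAlgebra k H, ∃ Z : Finset H, (∀ z ∈ Z, π z = 1) ∧
      y - MonoidAlgebra.mapDomain (fun h => σ (π h)) y ∈
        Ideal.span ((fun z => MonoidAlgebra.of k H z - 1) '' (Z : Set H)) := by
    intro y
    induction y using MonoidAlgebra.induction_linear with
    | zero => exact ⟨∅, by simp, by simp [MonoidAlgebra.mapDomain_zero]⟩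
    | add a b ha hb =>
      obtain ⟨Za, ha1, ha2⟩ := ha
      obtain ⟨Zb, hb1, hb2⟩ := hb
      refine ⟨Za ∪ Zb, fun z hz => ?_, ?_⟩
      · rcases Finset.mem_union.1 hz with h | h
        · exact ha1 z h
        · exact hb1 z h
      · rw [MonoidAlgebra.mapDomain_add, add_sub_add_comm]
        refine Ideal.add_mem _ (Ideal.span_mono ?_ ha2) (Ideal.span_mono ?_ hb2)
        · exact Set.image_mono (by exact_mod_cast Finset.subset_union_left)
        · exact Set.image_mono (by exact_mod_cast Finset.subset_union_right)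
    | single g r =>
      refine ⟨{(σ (π g))⁻¹ * g}, ?_, ?_⟩
      · intro z hz
        rw [Finset.mem_singleton.1 hz, map_mul, map_inv, hσ, inv_mul_cancel]
      · rw [MonoidAlgebra.mapDomain_single]
        have : MonoidAlgebra.single g r - MonoidAlgebra.single (σ (π g)) r =
            MonoidAlgebra.single (σ (π g)) r *
              (MonoidAlgebra.of k H ((σ (π g))⁻¹ * g) - 1) := by
          rw [mul_sub, mul_one, MonoidAlgebra.of_apply, MonoidAlgebra.single_mul_single, mul_one,
            mul_inv_cancel_left]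
        rw [this]
        exact Ideal.mul_mem_left _ _ (Ideal.subset_span (by simp))
  obtain ⟨Z, h1, h2⟩ := key x
  refine ⟨Z, h1, ?_⟩
  have h3 : MonoidAlgebra.mapDomain (fun h => σ (π h)) x = 0 := by
    have : ∀ y : MonoidAlgebra k H, MonoidAlgebra.mapDomain (fun h => σ (π h)) y =
        MonoidAlgebra.mapDomain σ (MonoidAlgebra.mapDomain π y) := by
      intro y
      induction y using MonoidAlgebra.induction_linear with
      | zero => simp only [MonoidAlgebra.mapDomain_zero]
      | add a b ha hb => simp only [MonoidAlgebra.mapDomain_add, ha, hb]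
      | single g r => simp only [MonoidAlgebra.mapDomain_single]
    rw [this]
    have h4 : MonoidAlgebra.mapDomain π x = 0 := hx
    rw [h4, MonoidAlgebra.mapDomain_zero]
  rwa [h3, sub_zero] at h2

/-- P8b. Thinness passes from the quotient by a central subgroup which is a `p`-group. -/
theorem thin_of_central' {p : ℕ} [Fact p.Prime] {H Q : Type*} [Group H] [Group Q] (π : H →* Q)
    (hπ : Function.Surjective π) (hcen : ∀ z : H, π z = 1 → ∀ h : H, z * h = h * z)
    (hZp : ∀ z : H, π z = 1 → ∃ n : ℕ, z ^ p ^ n = 1) (h : Thin p Q) : Thin p H := by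
  classical
  intro d T hT
  let φ : MonoidAlgebra (ZMod p) H →+* MonoidAlgebra (ZMod p) Q :=
    MonoidAlgebra.mapDomainRingHom (ZMod p) π
  obtain ⟨n, hn⟩ := h d (φ.mapMatrix T) (by
    intro i j
    change aug (ZMod p) Q (MonoidAlgebra.mapDomainRingHom (ZMod p) π (T i j)) = 0
    rw [MP331e4f.aug_mapDomain]
    exact hT i j)
  have h1 : ∀ i j, ∃ Z : Finset H, (∀ z ∈ Z, π z = 1) ∧ (T ^ n) i j ∈
      Ideal.span ((fun z => MonoidAlgebra.of (ZMod p) H z - 1) '' (Z : Set H)) := by
    intro i j
    refine mem_span_of_map π hπ _ ?_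
    rw [← map_pow] at hn
    have h1 := congrFun (congrFun hn i) j
    change φ ((T ^ n) i j) = 0 at h1
    exact h1
  choose Z hZ1 hZ2 using h1
  let Z' : Finset H := Finset.univ.biUnion fun ij : Fin d × Fin d => Z ij.1 ij.2
  have hZ' : ∀ z ∈ Z', π z = 1 := by
    intro z hz
    obtain ⟨ij, -, h2⟩ := Finset.mem_biUnion.1 hz
    exact hZ1 _ _ z h2
  have h2 : IsNilpotent (T ^ n) := by
    refine nilp_of_central (Z'.image fun z => MonoidAlgebra.of (ZMod p) H z - 1) ?_ ?_ _ ?_
    · intro c hc r
      obtain ⟨z, hz, rfl⟩ := Finset.mem_image.1 hc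
      have hz1 := hcen z (hZ' z hz)
      induction r using MonoidAlgebra.induction_linear with
      | zero => rw [mul_zero, zero_mul]
      | add a b ha hb => rw [mul_add, add_mul, ha, hb]
      | single g r =>
        rw [sub_mul, mul_sub, one_mul, mul_one, MonoidAlgebra.of_apply,
          MonoidAlgebra.single_mul_single, MonoidAlgebra.single_mul_single, one_mul, mul_one,
          hz1 g]
    · intro c hc
      obtain ⟨z, hz, rfl⟩ := Finset.mem_image.1 hc
      obtain ⟨m, hm⟩ := hZp z (hZ' z hz)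
      refine ⟨p ^ m, ?_⟩
      have : CharP (MonoidAlgebra (ZMod p) H) p :=
        charP_of_injective_algebraMap (algebraMap (ZMod p) (MonoidAlgebra (ZMod p) H)).injective p
      rw [sub_pow_char_pow_of_commute _ _ (Commute.one_right _), one_pow, ← map_pow, hm, map_one,
        sub_self]
    · intro i j
      refine Ideal.span_mono ?_ (hZ2 i j)
      have : Z i j ⊆ Z' := Finset.subset_biUnion_of_mem (fun ij : Fin d × Fin d => Z ij.1 ij.2)
        (Finset.mem_univ (i, j))
      rw [Finset.coe_image]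
      exact Set.image_mono (by exact_mod_cast this)
  obtain ⟨m, hm⟩ := h2
  exact ⟨n * m, by rw [pow_mul, hm]⟩

/-- P8b. Thinness passes from the quotient by a central subgroup `Z` which is a `p`-group. -/
theorem thin_of_central {p : ℕ} [Fact p.Prime] {H : Type*} [Group H] (Z : Subgroup H) [Z.Normal]
    (hZ : Z ≤ Subgroup.center H) (hZp : ∀ z ∈ Z, ∃ n : ℕ, z ^ p ^ n = 1)
    (h : Thin p (H ⧸ Z)) : Thin p H := by
  refine thin_of_central' (QuotientGroup.mk' Z) (QuotientGroup.mk'_surjective Z) ?_ ?_ h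
  · intro z hz g
    rw [QuotientGroup.mk'_apply, QuotientGroup.eq_one_iff] at hz
    exact (Subgroup.mem_center_iff.1 (hZ hz) g).symm
  · intro z hz
    rw [QuotientGroup.mk'_apply, QuotientGroup.eq_one_iff] at hz
    exact hZp z hz

/-- Of two commuting subgroups one is thin. -/
theorem thin_of_commute {p : ℕ} [Fact p.Prime] {G : Type*} [Group G]
    (haug : AugRad (ZMod p) G) (H H' : Subgroup G) (hc : ∀ a ∈ H, ∀ b ∈ H', a * b = b * a) :
    Thin p H ∨ Thin p H' := by
  obtain ⟨f, hf⟩ : ∃ f : H × H' →* G, ∀ a b, f (a, b) = (a : G) * (b : G) :=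
    ⟨MonoidHom.noncommCoprod H.subtype H'.subtype (fun a b => hc a a.2 b b.2), fun _ _ => rfl⟩
  have hn1 : (H'.subgroupOf H).Normal := by
    refine ⟨fun n hn g => ?_⟩
    rw [Subgroup.mem_subgroupOf] at hn ⊢
    have h1 : ((g * n * g⁻¹ : H) : G) = n := by
      push_cast
      rw [hc g g.2 n hn, mul_assoc, mul_inv_cancel, mul_one]
    rw [h1]; exact hn
  have hn2 : (H.subgroupOf H').Normal := by
    refine ⟨fun n hn g => ?_⟩
    rw [Subgroup.mem_subgroupOf] at hn ⊢
    have h1 : ((g * n * g⁻¹ : H') : G) = n := by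
      push_cast
      rw [← hc n hn g g.2, mul_assoc, mul_inv_cancel, mul_one]
    rw [h1]; exact hn
  obtain ⟨π, hπ⟩ : ∃ π : H × H' →* (H ⧸ H'.subgroupOf H) × (H' ⧸ H.subgroupOf H'),
    ∀ a b, π (a, b) = (QuotientGroup.mk' _ a, QuotientGroup.mk' _ b) :=
    ⟨MonoidHom.prodMap (QuotientGroup.mk' _) (QuotientGroup.mk' _), fun _ _ => rfl⟩
  have hπs : Function.Surjective π := by
    rintro ⟨x, y⟩
    obtain ⟨a, rfl⟩ := QuotientGroup.mk'_surjective _ x
    obtain ⟨b, rfl⟩ := QuotientGroup.mk'_surjective _ y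
    exact ⟨(a, b), hπ a b⟩
  have hker : f.rangeRestrict.ker ≤ π.ker := by
    rintro ⟨a, b⟩ hab
    rw [MonoidHom.mem_ker] at hab ⊢
    have h1 : (a : G) * (b : G) = 1 := by
      rw [← hf]
      exact congrArg Subtype.val hab
    have ha : (a : G) ∈ H' := by
      rw [eq_inv_of_mul_eq_one_left h1]; exact H'.inv_mem b.2
    have hb : (b : G) ∈ H := by
      rw [eq_inv_of_mul_eq_one_right h1]; exact H.inv_mem a.2
    rw [hπ, Prod.mk_eq_one]
    constructor
    · rw [QuotientGroup.mk'_apply, QuotientGroup.eq_one_iff, Subgroup.mem_subgroupOf]; exact ha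
    · rw [QuotientGroup.mk'_apply, QuotientGroup.eq_one_iff, Subgroup.mem_subgroupOf]; exact hb
  obtain ⟨ρ, hρ⟩ : ∃ ρ : f.range →* (H ⧸ H'.subgroupOf H) × (H' ⧸ H.subgroupOf H'),
      ∀ x, ρ (f.rangeRestrict x) = π x :=
    ⟨f.rangeRestrict.liftOfSurjective f.rangeRestrict_surjective ⟨π, hker⟩, fun x =>
      MonoidHom.liftOfRightInverse_comp_apply _ _ _ _ x⟩
  have hρs : Function.Surjective ρ := by
    intro y
    obtain ⟨x, rfl⟩ := hπs y
    exact ⟨_, hρ x⟩
  have h1 : AugRad (ZMod p) ((H ⧸ H'.subgroupOf H) × (H' ⧸ H.subgroupOf H')) :=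
    MP331e4fAm.augRad_of_surjective (haug.restrict f.range) ρ hρs
  have hpG : ∀ x : G, ∃ n : ℕ, x ^ p ^ n = 1 := by
    intro x
    rcases subsingleton_or_nontrivial G with h0 | h0
    · exact ⟨0, Subsingleton.elim _ _⟩
    · obtain ⟨q, hq, hchar, hqG⟩ := haug.exists_prime
      have : q = p := CharP.eq (ZMod p) hchar (ZMod.charP p)
      subst this
      exact hqG x
  rcases thin_or_thin h1 with h2 | h2
  · left
    refine thin_of_central' (QuotientGroup.mk' (H'.subgroupOf H)) (QuotientGroup.mk'_surjective _)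
      ?_ ?_ h2
    · intro z hz h
      rw [QuotientGroup.mk'_apply, QuotientGroup.eq_one_iff, Subgroup.mem_subgroupOf] at hz
      exact Subtype.ext (hc h h.2 z hz).symm
    · intro z _
      obtain ⟨n, hn⟩ := hpG z
      exact ⟨n, Subtype.ext hn⟩
  · right
    refine thin_of_central' (QuotientGroup.mk' (H.subgroupOf H')) (QuotientGroup.mk'_surjective _)
      ?_ ?_ h2
    · intro z hz h
      rw [QuotientGroup.mk'_apply, QuotientGroup.eq_one_iff, Subgroup.mem_subgroupOf] at hz
      exact Subtype.ext (hc z hz h h.2)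
    · intro z _
      obtain ⟨n, hn⟩ := hpG z
      exact ⟨n, Subtype.ext hn⟩

/-- P8c. -/
theorem thin_or_thin_centralizer {p : ℕ} [Fact p.Prime] {Q : Type*} [Group Q]
    (h : AugRad (ZMod p) Q) (H : Subgroup Q) :
    Thin p H ∨ Thin p (Subgroup.centralizer (H : Set Q)) :=
  thin_of_commute h H _ fun a ha _ hb => (Subgroup.mem_centralizer_iff.1 hb) a ha

end MP331e4fBw
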