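import Pool.Agent.Lib_MP_331e4f_bw.Thin
import Pool.Agent.Lib_MP_331e4f_am.Central

/-!
# P8a: of two direct factors one is thin
-/

open Finset

namespace MP331e4fBw

open MP331e4f (aug AugRad)
open MP331e4fAm (act coeff_mul_eq_sum slice slice_coeff slice_zero slice_add slice_sum slice_one
  slice_mul i1 i2 aug_i1 tl augRad_of_surjective)

section rank

variable {k Q A I : Type*} [Field k] [Group Q] [AddCommGroup A] [Module k A] [Fintype I]

/-- the vector over `k[Q]` of the values of a functional -/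
noncomputable def wv (z : I → Q → A) (hfin : ∀ i, {q | z i q ≠ 0}.Finite) (φ : A →ₗ[k] k)
    (i : I) : MonoidAlgebra k Q :=
  MonoidAlgebra.ofCoeff (Finsupp.ofSupportFinite (fun q => φ (z i q)) ((hfin i).subset (by
    intro q hq hz0
    apply hq
    simp [hz0])))

omit [Group Q] [Fintype I] in
theorem wv_coeff (z : I → Q → A) (hfin : ∀ i, {q | z i q ≠ 0}.Finite) (φ : A →ₗ[k] k)
    (i : I) (q : Q) : (wv z hfin φ i).coeff q = φ (z i q) := rfl

theorem wv_eq [DecidableEq I] [DecidableEq Q] (Φ : Matrix I I (MonoidAlgebra k Q)) (i₀ : I)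
    (z : I → Q → A) (hfin : ∀ i, {q | z i q ≠ 0}.Finite) (a₀ : A) (T : A →ₗ[k] A)
    (hz : ∀ i q, z i q = (if i = i₀ ∧ q = 1 then a₀ else 0) + T (act Φ z i q))
    (φ : A →ₗ[k] k) :
    wv z hfin φ = φ a₀ • (Pi.single i₀ 1 : I → MonoidAlgebra k Q) +
      Φ.mulVec (wv z hfin (φ ∘ₗ T)) := by
  funext i
  apply MonoidAlgebra.ext
  ext q
  have h1 : (Φ.mulVec (wv z hfin (φ ∘ₗ T)) i).coeff q = φ (T (act Φ z i q)) := by
    simp only [Matrix.mulVec, dotProduct, act]
    rw [MonoidAlgebra.coeff_sum, Finsupp.finsetSum_apply, map_sum, map_sum]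
    refine Finset.sum_congr rfl fun j _ => ?_
    rw [coeff_mul_eq_sum, Finsupp.sum, Finsupp.sum, map_sum, map_sum]
    refine Finset.sum_congr rfl fun g _ => ?_
    rw [wv_coeff, map_smul, map_smul, smul_eq_mul]
    rfl
  rw [wv_coeff, Pi.add_apply, MonoidAlgebra.coeff_add, Finsupp.add_apply, h1, hz i q, map_add]
  have h2 : act Φ (fun i q => (if i = i₀ ∧ q = 1 then a₀ else 0) + T (act Φ z i q)) i q =
      act Φ z i q := by
    congr 1
    funext i q
    exact (hz i q).symm
  congr 1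
  by_cases hi : i = i₀
  · subst hi
    by_cases hq : q = 1
    · subst hq
      simp [MonoidAlgebra.one_def]
    · simp [hq, MonoidAlgebra.one_def, Finsupp.single_apply, Ne.symm hq]
  · simp [hi]

theorem exists_invariant [DecidableEq I] [DecidableEq Q] (Φ : Matrix I I (MonoidAlgebra k Q)) (i₀ : I)
    (hΦ : ∀ (n : ℕ) (x : I → MonoidAlgebra k Q),
      (Φ ^ n).mulVec (Pi.single i₀ 1) ≠ (Φ ^ (n + 1)).mulVec x)
    (z : I → Q → A) (hfin : ∀ i, {q | z i q ≠ 0}.Finite) (a₀ : A) (T : A →ₗ[k] A)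
    (hz : ∀ i q, z i q = (if i = i₀ ∧ q = 1 then a₀ else 0) + T (act Φ z i q)) :
    ∃ V : Submodule k A, V.FG ∧ a₀ ∈ V ∧ ∀ v ∈ V, T v ∈ V := by
  have key : ∀ φ : A →ₗ[k] k, (∃ n : ℕ, (Φ ^ n).mulVec (wv z hfin φ) = 0) →
      φ a₀ = 0 ∧ ∃ n : ℕ, (Φ ^ n).mulVec (wv z hfin (φ ∘ₗ T)) = 0 := by
    rintro φ ⟨n, hn⟩
    rw [wv_eq Φ i₀ z hfin a₀ T hz φ, Matrix.mulVec_add, Matrix.mulVec_smul, Matrix.mulVec_mulVec,
      ← pow_succ] at hn
    have h0 : φ a₀ = 0 := by
      by_contra hne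
      apply hΦ n (-(φ a₀)⁻¹ • wv z hfin (φ ∘ₗ T))
      rw [Matrix.mulVec_smul]
      have h1 : φ a₀ • (Φ ^ n).mulVec (Pi.single i₀ 1) =
          -(Φ ^ (n + 1)).mulVec (wv z hfin (φ ∘ₗ T)) := eq_neg_of_add_eq_zero_left hn
      have h2 := congrArg (fun v => (φ a₀)⁻¹ • v) h1
      simp only [smul_smul, inv_mul_cancel₀ hne, one_smul] at h2
      rw [h2, neg_smul, smul_neg]
    refine ⟨h0, n + 1, ?_⟩
    rw [h0, zero_smul, zero_add] at hn
    exact hn
  let V : Submodule k A :=
    { carrier := {a | ∀ φ : A →ₗ[k] k, (∃ n : ℕ, (Φ ^ n).mulVec (wv z hfin φ) = 0) → φ a = 0}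
      add_mem' := by
        intro a b ha hb φ hφ
        rw [map_add, ha φ hφ, hb φ hφ, add_zero]
      zero_mem' := fun φ _ => map_zero φ
      smul_mem' := by
        intro c a ha φ hφ
        rw [map_smul, ha φ hφ, smul_zero] }
  have hV : ∀ a, a ∈ V ↔ ∀ φ : A →ₗ[k] k, (∃ n : ℕ, (Φ ^ n).mulVec (wv z hfin φ) = 0) →
    φ a = 0 := fun a => Iff.rfl
  refine ⟨V, ?_, (hV _).2 fun φ hφ => (key φ hφ).1, fun v hv => (hV _).2 fun φ hφ =>
    (hV v).1 hv (φ ∘ₗ T) (key φ hφ).2⟩
  obtain ⟨V0, hV0⟩ : ∃ V0 : Submodule k A,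
    V0 = Submodule.span k (⋃ i, (z i) '' {q | z i q ≠ 0}) := ⟨_, rfl⟩
  have hfg : V0.FG := ⟨(Set.finite_iUnion fun i => (hfin i).image _).toFinset, by
    rw [Set.Finite.coe_toFinset, hV0]⟩
  have hle : V ≤ V0 := by
    intro v hv
    by_contra hcon
    obtain ⟨φ, hφ1, hφ2⟩ := Submodule.exists_le_ker_of_notMem hcon
    apply hφ1
    refine (hV v).1 hv φ ⟨0, ?_⟩
    rw [pow_zero, Matrix.one_mulVec]
    funext i
    apply MonoidAlgebra.ext
    ext q
    rw [wv_coeff]
    change φ (z i q) = 0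
    by_cases h : z i q = 0
    · rw [h, map_zero]
    · refine LinearMap.mem_ker.1 (hφ2 ?_)
      rw [hV0]
      exact Submodule.subset_span (Set.mem_iUnion.2 ⟨i, q, h, rfl⟩)
  have hfd : FiniteDimensional k V0 := by
    rw [FiniteDimensional, Module.finite_def, Submodule.fg_top]
    exact hfg
  have hfd' : FiniteDimensional k V := Submodule.finiteDimensional_of_le hle
  rw [FiniteDimensional, Module.finite_def, Submodule.fg_top] at hfd'
  exact hfd'

end rank

/-- a non-nilpotent matrix over the augmentation ideal moves some coordinate vector arbitrarily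
far -/
theorem exists_index {k Q : Type*} [Field k] [Group Q] (h : AugRad k Q) {d : ℕ}
    (T : Matrix (Fin d) (Fin d) (MonoidAlgebra k Q)) (hT : ∀ i j, aug k Q (T i j) = 0)
    (hn : ¬ IsNilpotent T) :
    ∃ i₀, ∀ (n : ℕ) (x : Fin d → MonoidAlgebra k Q),
      (T ^ n).mulVec (Pi.single i₀ 1) ≠ (T ^ (n + 1)).mulVec x := by
  by_contra hcon
  push Not at hcon
  choose n x hx using hcon
  apply hn
  obtain ⟨N, hN⟩ : ∃ N, ∀ i, n i ≤ N := ⟨∑ i, n i, fun i =>
    Finset.single_le_sum (fun _ _ => Nat.zero_le _) (Finset.mem_univ i)⟩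
  obtain ⟨U, hU⟩ : ∃ U : Matrix (Fin d) (Fin d) (MonoidAlgebra k Q), ∀ i j, U i j = x j i :=
    ⟨fun i j => x j i, fun _ _ => rfl⟩
  have h1 : T ^ N = T ^ (N + 1) * U := by
    refine Matrix.ext fun i j => ?_
    have h2 : (T ^ N).mulVec (Pi.single j 1) = (T ^ (N + 1)).mulVec (x j) := by
      have e1 : T ^ N = T ^ (N - n j) * T ^ n j := by rw [← pow_add, Nat.sub_add_cancel (hN j)]
      have e2 : T ^ (N + 1) = T ^ (N - n j) * T ^ (n j + 1) := by
        rw [← pow_add]
        congr 1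
        have := hN j
        omega
      rw [e1, e2, ← Matrix.mulVec_mulVec, ← Matrix.mulVec_mulVec, hx j]
    have h3 := congrFun h2 i
    rw [Matrix.mulVec_single_one] at h3
    rw [Matrix.mul_apply]
    simp only [hU]
    exact h3
  refine ⟨N, ?_⟩
  obtain ⟨Y, hY⟩ := h.exists_inv (1 - T * U) (by
    have h2 : (aug k Q).toRingHom.mapMatrix (1 - T * U) = 1 := by
      have h3 : (aug k Q).toRingHom.mapMatrix T = 0 := by
        ext i j
        simpa using hT i j
      rw [map_sub, map_one, map_mul, h3, zero_mul, sub_zero]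
    rw [h2]
    exact isUnit_one)
  have h2 : T ^ N * (1 - T * U) = 0 := by
    rw [mul_sub, mul_one, ← mul_assoc, ← pow_succ, ← h1, sub_self]
  calc T ^ N = T ^ N * ((1 - T * U) * Y) := by rw [hY, mul_one]
    _ = 0 := by rw [← mul_assoc, h2, zero_mul]

/-- a vector in a finite invariant subspace is killed by a power -/
theorem exists_pow_mulVec_eq_zero {k Q : Type*} [Field k] [Finite k] [Group Q] (h : AugRad k Q)
    {d : ℕ} (T : Matrix (Fin d) (Fin d) (MonoidAlgebra k Q)) (hT : ∀ i j, aug k Q (T i j) = 0)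
    (V : Submodule k (Fin d → MonoidAlgebra k Q)) (hV : V.FG) (a₀ : Fin d → MonoidAlgebra k Q)
    (ha : a₀ ∈ V) (hTV : ∀ v ∈ V, T.mulVec v ∈ V) : ∃ n : ℕ, (T ^ n).mulVec a₀ = 0 := by
  have hpow : ∀ n : ℕ, (T ^ n).mulVec a₀ ∈ V := by
    intro n
    induction n with
    | zero => rw [pow_zero, Matrix.one_mulVec]; exact ha
    | succ n ih => rw [pow_succ', ← Matrix.mulVec_mulVec]; exact hTV _ ih
  have hfd : Module.Finite k V := by
    rw [Module.finite_def, Submodule.fg_top]
    exact hV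
  have hfin : Finite V := Module.finite_of_finite k
  obtain ⟨a, b, hab, hf⟩ := Finite.exists_ne_map_eq_of_infinite
    (fun n : ℕ => (⟨(T ^ n).mulVec a₀, hpow n⟩ : V))
  have hf' : (T ^ a).mulVec a₀ = (T ^ b).mulVec a₀ := congrArg Subtype.val hf
  clear hf
  wlog hlt : a < b generalizing a b
  · exact this b a hab.symm hf'.symm (by omega)
  obtain ⟨m, rfl⟩ : ∃ m, b = (m + 1) + a := ⟨b - a - 1, by omega⟩
  obtain ⟨Y, hY⟩ := h.exists_left_inv (1 - T ^ (m + 1)) (by
    have h2 : (aug k Q).toRingHom.mapMatrix (1 - T ^ (m + 1)) = 1 := by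
      have h3 : (aug k Q).toRingHom.mapMatrix T = 0 := by
        ext i j
        simpa using hT i j
      rw [map_sub, map_one, map_pow, h3, zero_pow (Nat.succ_ne_zero _), sub_zero]
    rw [h2]
    exact isUnit_one)
  refine ⟨a, ?_⟩
  have h1 : (1 - T ^ (m + 1)).mulVec ((T ^ a).mulVec a₀) = 0 := by
    rw [Matrix.sub_mulVec, Matrix.one_mulVec, Matrix.mulVec_mulVec, ← pow_add, ← hf', sub_self]
  calc (T ^ a).mulVec a₀ = (Y * (1 - T ^ (m + 1))).mulVec ((T ^ a).mulVec a₀) := by
        rw [hY, Matrix.one_mulVec]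
    _ = 0 := by rw [← Matrix.mulVec_mulVec, h1, Matrix.mulVec_zero]

/-- P8a. -/
theorem thin_or_thin {p : ℕ} [Fact p.Prime] {H H' : Type*} [Group H] [Group H']
    (h : AugRad (ZMod p) (H × H')) : Thin p H ∨ Thin p H' := by
  classical
  by_contra hcon
  rw [not_or] at hcon
  obtain ⟨hc1, hc2⟩ := hcon
  unfold Thin at hc1 hc2
  push Not at hc1 hc2
  obtain ⟨m1, u, hεu, hnu⟩ := hc1
  obtain ⟨m2, Φ, hεΦ, hnΦ⟩ := hc2
  have hH : AugRad (ZMod p) H := augRad_of_surjective h (MonoidHom.fst H H') Prod.fst_surjective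
  have hH' : AugRad (ZMod p) H' := augRad_of_surjective h (MonoidHom.snd H H') Prod.snd_surjective
  obtain ⟨i0, hi0⟩ := exists_index hH' Φ hεΦ hnΦ
  obtain ⟨W, hW⟩ : ∃ W : Matrix (Fin m1 × Fin m2) (Fin m1 × Fin m2)
      (MonoidAlgebra (ZMod p) (H × H')),
    ∀ a b, W a b = i1 (u a.1 b.1) * i2 (Φ a.2 b.2) := ⟨_, fun _ _ => rfl⟩
  have hX : (aug (ZMod p) (H × H')).toRingHom.mapMatrix (1 - W) = 1 := by
    rw [map_sub, map_one]
    have h1 : (aug (ZMod p) (H × H')).toRingHom.mapMatrix W = 0 := by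
      ext i j
      simp only [RingHom.mapMatrix_apply, Matrix.map_apply, Matrix.zero_apply,
        AlgHom.toRingHom_eq_coe, RingHom.coe_coe, hW]
      rw [map_mul, aug_i1, hεu, zero_mul]
    rw [h1, sub_zero]
  obtain ⟨Y, hY⟩ := h.exists_inv (1 - W) (by rw [hX]; exact isUnit_one)
  have hY' : Y = 1 + W * Y := by
    rw [sub_mul, one_mul] at hY
    rw [← hY]; abel
  apply hnu
  have hkill : ∀ j0 : Fin m1, ∃ n : ℕ, (u ^ n).mulVec (Pi.single j0 1) = 0 := by
    intro j0
    obtain ⟨z, hz⟩ : ∃ z : Fin m2 → H' → (Fin m1 → MonoidAlgebra (ZMod p) H),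
      ∀ i q j, z i q j = slice q (Y (j, i) (j0, i0)) := ⟨_, fun _ _ _ => rfl⟩
    obtain ⟨V, hV, h1, h2⟩ := exists_invariant Φ i0 hi0 z (fun i => by
        refine Set.Finite.subset (s := ⋃ j : Fin m1, Prod.snd ''
          {pq : H × H' | (Y (j, i) (j0, i0)).coeff pq ≠ 0}) ?_ ?_
        · exact Set.finite_iUnion fun j => Set.Finite.image _
            (Y (j, i) (j0, i0)).coeff.hasFiniteSupport
        · intro q hq
          by_contra hq'
          apply hq
          funext j
          rw [hz]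
          apply MonoidAlgebra.ext
          ext p
          rw [slice_coeff]
          by_contra h0
          exact hq' (Set.mem_iUnion.2 ⟨j, (p, q), h0, rfl⟩))
      (Pi.single j0 1) (tl u) (by
        intro i q
        funext j
        rw [hz, hY', Matrix.add_apply, slice_add, Pi.add_apply]
        congr 1
        · rw [Matrix.one_apply]
          by_cases hi : i = i0
          · by_cases hj : j = j0
            · rw [if_pos (by rw [hi, hj]), slice_one]
              by_cases hq : q = 1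
              · simp [hi, hj, hq]
              · simp [hq]
            · rw [if_neg (fun h => hj (congrArg Prod.fst h)), slice_zero]
              by_cases hq : q = 1
              · simp [hi, hj, hq]
              · simp [hq]
          · rw [if_neg (fun h => hi (congrArg Prod.snd h)), slice_zero]
            simp [hi]
        · rw [Matrix.mul_apply, slice_sum, Fintype.sum_prod_type]
          change _ = ∑ j', u j j' * act Φ z i q j'
          refine Finset.sum_congr rfl fun j' _ => ?_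
          unfold act
          rw [Finset.sum_apply, Finset.mul_sum]
          refine Finset.sum_congr rfl fun i' _ => ?_
          rw [hW, slice_mul, Finsupp.sum, Finsupp.sum, Finset.sum_apply, Finset.mul_sum]
          refine Finset.sum_congr rfl fun g _ => ?_
          rw [Pi.smul_apply, hz, mul_smul_comm])
    exact exists_pow_mulVec_eq_zero hH u hεu V hV _ h1 h2
  choose n hn using hkill
  obtain ⟨N, hN⟩ : ∃ N, ∀ i, n i ≤ N := ⟨∑ i, n i, fun i =>
    Finset.single_le_sum (fun _ _ => Nat.zero_le _) (Finset.mem_univ i)⟩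
  refine ⟨N, Matrix.ext fun i j => ?_⟩
  have h1 : (u ^ N).mulVec (Pi.single j 1) = 0 := by
    have e1 : u ^ N = u ^ (N - n j) * u ^ n j := by rw [← pow_add, Nat.sub_add_cancel (hN j)]
    rw [e1, ← Matrix.mulVec_mulVec, hn j, Matrix.mulVec_zero]
  have h2 := congrFun h1 i
  rw [Matrix.mulVec_single_one] at h2
  exact h2

end MP331e4fBw
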