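import Pool.Agent.Lib_MP_331e4f_bw.RatDvd

/-!
# P10: thin groups and the field `F_p(t)`

Every `ζ ∈ F_p(t)[H]` is `y / q` with `y` a polynomial over `F_p[H]` and `q ∈ F_p[t]`; if `H` is thin
and the augmentation of `ζ` is not zero then (file `RatDvd`) `y w = g ∈ F_p[t]`, `g ≠ 0`, so that `ζ` is
invertible.
-/

namespace MP331e4fBw

open MP331e4f (aug AugRad mem_rad_iff aug_of)
open Polynomial

section transfer

variable (F : Type*) [Field F] (H : Type*) [Group H]

/-- `F[H][X] → F(t)[H]` -/
noncomputable def toRat : (MonoidAlgebra F H)[X] →+* MonoidAlgebra (RatFunc F) H :=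
  Polynomial.eval₂RingHom' (MonoidAlgebra.mapRingHom H (algebraMap F (RatFunc F)))
    (algebraMap (RatFunc F) (MonoidAlgebra (RatFunc F) H) RatFunc.X)
    (fun _ => (Algebra.commutes _ _).symm)

theorem toRat_C (a : MonoidAlgebra F H) :
    toRat F H (C a) = MonoidAlgebra.mapRingHom H (algebraMap F (RatFunc F)) a := by
  simp [toRat, Polynomial.eval₂RingHom']

theorem toRat_X :
    toRat F H X = algebraMap (RatFunc F) (MonoidAlgebra (RatFunc F) H) RatFunc.X := by
  simp [toRat, Polynomial.eval₂RingHom']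

theorem toRat_map (g : F[X]) :
    toRat F H (g.map (algebraMap F (MonoidAlgebra F H))) =
      algebraMap (RatFunc F) (MonoidAlgebra (RatFunc F) H) (algebraMap F[X] (RatFunc F) g) := by
  have : (toRat F H).comp (mapRingHom (algebraMap F (MonoidAlgebra F H))) =
      (algebraMap (RatFunc F) (MonoidAlgebra (RatFunc F) H)).comp
        (algebraMap F[X] (RatFunc F)) := by
    refine Polynomial.ringHom_ext (fun a => ?_) ?_
    · simp [toRat_C]
    · simp [toRat_X]
  exact congrArg (fun f => f g) this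

theorem aug_toRat (y : (MonoidAlgebra F H)[X]) :
    aug (RatFunc F) H (toRat F H y) =
      algebraMap F[X] (RatFunc F) (y.map (aug F H).toRingHom) := by
  have : (aug (RatFunc F) H).toRingHom.comp (toRat F H) =
      (algebraMap F[X] (RatFunc F)).comp (mapRingHom (aug F H).toRingHom) := by
    refine Polynomial.ringHom_ext' ?_ ?_
    · refine MonoidAlgebra.ringHom_ext (fun a => ?_) (fun g => ?_)
      · simp [toRat_C]
      · simp [toRat_C]
    · simp [toRat_X]
  exact congrArg (fun f => f y) this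

variable {F H}

theorem exists_num (ζ : MonoidAlgebra (RatFunc F) H) :
    ∃ q : F[X], q ≠ 0 ∧ ∃ y : (MonoidAlgebra F H)[X],
      algebraMap (RatFunc F) (MonoidAlgebra (RatFunc F) H) (algebraMap F[X] (RatFunc F) q) * ζ =
        toRat F H y := by
  induction ζ using MonoidAlgebra.induction_linear with
  | zero => exact ⟨1, one_ne_zero, 0, by simp⟩
  | add a b ha hb =>
    obtain ⟨q1, hq1, y1, h1⟩ := ha
    obtain ⟨q2, hq2, y2, h2⟩ := hb
    refine ⟨q1 * q2, mul_ne_zero hq1 hq2,
      q2.map (algebraMap F (MonoidAlgebra F H)) * y1 +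
        q1.map (algebraMap F (MonoidAlgebra F H)) * y2, ?_⟩
    have e : ∀ u v : F[X], algebraMap (RatFunc F) (MonoidAlgebra (RatFunc F) H)
        (algebraMap F[X] (RatFunc F) (u * v)) =
        algebraMap (RatFunc F) (MonoidAlgebra (RatFunc F) H) (algebraMap F[X] (RatFunc F) u) *
        algebraMap (RatFunc F) (MonoidAlgebra (RatFunc F) H) (algebraMap F[X] (RatFunc F) v) :=
      fun u v => by rw [map_mul, map_mul]
    rw [map_add (toRat F H), map_mul (toRat F H), map_mul (toRat F H), toRat_map, toRat_map, ← h1,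
      ← h2, ← mul_assoc, ← mul_assoc, ← e, ← e, mul_comm q2 q1, mul_add]
  | single g r =>
    refine ⟨r.denom, r.denom_ne_zero,
      r.num.map (algebraMap F (MonoidAlgebra F H)) * C (MonoidAlgebra.single g 1), ?_⟩
    rw [map_mul, toRat_map, toRat_C]
    have h1 : algebraMap F[X] (RatFunc F) r.denom * r = algebraMap F[X] (RatFunc F) r.num := by
      have h2 := RatFunc.num_div_denom r
      have h3 : algebraMap F[X] (RatFunc F) r.denom ≠ 0 := by
        simpa using r.denom_ne_zero
      rw [div_eq_iff h3] at h2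
      rw [h2, mul_comm]
    simp [MonoidAlgebra.coe_algebraMap, MonoidAlgebra.single_mul_single, h1]

end transfer

section rat

variable {p : ℕ} [Fact p.Prime] {H : Type*} [Group H]

theorem exists_right_inv (h : Thin p H) (ζ : MonoidAlgebra (RatFunc (ZMod p)) H)
    (hζ : aug (RatFunc (ZMod p)) H ζ ≠ 0) : ∃ v, ζ * v = 1 := by
  obtain ⟨q, hq, y, hy⟩ := exists_num ζ
  have hy0 : y.map (aug (ZMod p) H).toRingHom ≠ 0 := by
    intro h0
    have h1 := aug_toRat (ZMod p) H y
    rw [h0, map_zero, ← hy, map_mul] at h1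
    rcases mul_eq_zero.1 h1 with h2 | h2
    · rw [AlgHom.commutes] at h2
      apply hq
      have h3 : algebraMap (ZMod p)[X] (RatFunc (ZMod p)) q = 0 := h2
      exact (map_eq_zero_iff _ (IsFractionRing.injective (ZMod p)[X] (RatFunc (ZMod p)))).1 h3
    · exact hζ h2
  obtain ⟨g, hg, w, hw⟩ := exists_mul_eq_map h y hy0
  set A := algebraMap (RatFunc (ZMod p)) (MonoidAlgebra (RatFunc (ZMod p)) H) with hA
  set Q := algebraMap (ZMod p)[X] (RatFunc (ZMod p)) q with hQ
  set G := algebraMap (ZMod p)[X] (RatFunc (ZMod p)) g with hG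
  have hG0 : G ≠ 0 := by
    intro h3
    exact hg ((map_eq_zero_iff _ (IsFractionRing.injective (ZMod p)[X] (RatFunc (ZMod p)))).1 h3)
  have e1 : A Q * ζ * toRat (ZMod p) H w = A G := by
    rw [hy, ← map_mul, hw, toRat_map]
  refine ⟨toRat (ZMod p) H w * A (Q / G), ?_⟩
  calc ζ * (toRat (ZMod p) H w * A (Q / G))
      = A Q * ζ * toRat (ZMod p) H w * A G⁻¹ := by
        have c1 : A Q * ζ = ζ * A Q := Algebra.commutes _ _
        have c2 : A Q * toRat (ZMod p) H w = toRat (ZMod p) H w * A Q := Algebra.commutes _ _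
        rw [div_eq_mul_inv, map_mul, c1, mul_assoc ζ, c2]
        simp only [mul_assoc]
    _ = 1 := by rw [e1, ← map_mul, mul_inv_cancel₀ hG0, map_one]

/-- P10. If `H` is thin then `J(F_p(t)[H]) = omega(F_p(t)[H])`. -/
theorem augRad_ratFunc_of_thin (h : Thin p H) : AugRad (RatFunc (ZMod p)) H := by
  intro g
  rw [mem_rad_iff]
  intro y
  set ζ := 1 + y * (MonoidAlgebra.of (RatFunc (ZMod p)) H g - 1) with hζ
  have h1 : aug (RatFunc (ZMod p)) H ζ = 1 := by
    rw [hζ, map_add, map_mul, map_sub, aug_of, map_one, sub_self, mul_zero, add_zero]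
  obtain ⟨v, hv⟩ := exists_right_inv h ζ (by rw [h1]; exact one_ne_zero)
  have h2 : aug (RatFunc (ZMod p)) H v = 1 := by
    have := congrArg (aug (RatFunc (ZMod p)) H) hv
    rwa [map_mul, h1, one_mul, map_one] at this
  obtain ⟨w, hw⟩ := exists_right_inv h v (by rw [h2]; exact one_ne_zero)
  have h3 : w = ζ := by
    calc w = ζ * v * w := by rw [hv, one_mul]
      _ = ζ := by rw [mul_assoc, hw, mul_one]
  refine ⟨v, ?_⟩
  calc v * y * (MonoidAlgebra.of (RatFunc (ZMod p)) H g - 1) + v = v * ζ := by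
        rw [hζ]; noncomm_ring
    _ = 1 := by rw [← h3, hw]

end rat

end MP331e4fBw
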