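import Pool.Agent.Lib_MP_331e4f_bw.RatPoly

/-!
# P10, polynomial part, thin groups
-/

namespace MP331e4fBw

open MP331e4f (aug AugRad)
open Polynomial

theorem commute_map_algebraMap {F R : Type*} [CommRing F] [Ring R] [Algebra F R] (π : F[X])
    (f : R[X]) : π.map (algebraMap F R) * f = f * π.map (algebraMap F R) := by
  induction π using Polynomial.induction_on' with
  | add a b ha hb => rw [Polynomial.map_add, add_mul, mul_add, ha, hb]
  | monomial n a =>
    have h1 : Commute (C (algebraMap F R a)) f := by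
      show _ * _ = _ * _
      ext k
      rw [coeff_C_mul, coeff_mul_C, Algebra.commutes]
    have h2 : Commute (X ^ n : R[X]) f := commute_X_pow f n
    rw [map_monomial, ← C_mul_X_pow_eq_monomial]
    exact h1.mul_left h2

variable {p : ℕ} [Fact p.Prime] {H : Type*} [Group H]

theorem exists_pow_sub_nilpotent (h : Thin p H) {m : ℕ}
    (M : Matrix (Fin m) (Fin m) (MonoidAlgebra (ZMod p) H)) :
    ∃ a b : ℕ, a < b ∧ IsNilpotent (M ^ b - M ^ a) := by
  obtain ⟨a, b, hab, he⟩ := Finite.exists_ne_map_eq_of_infinite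
    (fun k : ℕ => ((aug (ZMod p) H).toRingHom.mapMatrix M) ^ k)
  wlog hlt : a < b generalizing a b
  · exact this b a hab.symm he.symm (lt_of_le_of_ne (not_lt.1 hlt) hab.symm)
  refine ⟨a, b, hlt, h m _ ?_⟩
  intro i j
  have h1 : (aug (ZMod p) H).toRingHom.mapMatrix (M ^ b - M ^ a) = 0 := by
    rw [map_sub, map_pow, map_pow]
    exact sub_eq_zero.2 he.symm
  exact congrFun (congrFun h1 i) j

theorem exists_mul_eq_map (h : Thin p H) (z : (MonoidAlgebra (ZMod p) H)[X])
    (hz : z.map (aug (ZMod p) H).toRingHom ≠ 0) :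
    ∃ g : (ZMod p)[X], g ≠ 0 ∧ ∃ w : (MonoidAlgebra (ZMod p) H)[X],
      z * w = g.map (algebraMap (ZMod p) (MonoidAlgebra (ZMod p) H)) := by
  set ι := algebraMap (ZMod p) (MonoidAlgebra (ZMod p) H) with hι
  set ε := (aug (ZMod p) H).toRingHom with hε
  have hει : ε.comp ι = RingHom.id _ := Subsingleton.elim _ _
  set q := z.map ε with hq
  set c := q.leadingCoeff⁻¹ with hcdef
  have hlc : q.leadingCoeff ≠ 0 := leadingCoeff_ne_zero.2 hz
  have hcq : (C c * q).Monic := by
    apply monic_C_mul_of_mul_leadingCoeff_eq_one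
    rw [hcdef]
    field_simp
  have hXq : (X * (C c * q)).Monic := monic_X.mul hcq
  have hdXq : 0 < (X * (C c * q)).natDegree := by
    rw [monic_X.natDegree_mul hcq, natDegree_X]
    omega
  set π : (ZMod p)[X] := 1 + X * (C c * q) with hπ
  have hdeg1 : (1 : (ZMod p)[X]).degree < (X * (C c * q)).degree := by
    rw [degree_one]
    exact natDegree_pos_iff_degree_pos.1 hdXq
  have hπm : π.Monic := Monic.add_of_right hXq hdeg1
  have hπd : 0 < π.natDegree := by
    rw [hπ, natDegree_add_eq_right_of_degree_lt hdeg1]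
    exact hdXq
  set s := π.map ι with hs
  have hsm : s.Monic := hπm.map ι
  have hsd : 0 < s.natDegree := by
    rw [hs, hπm.natDegree_map]
    exact hπd
  have hsc : ∀ f, s * f = f * s := commute_map_algebraMap π
  set h0 : (MonoidAlgebra (ZMod p) H)[X] := (-(X * C c) : (ZMod p)[X]).map ι with hh0
  have h0c : ∀ f, h0 * f = f * h0 := commute_map_algebraMap _
  set Y := h0 * (q.map ι - z) with hYdef
  have hYa : Y.map ε = 0 := by
    have e : (q.map ι).map ε = q := by rw [Polynomial.map_map, hει, Polynomial.map_id]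
    rw [hYdef, Polynomial.map_mul, Polynomial.map_sub, e, ← hq, sub_self, mul_zero]
  have key : z * h0 = 1 - (s + Y) := by
    have e1 : h0 * q.map ι = 1 - s := by
      rw [hh0, hs, ← Polynomial.map_mul, ← Polynomial.map_one ι, ← Polynomial.map_sub, hπ]
      congr 1
      ring
    rw [hYdef, mul_sub, e1, ← h0c]
    abel
  have hnil : IsNilpotent (colMat s.natDegree fun j => (Y * X ^ (j : ℕ)) %ₘ s) := by
    apply h
    intro i j
    have h1 : ((Y * X ^ (j : ℕ)) %ₘ s).map ε = 0 := by
      rw [map_modByMonic ε hsm, Polynomial.map_mul, hYa, zero_mul, zero_modByMonic]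
    have h2 : ε (((Y * X ^ (j : ℕ)) %ₘ s).coeff (i : ℕ)) = 0 := by
      rw [← coeff_map, h1, coeff_zero]
    exact h2
  obtain ⟨r, P2, hr⟩ := pow_dvd_of_nilpotent hsm hsc hsd hnil
  obtain ⟨P1, hP1⟩ := add_pow_eq (Y := Y) hsc r
  have h1 : 1 = s * (P1 + P2) + z * (h0 * ∑ i ∈ Finset.range r, (s + Y) ^ i) := by
    rw [← mul_assoc, key, mul_neg_geom_sum, hP1, hr, mul_add]
    abel
  obtain ⟨m, hm, M, w, hE⟩ := exists_row hsm hsd h1
  obtain ⟨a, b, hab, hN⟩ := exists_pow_sub_nilpotent h M
  obtain ⟨k, v, hv⟩ := exists_mul_eq hsc hm hE hab hN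
  refine ⟨(1 - π ^ (b - a)) ^ k, ?_, v, ?_⟩
  · apply pow_ne_zero
    intro h2
    have h3 := congrArg natDegree (sub_eq_zero.1 h2)
    rw [natDegree_one, natDegree_pow] at h3
    have h4 : 0 < (b - a) * π.natDegree := Nat.mul_pos (by omega) hπd
    omega
  · rw [← hv, Polynomial.map_pow, Polynomial.map_sub, Polynomial.map_one, Polynomial.map_pow]

end MP331e4fBw
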