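import Pool.Agent.Lib_MP_331e4f_bw.Thin

/-!
# P10, polynomial part: for a thin group every polynomial over `F_p[H]` whose augmentation is not
zero divides a non-zero polynomial over `F_p`
-/

namespace MP331e4fBw

open MP331e4f (aug AugRad)
open Polynomial

section general

variable {R : Type*} [Ring R]

theorem sum_monomial_of_degree_lt {p : R[X]} {m : ℕ} (hp : p.degree < m) :
    ∑ i ∈ Finset.range m, monomial i (p.coeff i) = p := by
  ext k
  rw [finset_sum_coeff]
  simp only [coeff_monomial, Finset.sum_ite_eq', Finset.mem_range]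
  split_ifs with h
  · rfl
  · exact (coeff_eq_zero_of_degree_lt (hp.trans_le (by exact_mod_cast not_lt.1 h))).symm

/-- the row `(1, X, ..., X^(m-1))` -/
noncomputable def pw (R : Type*) [Ring R] (m : ℕ) : Fin m → R[X] := fun i => X ^ (i : ℕ)

/-- the matrix over `R` with the coefficients of `τ 0, τ 1, ...` as columns -/
noncomputable def colMat (m : ℕ) (τ : Fin m → R[X]) : Matrix (Fin m) (Fin m) R :=
  Matrix.of fun i j => (τ j).coeff (i : ℕ)

theorem pw_vecMul_colMat {m : ℕ} (τ : Fin m → R[X]) (hτ : ∀ j, (τ j).degree < m) :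
    Matrix.vecMul (pw R m) (C.mapMatrix (colMat m τ)) = τ := by
  funext j
  have h1 : ∀ i : Fin m, pw R m i * (C.mapMatrix (colMat m τ)) i j =
      monomial (i : ℕ) ((τ j).coeff (i : ℕ)) := by
    intro i
    simp only [pw, colMat, RingHom.mapMatrix_apply, Matrix.map_apply, Matrix.of_apply]
    rw [← C_mul_X_pow_eq_monomial, X_pow_mul_C]
  simp only [Matrix.vecMul, dotProduct]
  rw [Finset.sum_congr rfl fun i _ => h1 i]
  rw [Fin.sum_univ_eq_sum_range (fun i => monomial i ((τ j).coeff i)) m]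
  exact sum_monomial_of_degree_lt (hτ j)

/-- if left multiplication by `Y` modulo the central `s` is given by a nilpotent matrix then
a power of `Y` is divisible by `s` -/
theorem pow_dvd_of_nilpotent {s : R[X]} (hs : s.Monic) (hc : ∀ f : R[X], s * f = f * s)
    (hn : 0 < s.natDegree) {Y : R[X]}
    (hY : IsNilpotent (colMat s.natDegree fun j => (Y * X ^ (j : ℕ)) %ₘ s)) :
    ∃ r : ℕ, ∃ P : R[X], Y ^ r = s * P := by
  nontriviality R
  set n := s.natDegree with hndef
  obtain ⟨r, hr⟩ := hY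
  set M := colMat n fun j : Fin n => (Y * X ^ (j : ℕ)) %ₘ s with hM
  have hdeg : ∀ j : Fin n, ((Y * X ^ (j : ℕ)) %ₘ s).degree < (n : ℕ) := by
    intro j
    have := degree_modByMonic_lt (Y * X ^ (j : ℕ)) hs
    rwa [degree_eq_natDegree hs.ne_zero] at this
  have h1 : Matrix.vecMul (pw R n) (C.mapMatrix M) =
      Y • pw R n - s • fun j : Fin n => (Y * X ^ (j : ℕ)) /ₘ s := by
    rw [hM, pw_vecMul_colMat _ hdeg]
    funext j
    simp only [Pi.sub_apply, Pi.smul_apply, smul_eq_mul, pw]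
    exact eq_sub_of_add_eq (modByMonic_add_div _ _)
  have h2 : ∀ k : ℕ, ∃ W : Fin n → R[X],
      Matrix.vecMul (pw R n) (C.mapMatrix (M ^ k)) = Y ^ k • pw R n - s • W := by
    intro k
    induction k with
    | zero =>
      refine ⟨0, ?_⟩
      simp
    | succ k ih =>
      obtain ⟨W, hW⟩ := ih
      refine ⟨Y ^ k • (fun j : Fin n => (Y * X ^ (j : ℕ)) /ₘ s) +
        Matrix.vecMul W (C.mapMatrix M), ?_⟩
      rw [pow_succ, map_mul, ← Matrix.vecMul_vecMul, hW, Matrix.sub_vecMul, Matrix.smul_vecMul,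
        Matrix.smul_vecMul, h1, smul_sub, smul_smul, smul_smul, ← pow_succ, smul_add, smul_smul,
        ← hc]
      abel
  obtain ⟨W, hW⟩ := h2 r
  rw [hr, map_zero, Matrix.vecMul_zero] at hW
  have h3 := congrFun hW ⟨0, hn⟩
  simp only [Pi.zero_apply, Pi.sub_apply, Pi.smul_apply, smul_eq_mul, pw, pow_zero, mul_one] at h3
  exact ⟨r, _, (sub_eq_zero.1 h3.symm)⟩

theorem add_pow_eq {s Y : R[X]} (hc : ∀ f : R[X], s * f = f * s) (r : ℕ) :
    ∃ P : R[X], (s + Y) ^ r = s * P + Y ^ r := by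
  induction r with
  | zero => exact ⟨0, by simp⟩
  | succ r ih =>
    obtain ⟨P, hP⟩ := ih
    refine ⟨(s + Y) * P + Y ^ r, ?_⟩
    rw [pow_succ', hP, mul_add, add_mul s Y (Y ^ r), ← pow_succ', mul_add s, ← mul_assoc,
      ← hc (s + Y), mul_assoc]
    abel

theorem exists_row {s z P Q : R[X]} (hs : s.Monic) (hn : 0 < s.natDegree)
    (h1 : 1 = s * P + z * Q) :
    ∃ m : ℕ, 0 < m ∧ ∃ M : Matrix (Fin m) (Fin m) R, ∃ w : Fin m → R[X],
      pw R m = s • (Matrix.vecMul (pw R m) (C.mapMatrix M)) + z • w := by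
  set m := P.natDegree + s.natDegree with hm
  have hs1 : s ≠ 1 := by
    rintro rfl
    simp at hn
  set τ : Fin m → R[X] := fun j => X ^ (j : ℕ) /ₘ s + P * (X ^ (j : ℕ) %ₘ s) with hτ
  have hlt : ∀ p : R[X], p.natDegree < m → p.degree < (m : ℕ) := by
    intro p hp
    exact lt_of_le_of_lt degree_le_natDegree (by exact_mod_cast hp)
  have hdeg : ∀ j, (τ j).degree < (m : ℕ) := by
    intro j
    refine lt_of_le_of_lt (degree_add_le _ _) (max_lt (hlt _ ?_) (hlt _ ?_))
    · rw [natDegree_divByMonic _ hs]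
      have h2 : (X ^ (j : ℕ) : R[X]).natDegree ≤ j := natDegree_X_pow_le _
      have h3 := j.2
      omega
    · have h2 := natDegree_modByMonic_lt (X ^ (j : ℕ) : R[X]) hs hs1
      have h3 := natDegree_mul_le (p := P) (q := X ^ (j : ℕ) %ₘ s)
      omega
  refine ⟨m, by omega, colMat m τ, fun j => Q * (X ^ (j : ℕ) %ₘ s), ?_⟩
  rw [pw_vecMul_colMat τ hdeg]
  funext j
  simp only [Pi.add_apply, Pi.smul_apply, smul_eq_mul, pw, hτ]
  have h2 : X ^ (j : ℕ) %ₘ s + s * (X ^ (j : ℕ) /ₘ s) = (X ^ (j : ℕ) : R[X]) :=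
    modByMonic_add_div _ _
  have h3 : X ^ (j : ℕ) %ₘ s = (s * P + z * Q) * (X ^ (j : ℕ) %ₘ s) := by rw [← h1, one_mul]
  calc (X ^ (j : ℕ) : R[X]) = (s * P + z * Q) * (X ^ (j : ℕ) %ₘ s) + s * (X ^ (j : ℕ) /ₘ s) := by
        rw [← h3, h2]
    _ = _ := by noncomm_ring

theorem exists_mul_eq {s z : R[X]} (hc : ∀ f : R[X], s * f = f * s) {m : ℕ} (hm : 0 < m)
    {M : Matrix (Fin m) (Fin m) R} {w : Fin m → R[X]}
    (hE : pw R m = s • (Matrix.vecMul (pw R m) (C.mapMatrix M)) + z • w) {a b : ℕ} (hab : a < b)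
    (hN : IsNilpotent (M ^ b - M ^ a)) :
    ∃ c : ℕ, ∃ v : R[X], (1 - s ^ (b - a)) ^ c = z * v := by
  have hck : ∀ (k : ℕ) (f : R[X]), s ^ k * f = f * s ^ k := fun k f =>
    (Commute.pow_left (show Commute s f from hc f) k)
  have step : ∀ k : ℕ, ∃ w : Fin m → R[X],
      s ^ k • Matrix.vecMul (pw R m) (C.mapMatrix (M ^ k)) = pw R m - z • w := by
    intro k
    induction k with
    | zero => exact ⟨0, by simp⟩
    | succ k ih =>
      obtain ⟨w', hw'⟩ := ih
      refine ⟨w + s • Matrix.vecMul w' (C.mapMatrix M), ?_⟩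
      have e1 : s • Matrix.vecMul (pw R m) (C.mapMatrix M) = pw R m - z • w :=
        eq_sub_of_add_eq hE.symm
      calc s ^ (k + 1) • Matrix.vecMul (pw R m) (C.mapMatrix (M ^ (k + 1)))
          = s • Matrix.vecMul (s ^ k • Matrix.vecMul (pw R m) (C.mapMatrix (M ^ k)))
              (C.mapMatrix M) := by
            rw [pow_succ M, map_mul, ← Matrix.vecMul_vecMul, Matrix.smul_vecMul, smul_smul,
              ← pow_succ']
        _ = s • Matrix.vecMul (pw R m) (C.mapMatrix M) -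
              z • (s • Matrix.vecMul w' (C.mapMatrix M)) := by
            rw [hw', Matrix.sub_vecMul, Matrix.smul_vecMul, smul_sub, smul_smul, smul_smul, hc z]
        _ = _ := by rw [e1, smul_add]; abel
  obtain ⟨wa, hwa⟩ := step a
  obtain ⟨wb, hwb⟩ := step b
  set G : R[X] := 1 - s ^ (b - a) with hG
  have hGc : ∀ f : R[X], G * f = f * G := by
    intro f
    rw [hG, sub_mul, mul_sub, hck, one_mul, mul_one]
  have hGck : ∀ (k : ℕ) (f : R[X]), G ^ k * f = f * G ^ k := fun k f =>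
    (Commute.pow_left (show Commute G f from hGc f) k)
  have hD : s ^ b • Matrix.vecMul (pw R m) (C.mapMatrix (M ^ b - M ^ a)) =
      G • pw R m - z • (wb - s ^ (b - a) • wa) := by
    have e1 : s ^ b = s ^ (b - a) * s ^ a := by rw [← pow_add]; congr 1; omega
    have e2 : s ^ b • Matrix.vecMul (pw R m) (C.mapMatrix (M ^ a)) =
        s ^ (b - a) • (pw R m - z • wa) := by
      rw [← hwa, smul_smul, ← e1]
    rw [map_sub, Matrix.vecMul_sub, smul_sub, hwb, e2, hG, sub_smul, one_smul, smul_sub, smul_sub,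
      smul_smul, smul_smul, hck]
    abel
  have hiter : ∀ k : ℕ, ∃ w : Fin m → R[X],
      s ^ (b * k) • Matrix.vecMul (pw R m) (C.mapMatrix ((M ^ b - M ^ a) ^ k)) =
        G ^ k • pw R m - z • w := by
    intro k
    induction k with
    | zero => exact ⟨0, by simp⟩
    | succ k ih =>
      obtain ⟨w', hw'⟩ := ih
      refine ⟨G ^ k • (wb - s ^ (b - a) • wa) +
        s ^ b • Matrix.vecMul w' (C.mapMatrix (M ^ b - M ^ a)), ?_⟩
      calc s ^ (b * (k + 1)) • Matrix.vecMul (pw R m) (C.mapMatrix ((M ^ b - M ^ a) ^ (k + 1)))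
          = s ^ b • Matrix.vecMul
              (s ^ (b * k) • Matrix.vecMul (pw R m) (C.mapMatrix ((M ^ b - M ^ a) ^ k)))
              (C.mapMatrix (M ^ b - M ^ a)) := by
            rw [pow_succ (M ^ b - M ^ a), map_mul, ← Matrix.vecMul_vecMul, Matrix.smul_vecMul,
              smul_smul, ← pow_add]
            congr 2
            ring
        _ = G ^ k • (s ^ b • Matrix.vecMul (pw R m) (C.mapMatrix (M ^ b - M ^ a))) -
              z • (s ^ b • Matrix.vecMul w' (C.mapMatrix (M ^ b - M ^ a))) := by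
            rw [hw', Matrix.sub_vecMul, Matrix.smul_vecMul, Matrix.smul_vecMul, smul_sub,
              smul_smul, smul_smul, smul_smul, smul_smul, hck b z, hck b (G ^ k)]
        _ = _ := by
            rw [hD, smul_sub, smul_smul, smul_smul, ← pow_succ, hGck k z, smul_add, ← smul_smul]
            abel
  obtain ⟨c, hc0⟩ := hN
  obtain ⟨w', hw'⟩ := hiter c
  rw [hc0, map_zero, Matrix.vecMul_zero, smul_zero] at hw'
  have h3 := congrFun hw' ⟨0, hm⟩
  simp only [Pi.zero_apply, Pi.sub_apply, Pi.smul_apply, smul_eq_mul, pw, pow_zero, mul_one] at h3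
  exact ⟨c, _, (sub_eq_zero.1 h3.symm)⟩

end general

end MP331e4fBw
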