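import Pool.Agent.Lib_MP_331e4f_bw.JI
import Pool.Agent.Lib_MP_331e4f_bw.Pair
import Pool.Agent.Lib_MP_331e4f_bw.Close
import Pool.Agent.Lib_MP_331e4f_am.Central

/-!
# P15c: reduction to thin groups and to hereditarily just infinite groups
-/

namespace MP331e4fBw

open MP331e4f (aug AugRad)

private theorem JustInf.congr {A B : Type*} [Group A] [Group B] (e : A ≃* B) (h : JustInf A) :
    JustInf B := by
  obtain ⟨h1, h2⟩ := h
  refine ⟨Infinite.of_injective e e.injective, fun N hN hne => ?_⟩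
  have h3 : (N.comap (e : A →* B)).FiniteIndex := by
    refine h2 _ (hN.comap _) fun h0 => hne ?_
    rw [eq_bot_iff]
    intro b hb
    have h4 : e.symm b ∈ N.comap (e : A →* B) := by
      rw [Subgroup.mem_comap]
      simpa using hb
    rw [h0, Subgroup.mem_bot] at h4
    rw [Subgroup.mem_bot]
    simpa using h4
  refine ⟨?_⟩
  rw [← Subgroup.index_comap_of_surjective N (f := (e : A →* B)) e.surjective]
  exact h3.index_ne_zero

private theorem ResFin.congr {A B : Type*} [Group A] [Group B] (e : A ≃* B) (h : ResFin A) :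
    ResFin B := by
  intro g hg
  obtain ⟨N, hN, hfin, hgN⟩ := h (e.symm g) (by simpa using hg)
  refine ⟨N.comap (e.symm : B →* A), hN.comap _, ⟨?_⟩, ?_⟩
  · rw [Subgroup.index_comap_of_surjective N (f := (e.symm : B →* A)) e.symm.surjective]
    exact hfin.index_ne_zero
  · rw [Subgroup.mem_comap]
    exact hgN

private theorem Thin.of_le {p : ℕ} [Fact p.Prime] {Q : Type*} [Group Q] {H P : Subgroup Q}
    (h : Thin p H) (hle : P ≤ H) : Thin p P :=
  (h.subgroup (P.subgroupOf H)).of_surjective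
    ((Subgroup.subgroupOfEquivOfLe hle : P.subgroupOf H ≃* P) : P.subgroupOf H →* P)
    (Subgroup.subgroupOfEquivOfLe hle).surjective

private theorem reduction_of_hom {p : ℕ} [Fact p.Prime] {G : Type*} [Group G] (P : Subgroup G)
    {R : Type*} [Group R] (f : P →* R) (hf : Function.Surjective f) (hfg : Group.FG R)
    (hJ : JustInf R) (hR : ResFin R) (hT : Thin p R) :
    ∃ (P : Subgroup G) (N : Subgroup P) (_ : N.Normal), Group.FG (P ⧸ N) ∧ JustInf (P ⧸ N) ∧
      ResFin (P ⧸ N) ∧ (Thin p (P ⧸ N) ∨ HJI (P ⧸ N)) := by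
  have e : P ⧸ f.ker ≃* R := QuotientGroup.quotientKerEquivOfSurjective f hf
  refine ⟨P, f.ker, inferInstance, ?_, hJ.congr e.symm, hR.congr e.symm, Or.inl ?_⟩
  · exact Group.fg_of_surjective (f := (e.symm : R →* P ⧸ f.ker)) e.symm.surjective
  · exact hT.of_surjective (e.symm : R →* P ⧸ f.ker) e.symm.surjective

/-- P15c. Proof: `P₀` has a just infinite quotient `Q`, residually finite (P15a; `AugRad` passes to
subgroups and quotients, `MP331e4fAm.augRad_of_surjective`). If `Q` is not hereditarily just infinite, take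
`H₁, H₂` from P15b (`AugRad.isOfFinOrder` gives torsion): `H₁` or the centralizer of `H₁` (which contains
`H₂`) is thin (`thin_or_thin_centralizer`), so an infinite f.g. subgroup `P'` of `Q` is thin
(`Thin.subgroup`); its just infinite quotient is thin (`Thin.of_surjective`) and residually finite. Write it
as `P ⧸ N` for the preimage `P` of `P'` in `G` (up to isomorphism; transport along the isomorphism). -/
theorem reduction {p : ℕ} [Fact p.Prime] {G : Type*} [Group G] (h : AugRad (ZMod p) G)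
    (P₀ : Subgroup G) (hP₀ : P₀.FG) [Infinite P₀] :
    ∃ (P : Subgroup G) (N : Subgroup P) (_ : N.Normal), Group.FG (P ⧸ N) ∧ JustInf (P ⧸ N) ∧
      ResFin (P ⧸ N) ∧ (Thin p (P ⧸ N) ∨ HJI (P ⧸ N)) := by
  obtain ⟨N₀, hN₀, hJ₀⟩ := exists_justInf P₀ ((Group.fg_iff_subgroup_fg P₀).2 hP₀)
  have hfg₀ : Group.FG P₀ := (Group.fg_iff_subgroup_fg P₀).2 hP₀
  have hπ : Function.Surjective (QuotientGroup.mk' N₀) := QuotientGroup.mk'_surjective N₀
  have hfgQ : Group.FG (P₀ ⧸ N₀) := Group.fg_of_surjective hπ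
  have hAQ : AugRad (ZMod p) (P₀ ⧸ N₀) := MP331e4fAm.augRad_of_surjective (h.restrict P₀) _ hπ
  have hRQ : ResFin (P₀ ⧸ N₀) := resFin_of_augRad hAQ hfgQ hJ₀
  by_cases hH : HJI (P₀ ⧸ N₀)
  · exact ⟨P₀, N₀, hN₀, hfgQ, hJ₀, hRQ, Or.inr hH⟩
  obtain ⟨H₁, H₂, hcomm, ⟨P₁, hP₁, hfg₁, hinf₁⟩, P₂, hP₂, hfg₂, hinf₂⟩ :=
    exists_commuting hfgQ hAQ.isOfFinOrder hJ₀ hH
  obtain ⟨P', hfg', hinf', hT'⟩ : ∃ P' : Subgroup (P₀ ⧸ N₀), P'.FG ∧ Infinite P' ∧ Thin p P' := by
    rcases thin_or_thin_centralizer hAQ H₁ with hT | hT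
    · exact ⟨P₁, hfg₁, hinf₁, hT.of_le hP₁⟩
    · refine ⟨P₂, hfg₂, hinf₂, hT.of_le fun b hb => ?_⟩
      rw [Subgroup.mem_centralizer_iff]
      exact fun a ha => hcomm a ha b (hP₂ hb)
  have hfgP' : Group.FG P' := (Group.fg_iff_subgroup_fg P').2 hfg'
  obtain ⟨N', hN', hJ'⟩ := exists_justInf P' hfgP'
  have hπ' : Function.Surjective (QuotientGroup.mk' N') := QuotientGroup.mk'_surjective N'
  have hfgR : Group.FG (P' ⧸ N') := Group.fg_of_surjective hπ'
  have hAR : AugRad (ZMod p) (P' ⧸ N') :=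
    MP331e4fAm.augRad_of_surjective (hAQ.restrict P') _ hπ'
  -- the preimage of `P'` in `G`
  let P'' : Subgroup P₀ := P'.comap (QuotientGroup.mk' N₀)
  let e : P'' ≃* P''.map P₀.subtype := P''.equivMapOfInjective P₀.subtype P₀.subtype_injective
  let f : P''.map P₀.subtype →* P' ⧸ N' := (QuotientGroup.mk' N').comp
    (((QuotientGroup.mk' N₀).subgroupComap P').comp (e.symm : P''.map P₀.subtype →* P''))
  refine reduction_of_hom (P''.map P₀.subtype) f ?_ hfgR hJ' (resFin_of_augRad hAR hfgR hJ')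
    (hT'.of_surjective _ hπ')
  exact hπ'.comp (((QuotientGroup.mk' N₀).subgroupComap_surjective_of_surjective P' hπ).comp
    e.symm.surjective)

end MP331e4fBw
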