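import Pool.Agent.Lib_MP_331e4f_bw.Defs

/-!
# P3: good coefficients, relative form
-/

open Module

namespace MP331e4fBw

variable {k : Type*} [Field k] {S : Type*} [Fintype S]

/-- P3a. -/
theorem Good.inj {D d : ℕ} {A : S → Matrix (Fin d) (Fin d) k} (hA : Good D A)
    {E F : Type*} [AddCommGroup E] [Module k E] [FiniteDimensional k E] [AddCommGroup F]
    [Module k F] [FiniteDimensional k F] (hE : finrank k E ≤ D) (hF : finrank k F ≤ D)
    (B : S → E →ₗ[k] F) (hB : Hall B) : Function.Injective (blow A B) := by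
  set eE : E ≃ₗ[k] (Fin (finrank k E) → k) := (Module.finBasis k E).equivFun with heE
  set eF : F ≃ₗ[k] (Fin (finrank k F) → k) := (Module.finBasis k F).equivFun with heF
  set B' : S → (Fin (finrank k E) → k) →ₗ[k] (Fin (finrank k F) → k) := fun s =>
    (eF : F →ₗ[k] (Fin (finrank k F) → k)) ∘ₗ B s ∘ₗ (eE.symm : (Fin (finrank k E) → k) →ₗ[k] E) with hB'
  have hH : Hall B' := by
    intro R
    have h1 := hB (R.map (eE.symm : (Fin (finrank k E) → k) →ₗ[k] E))
    have h2 : finrank k ↥(R.map (eE.symm : (Fin (finrank k E) → k) →ₗ[k] E)) = finrank k R :=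
      LinearEquiv.finrank_map_eq eE.symm R
    have h3 : (⨆ s, R.map (B' s)) =
        (⨆ s, (R.map (eE.symm : (Fin (finrank k E) → k) →ₗ[k] E)).map (B s)).map (eF : F →ₗ[k] (Fin (finrank k F) → k)) := by
      rw [Submodule.map_iSup]
      refine iSup_congr fun s => ?_
      rw [hB', ← Submodule.map_comp, ← Submodule.map_comp]
      rfl
    have h4 : finrank k ↥((⨆ s, (R.map (eE.symm : (Fin (finrank k E) → k) →ₗ[k] E)).map (B s)).map
        (eF : F →ₗ[k] (Fin (finrank k F) → k))) = finrank k ↥(⨆ s, (R.map (eE.symm : (Fin (finrank k E) → k) →ₗ[k] E)).map (B s)) :=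
      LinearEquiv.finrank_map_eq eF _
    rw [h3, h4, ← h2]
    exact h1
  have hinj := hA _ _ hE hF B' hH
  intro x y hxy
  have key : ∀ z : Fin d → E, blow A B' (fun j => eE (z j)) = fun i => eF (blow A B z i) := by
    intro z
    funext i
    rw [blow_apply, blow_apply, map_sum]
    refine Finset.sum_congr rfl fun s _ => ?_
    rw [map_sum]
    refine Finset.sum_congr rfl fun j _ => ?_
    rw [map_smul]
    simp [hB']
  have h1 : blow A B' (fun j => eE (x j)) = blow A B' (fun j => eE (y j)) := by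
    rw [key, key, hxy]
  have h2 := hinj h1
  funext j
  exact eE.injective (congrFun h2 j)

theorem finrank_map_mkQ {M : Type*} [AddCommGroup M] [Module k M] (U R : Submodule k M)
    [FiniteDimensional k R] (h : U ≤ R) :
    finrank k ↥(R.map U.mkQ) + finrank k U = finrank k R := by
  have h1 := LinearMap.finrank_range_add_finrank_ker (U.mkQ.domRestrict R)
  rw [LinearMap.range_domRestrict, LinearMap.ker_domRestrict, Submodule.ker_mkQ] at h1
  rw [← h1]
  congr 1
  exact (Submodule.submoduleOfEquivOfLe h).finrank_eq.symm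

/-- P3b. -/
theorem Good.rel {D d : ℕ} {A : S → Matrix (Fin d) (Fin d) k} (hA : Good D A)
    {M : Type*} [AddCommGroup M] [Module k M] (t : S → M →ₗ[k] M) (U₁ U₂ W₁ W₂ : Submodule k M)
    [FiniteDimensional k U₂] [FiniteDimensional k W₂] (hU : U₁ ≤ U₂) (hW : W₁ ≤ W₂)
    (h1 : ∀ s, U₁.map (t s) ≤ W₁) (h2 : ∀ s, U₂.map (t s) ≤ W₂)
    (hd1 : finrank k U₂ ≤ finrank k U₁ + D) (hd2 : finrank k W₂ ≤ finrank k W₁ + D)
    (hH : ∀ R : Submodule k M, U₁ ≤ R → R ≤ U₂ →
      finrank k R + finrank k W₁ ≤ finrank k ↥(W₁ ⊔ ⨆ s, R.map (t s)) + finrank k U₁)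
    (x : Fin d → M) (hx : ∀ i, x i ∈ U₂) (hx' : ∀ i, blow A t x i ∈ W₁) :
    ∀ i, x i ∈ U₁ := by
  have hle : ∀ s, U₁ ≤ W₁.comap (t s) := fun s => Submodule.map_le_iff_le_comap.1 (h1 s)
  set T : S → (M ⧸ U₁) →ₗ[k] (M ⧸ W₁) := fun s => Submodule.mapQ U₁ W₁ (t s) (hle s) with hT
  set E : Submodule k (M ⧸ U₁) := U₂.map U₁.mkQ with hEdef
  set F : Submodule k (M ⧸ W₁) := W₂.map W₁.mkQ with hFdef
  have hTcomp : ∀ s, T s ∘ₗ U₁.mkQ = W₁.mkQ ∘ₗ t s := fun s => Submodule.mapQ_mkQ _ _ _
  have hTE : ∀ s, ∀ z ∈ E, T s z ∈ F := by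
    rintro s z ⟨y, hy, rfl⟩
    exact ⟨t s y, h2 s ⟨y, hy, rfl⟩, rfl⟩
  set B : S → E →ₗ[k] F := fun s => (T s).restrict (hTE s) with hBdef
  have hE : finrank k E ≤ D := by
    have : finrank k E + finrank k U₁ = finrank k U₂ := finrank_map_mkQ U₁ U₂ hU
    omega
  have hF : finrank k F ≤ D := by
    have : finrank k F + finrank k W₁ = finrank k W₂ := finrank_map_mkQ W₁ W₂ hW
    omega
  have hHall : Hall B := by
    intro R
    set R₁ : Submodule k (M ⧸ U₁) := R.map E.subtype with hR₁
    set R' : Submodule k M := R₁.comap U₁.mkQ with hR'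
    have hUR : U₁ ≤ R' := by
      intro u hu
      rw [hR', Submodule.mem_comap]
      have : U₁.mkQ u = 0 := (Submodule.Quotient.mk_eq_zero U₁).2 hu
      rw [this]
      exact zero_mem _
    have hRU : R' ≤ U₂ := by
      intro u hu
      rw [hR', Submodule.mem_comap] at hu
      have h3 : U₁.mkQ u ∈ E := (Submodule.map_subtype_le E R) hu
      obtain ⟨y, hy, hyu⟩ := h3
      have h4 : u - y ∈ U₁ := by
        have : U₁.mkQ (u - y) = 0 := by rw [map_sub, hyu, sub_self]
        exact (Submodule.Quotient.mk_eq_zero U₁).1 this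
      have : u = (u - y) + y := by abel
      rw [this]
      exact U₂.add_mem (hU h4) hy
    have hmapR : R'.map U₁.mkQ = R₁ := by
      rw [hR', Submodule.map_comap_eq, Submodule.range_mkQ, top_inf_eq]
    have : FiniteDimensional k R' := Submodule.finiteDimensional_of_le hRU
    have e1 := finrank_map_mkQ U₁ R' hUR
    rw [hmapR] at e1
    have e2 : finrank k R₁ = finrank k R := by
      rw [hR₁]
      exact (Submodule.finrank_map_subtype_eq E R)
    -- the image
    have hsup : W₁ ⊔ ⨆ s, R'.map (t s) ≤ W₂ :=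
      sup_le hW (iSup_le fun s => (Submodule.map_mono hRU).trans (h2 s))
    have : FiniteDimensional k ↥(W₁ ⊔ ⨆ s, R'.map (t s)) :=
      Submodule.finiteDimensional_of_le hsup
    have e3 := finrank_map_mkQ W₁ (W₁ ⊔ ⨆ s, R'.map (t s)) le_sup_left
    have e4 : (W₁ ⊔ ⨆ s, R'.map (t s)).map W₁.mkQ = (⨆ s, R.map (B s)).map F.subtype := by
      rw [Submodule.map_sup, Submodule.map_iSup, Submodule.map_iSup, Submodule.mkQ_map_self,
        bot_sup_eq]
      refine iSup_congr fun s => ?_
      rw [← Submodule.map_comp, ← Submodule.map_comp, ← hTcomp, Submodule.map_comp, hmapR, hR₁,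
        ← Submodule.map_comp]
      rfl
    have e5 : finrank k ↥((⨆ s, R.map (B s)).map F.subtype) = finrank k ↥(⨆ s, R.map (B s)) :=
      (Submodule.finrank_map_subtype_eq F _)
    have := hH R' hUR hRU
    rw [e4, e5] at e3
    omega
  have hinj := hA.inj hE hF B hHall
  set xb : Fin d → E := fun i => ⟨U₁.mkQ (x i), ⟨x i, hx i, rfl⟩⟩ with hxb
  have hz : blow A B xb = 0 := by
    funext i
    apply Subtype.ext
    have h3 : ((blow A B xb i : F) : M ⧸ W₁) = W₁.mkQ (blow A t x i) := by
      rw [blow_apply, blow_apply, map_sum]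
      simp only [AddSubmonoidClass.coe_finsetSum]
      refine Finset.sum_congr rfl fun s _ => ?_
      rw [map_sum]
      refine Finset.sum_congr rfl fun j _ => ?_
      rw [map_smul]
      rfl
    rw [h3]
    exact (Submodule.Quotient.mk_eq_zero W₁).2 (hx' i)
  have hxb0 : xb = 0 := hinj (by rw [hz, map_zero])
  intro i
  have h3 := congrFun hxb0 i
  have h4 : U₁.mkQ (x i) = 0 := congrArg Subtype.val h3
  exact (Submodule.Quotient.mk_eq_zero U₁).1 h4

/-- P3c. -/
theorem Good.isUnit {D d : ℕ} {A : S → Matrix (Fin d) (Fin d) k} (hA : Good D A) (hD : 1 ≤ D)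
    (β : S → k) (hβ : β ≠ 0) : IsUnit (∑ s, β s • A s) := by
  set B : S → (Fin 1 → k) →ₗ[k] (Fin 1 → k) := fun s => β s • LinearMap.id with hB
  obtain ⟨s₀, hs₀⟩ : ∃ s, β s ≠ 0 := by
    by_contra h
    push Not at h
    exact hβ (funext h)
  have hHall : Hall B := by
    intro R
    refine Submodule.finrank_mono ?_
    intro r hr
    refine Submodule.mem_iSup_of_mem s₀ ⟨(β s₀)⁻¹ • r, R.smul_mem _ hr, ?_⟩
    simp [hB, smul_smul, inv_mul_cancel₀ hs₀]
  have hinj := hA 1 1 hD hD B hHall
  rw [← Matrix.mulVec_injective_iff_isUnit]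
  intro u v huv
  have h1 : blow A B (fun j _ => u j) = blow A B (fun j _ => v j) := by
    have key : ∀ w : Fin d → k, ∀ i l, blow A B (fun j _ => w j) i l =
        (∑ s, β s • A s).mulVec w i := by
      intro w i l
      rw [blow_apply]
      simp only [hB, Matrix.mulVec, dotProduct, Finset.sum_apply, Matrix.sum_apply, Pi.smul_apply,
        LinearMap.smul_apply, LinearMap.id_coe, id_eq, smul_eq_mul, Matrix.smul_apply,
        Finset.sum_mul]
      rw [Finset.sum_comm]
      refine Finset.sum_congr rfl fun j _ => Finset.sum_congr rfl fun s _ => ?_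
      ring
    funext i l
    rw [key, key, huv]
  have h2 := hinj h1
  funext j
  exact congrFun (congrFun h2 j) 0

end MP331e4fBw
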