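import Pool.Agent.Lib_MP_331e4f_bw.Thin
import Pool.Agent.Lib_MP_331e4f_am.Inj

/-!
# Thin groups are amenable
-/

namespace MP331e4fBw

open MP331e4f (aug AugRad)

/-- thin groups satisfy Følner's condition -/
theorem Thin.amen {p : ℕ} [Fact p.Prime] {H : Type*} [Group H] (h : Thin p H) :
    MP331e4fAm.Amen H := by
  by_contra hn
  obtain ⟨m, Φ, hm, hε, hinj⟩ := MP331e4fAm.exists_inj (ZMod p) hn
  obtain ⟨n, hN⟩ := h m Φ hε
  have key : ∀ n : ℕ, ∀ x : Fin m → MonoidAlgebra (ZMod p) H, (Φ ^ n).mulVec x = 0 → x = 0 := by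
    intro n
    induction n with
    | zero => intro x hx; simpa using hx
    | succ n ih =>
      intro x hx
      apply ih
      apply hinj
      rw [Matrix.mulVec_mulVec, ← pow_succ']
      exact hx
  have h1 := key n (fun _ => 1) (by rw [hN, Matrix.zero_mulVec])
  have h2 := congrFun h1 ⟨0, hm⟩
  simp at h2

end MP331e4fBw
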