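import Pool.Agent.Lib_MP_331e4f_bw.Thin

/-!
# Numbers of words modulo `p` in thin groups
-/

namespace MP331e4fBw

open MP331e4f (aug AugRad)

/-- powers of square matrices over `F_p[H]`, `H` thin, are eventually periodic -/
theorem Thin.pow_eq_pow {p : ℕ} [Fact p.Prime] {H : Type*} [Group H] (h : Thin p H) {d : ℕ}
    (T : Matrix (Fin d) (Fin d) (MonoidAlgebra (ZMod p) H)) :
    ∃ a b : ℕ, a < b ∧ T ^ a = T ^ b := by
  classical
  rcases subsingleton_or_nontrivial (Matrix (Fin d) (Fin d) (MonoidAlgebra (ZMod p) H)) with h1 | h1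
  · exact ⟨0, 1, one_pos, Subsingleton.elim _ _⟩
  -- the augmentation matrix
  set ε : Matrix (Fin d) (Fin d) (MonoidAlgebra (ZMod p) H) →+* Matrix (Fin d) (Fin d) (ZMod p) :=
    (aug (ZMod p) H).toRingHom.mapMatrix with hε
  obtain ⟨a, b, hab, hpow⟩ : ∃ a b : ℕ, a < b ∧ ε T ^ a = ε T ^ b := by
    obtain ⟨a, b, hne, h1⟩ := Finite.exists_ne_map_eq_of_infinite fun n : ℕ => ε T ^ n
    rcases lt_or_gt_of_ne hne with h2 | h2
    · exact ⟨a, b, h2, h1⟩
    · exact ⟨b, a, h2, h1.symm⟩
  have h0 : ∀ i j, aug (ZMod p) H ((T ^ b - T ^ a) i j) = 0 := by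
    intro i j
    have h1 : ε (T ^ b - T ^ a) = 0 := by
      rw [map_sub, map_pow, map_pow, hpow, sub_self]
    exact congrFun (congrFun h1 i) j
  obtain ⟨n, hn⟩ := h d _ h0
  have hchar : CharP (Matrix (Fin d) (Fin d) (MonoidAlgebra (ZMod p) H)) p :=
    charP_of_injective_algebraMap
      (algebraMap (ZMod p) (Matrix (Fin d) (Fin d) (MonoidAlgebra (ZMod p) H))).injective p
  have hpn : n ≤ p ^ n := (Nat.lt_pow_self (Fact.out : p.Prime).one_lt).le
  have h2 : (T ^ b - T ^ a) ^ p ^ n = 0 := pow_eq_zero_of_le hpn hn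
  have hcomm : Commute (T ^ b) (T ^ a) := (Commute.refl T).pow_pow b a
  rw [sub_pow_char_pow_of_commute p n hcomm, sub_eq_zero, ← pow_mul, ← pow_mul] at h2
  refine ⟨a * p ^ n, b * p ^ n, ?_, h2.symm⟩
  exact Nat.mul_lt_mul_of_pos_right hab (pow_pos (Fact.out : p.Prime).pos n)

/-- in a thin group all but finitely many points `x` are such that the number of words of any length
leading to `x` is divisible by `p` -/
theorem Thin.finite_words {p : ℕ} [Fact p.Prime] {H : Type*} [Group H] (h : Thin p H)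
    (S : Finset H) {X : Type*} [MulAction H X] (x₁ : X) :
    {x : X | ∃ n : ℕ, ¬ p ∣ Nat.card {w : Fin n → S //
      (List.ofFn fun i => (w i : H)).prod • x₁ = x}}.Finite := by
  classical
  set y : MonoidAlgebra (ZMod p) H := ∑ s : S, MonoidAlgebra.single (s : H) 1 with hy
  obtain ⟨a, b, hab, hT⟩ := h.pow_eq_pow (d := 1) (Matrix.of fun _ _ => y)
  have hpow1 : ∀ n : ℕ, (Matrix.of fun _ _ => y : Matrix (Fin 1) (Fin 1)
      (MonoidAlgebra (ZMod p) H)) ^ n = Matrix.of fun _ _ => y ^ n := by
    intro n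
    induction n with
    | zero =>
      ext i j
      have : i = j := Subsingleton.elim _ _
      subst this
      simp
    | succ n ih =>
      rw [pow_succ, ih]
      ext i j
      simp [Matrix.mul_apply, pow_succ]
  have hyab : y ^ a = y ^ b := by
    have h1 := congrFun (congrFun hT 0) 0
    rw [hpow1, hpow1] at h1
    exact h1
  have hfin : ∀ n : ℕ, ∃ i < b, y ^ n = y ^ i := by
    intro n
    induction n using Nat.strong_induction_on with
    | _ n ih =>
      by_cases hn : n < b
      · exact ⟨n, hn, rfl⟩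
      · obtain ⟨i, hi, hi'⟩ := ih (n - b + a) (by omega)
        refine ⟨i, hi, ?_⟩
        rw [← hi', pow_add, hyab, ← pow_add]
        congr 1
        omega
  have hsum : ∀ n : ℕ, y ^ n = ∑ w : Fin n → S,
      MonoidAlgebra.single ((List.ofFn fun i => (w i : H)).prod) (1 : ZMod p) := by
    intro n
    induction n with
    | zero => simp [MonoidAlgebra.one_def]
    | succ n ih =>
      rw [pow_succ', ih, hy, Finset.sum_mul_sum, ← (Fin.consEquiv fun _ : Fin (n + 1) => S).sum_comp,
        Fintype.sum_prod_type]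
      refine Finset.sum_congr rfl fun s _ => Finset.sum_congr rfl fun w _ => ?_
      rw [MonoidAlgebra.single_mul_single, one_mul]
      simp [Fin.consEquiv, List.ofFn_succ]
  set F : Finset X := (Finset.range b).biUnion fun i => (y ^ i).coeff.support.image fun g => g • x₁
    with hF
  refine Set.Finite.subset F.finite_toSet ?_
  rintro x ⟨n, hn⟩
  by_contra hx
  apply hn
  -- the coefficient functional
  obtain ⟨ℓ, hℓ0⟩ : ∃ ℓ : MonoidAlgebra (ZMod p) H →+ ZMod p, ∀ z, ℓ z =
      z.coeff.sum fun g c => if g • x₁ = x then c else 0 :=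
    ⟨{ toFun := fun z => z.coeff.sum fun g c => if g • x₁ = x then c else 0
       map_zero' := by simp
       map_add' := fun z z' => by
         rw [MonoidAlgebra.coeff_add]
         exact Finsupp.sum_add_index' (by intro g; simp) (by intro g c c'; split_ifs <;> simp) },
      fun z => rfl⟩
  have hℓ : ∀ g, ℓ (MonoidAlgebra.single g 1) = if g • x₁ = x then 1 else 0 := by
    intro g
    rw [hℓ0, MonoidAlgebra.coeff_single, Finsupp.sum_single_index (by simp)]
  have h1 : ℓ (y ^ n) = 0 := by
    obtain ⟨i, hi, hi'⟩ := hfin n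
    rw [hi', hℓ0, Finsupp.sum]
    refine Finset.sum_eq_zero fun g hg => ?_
    rw [if_neg]
    intro hgx
    apply hx
    rw [hF, Finset.mem_coe, Finset.mem_biUnion]
    exact ⟨i, Finset.mem_range.2 hi, Finset.mem_image.2 ⟨g, hg, hgx⟩⟩
  rw [hsum, map_sum] at h1
  simp only [hℓ] at h1
  rw [Finset.sum_boole, ← Fintype.card_subtype] at h1
  rw [Nat.card_eq_fintype_card]
  exact (CharP.cast_eq_zero_iff (ZMod p) p _).1 h1

end MP331e4fBw
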