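import Pool.Agent.Lib_MP_331e4f_bw.Thin

/-!
# P11: groups acting on the `p`-regular tree with non-zero label sums

`P` acts on the words over `ZMod p` by `w z ↦ (g w) (z + c g w)`. If `P` is finitely generated and on
every level `n` some element has a non-zero label sum, then `P` is not thin.

Proof. Take generators `s ∈ S` and `a_s` in a finite field `L` of characteristic `p`, linearly
independent over `F_p`, `y = ∑ a_s (s⁻¹ - 1)`. If `P` is thin, then `y^N = 0` for some `N`. Let `y` act
on the functions `f` on the words of length `n`, `(y f) w = ∑ a_s (f (s w) - f w)`. By induction on `n`,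
all `f` with `y f = 0` are constant: on level `n + 1` let `D f (w z) = f (w (z + 1)) - f (w z)`, which
commutes with `y`; by induction on the least `k` with `D^k f = 0`, `D f = γ` is constant, so
`f (w z) = h w + z γ`, and the sum over `w` of `y f (w 0) = 0` gives `γ ∑ a_s (∑_w c s w) = 0`, so
`γ = 0`, and `h` is constant by the induction on `n`. So the kernel of `y` has dimension `1`, and
`p^n ≤ N`.
-/

namespace MP331e4fBw

open MP331e4f (aug AugRad)

section Ext

variable {k : Type*} [Field k] {H : Type*} [Group H] {L : Type*} [Field L] [Algebra k L]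
variable {ι : Type*} [Fintype ι] [DecidableEq ι] (b : Module.Basis ι k L)

/-- the matrix over `k[H]` of an element of `L[H]` -/
private noncomputable def toMat : MonoidAlgebra L H →+* Matrix ι ι (MonoidAlgebra k H) :=
  MonoidAlgebra.liftNCRingHom
    ((algebraMap k (MonoidAlgebra k H)).mapMatrix.comp (Algebra.leftMulMatrix b).toRingHom)
    ((Matrix.scalar ι).toMonoidHom.comp (MonoidAlgebra.of k H))
    (by
      intro x g
      refine Matrix.ext fun i j => ?_
      simp only [RingHom.coe_comp, Function.comp_apply, RingHom.mapMatrix_apply,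
        MonoidHom.coe_comp, RingHom.toMonoidHom_eq_coe, MonoidHom.coe_coe, Matrix.scalar_apply,
        Matrix.mul_diagonal, Matrix.diagonal_mul, Matrix.map_apply]
      exact Algebra.commutes _ _)

private theorem toMat_single (g : H) (a : L) (i j : ι) :
    toMat b (MonoidAlgebra.single g a) i j =
      MonoidAlgebra.single g (Algebra.leftMulMatrix b a i j) := by
  rw [toMat, MonoidAlgebra.liftNCRingHom_single]
  simp [Matrix.mul_diagonal, MonoidAlgebra.single_mul_single]

private theorem toMat_coeff (x : MonoidAlgebra L H) (i j : ι) (g : H) :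
    (toMat b x i j).coeff g = Algebra.leftMulMatrix b (x.coeff g) i j := by
  classical
  induction x using MonoidAlgebra.induction_linear with
  | zero => simp
  | add x y hx hy => simp [hx, hy]
  | single h a =>
    rw [toMat_single]
    by_cases hg : h = g
    · subst hg; simp
    · simp [MonoidAlgebra.coeff_single, Finsupp.single_eq_of_ne (Ne.symm hg)]

private theorem aug_toMat (x : MonoidAlgebra L H) (i j : ι) :
    aug k H (toMat b x i j) = Algebra.leftMulMatrix b (aug L H x) i j := by
  induction x using MonoidAlgebra.induction_linear with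
  | zero => simp
  | add x y hx hy => simp [hx, hy]
  | single h a => rw [toMat_single, MP331e4f.aug_single, MP331e4f.aug_single]

private theorem toMat_injective : Function.Injective (toMat (H := H) b) := by
  rw [injective_iff_map_eq_zero]
  intro x hx
  ext g
  apply Algebra.leftMulMatrix_injective b
  refine Matrix.ext fun i j => ?_
  rw [← toMat_coeff, hx]
  simp

end Ext

/-- P11a. Elements of augmentation zero over a finite extension field are nilpotent. -/
theorem Thin.nilpotent_ext {p : ℕ} [Fact p.Prime] {H : Type*} [Group H] (h : Thin p H)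
    (L : Type*) [Field L] [Algebra (ZMod p) L] [FiniteDimensional (ZMod p) L]
    (y : MonoidAlgebra L H) (hy : aug L H y = 0) : IsNilpotent y := by
  classical
  let b := Module.finBasis (ZMod p) L
  obtain ⟨n, hn⟩ := h _ (toMat b y) (by
    intro i j
    rw [aug_toMat, hy, map_zero]
    rfl)
  refine ⟨n, toMat_injective b ?_⟩
  rw [map_pow, hn, map_zero]

private theorem finrank_ker_pow {L V : Type*} [Field L] [AddCommGroup V] [Module L V]
    [FiniteDimensional L V] (Y : Module.End L V) (hY : Module.finrank L (LinearMap.ker Y) ≤ 1) :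
    ∀ k : ℕ, Module.finrank L (LinearMap.ker (Y ^ k)) ≤ k := by
  intro k
  induction k with
  | zero =>
    rw [pow_zero]
    have : LinearMap.ker (1 : Module.End L V) = ⊥ := LinearMap.ker_eq_bot.2 fun x y h => h
    rw [this, finrank_bot]
  | succ k ih =>
    let g := (Y ^ k).domRestrict (LinearMap.ker (Y ^ (k + 1)))
    have h1 : LinearMap.range g ≤ LinearMap.ker Y := by
      rintro _ ⟨x, rfl⟩
      have h2 : (Y ^ (k + 1)) x.1 = 0 := x.2
      have h3 : Y ((Y ^ k) x.1) = 0 := by
        rw [← Module.End.mul_apply, ← pow_succ']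
        exact h2
      exact h3
    have h2 : Module.finrank L (LinearMap.ker g) ≤ Module.finrank L (LinearMap.ker (Y ^ k)) := by
      have h3 : ∀ x : LinearMap.ker g, (x : V) ∈ LinearMap.ker (Y ^ k) := fun x => x.2
      let j : LinearMap.ker g →ₗ[L] LinearMap.ker (Y ^ k) :=
        LinearMap.codRestrict _ ((LinearMap.ker (Y ^ (k + 1))).subtype ∘ₗ (LinearMap.ker g).subtype)
          h3
      refine LinearMap.finrank_le_finrank_of_injective (f := j) ?_
      intro x y hxy
      have := congrArg Subtype.val hxy
      exact Subtype.ext (Subtype.ext this)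
    have h3 := LinearMap.finrank_range_add_finrank_ker g
    have h4 := Submodule.finrank_mono h1
    omega

section Tree

variable {p : ℕ} [Fact p.Prime] {P : Type*} [Group P] (φ : P →* Equiv.Perm (List (ZMod p)))
  (c : P → List (ZMod p) → ZMod p)

private theorem length_act (h0 : ∀ g, φ g [] = [])
    (h1 : ∀ g w z, φ g (w ++ [z]) = φ g w ++ [z + c g w]) (g : P) (l : List (ZMod p)) :
    (φ g l).length = l.length := by
  induction l using List.reverseRecOn with
  | nil => rw [h0]
  | append_singleton l a ih => rw [h1]; simp [ih]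

private theorem c_mul (h1 : ∀ g w z, φ g (w ++ [z]) = φ g w ++ [z + c g w]) (g h : P)
    (w : List (ZMod p)) : c (g * h) w = c g (φ h w) + c h w := by
  have e1 := h1 (g * h) w 0
  rw [map_mul, Equiv.Perm.mul_apply, h1 h w, h1 g] at e1
  have := List.append_inj_right' e1 rfl
  simpa [add_comm] using this.symm

/-- the action on the words of length `n` -/
private def act (hlen : ∀ g l, (φ g l).length = l.length) (n : ℕ) :
    P →* Equiv.Perm (List.Vector (ZMod p) n) where
  toFun g := (φ g).subtypePerm (fun l => by rw [hlen])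
  map_one' := by
    refine Equiv.ext fun w => Subtype.ext ?_
    show φ 1 w.1 = w.1
    rw [map_one]; rfl
  map_mul' g h := by
    refine Equiv.ext fun w => Subtype.ext ?_
    show φ (g * h) w.1 = φ g (φ h w.1)
    rw [map_mul]; rfl

private def snoc {n : ℕ} (l : List.Vector (ZMod p) n) (z : ZMod p) :
    List.Vector (ZMod p) (n + 1) := ⟨l.1 ++ [z], by simp [l.2]⟩

private theorem exists_snoc {n : ℕ} (v : List.Vector (ZMod p) (n + 1)) :
    ∃ l : List.Vector (ZMod p) n, ∃ z, v = snoc l z := by
  obtain ⟨v, hv⟩ := v
  induction v using List.reverseRecOn with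
  | nil => simp at hv
  | append_singleton l a ih => exact ⟨⟨l, by simpa using hv⟩, a, rfl⟩

variable {L : Type*} [Field L] [Algebra (ZMod p) L]

variable (p L) in
private def D : Module.End L (ZMod p → L) := LinearMap.funLeft L L (fun z => z + 1) - 1

private theorem D_apply (f : ZMod p → L) (z : ZMod p) : D p L f z = f (z + 1) - f z := rfl

private theorem D_pow : D p L ^ p = 0 := by
  have hc : CharP L p := charP_of_injective_algebraMap (algebraMap (ZMod p) L).injective p
  have : CharP (Module.End L (ZMod p → L)) p :=
    charP_of_injective_algebraMap (algebraMap L (Module.End L (ZMod p → L))).injective p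
  have h1 : ∀ (k : ℕ) (f : ZMod p → L) (z : ZMod p),
      ((LinearMap.funLeft L L (fun z : ZMod p => z + 1) : Module.End L (ZMod p → L)) ^ k) f z =
        f (z + k) := by
    intro k
    induction k with
    | zero => intro f z; simp
    | succ k ih =>
      intro f z
      rw [pow_succ', Module.End.mul_apply]
      show ((LinearMap.funLeft L L (fun z : ZMod p => z + 1) : Module.End L (ZMod p → L)) ^ k) f
        (z + 1) = _
      rw [ih]
      push_cast
      rw [add_assoc, add_comm (1 : ZMod p)]
  unfold D
  rw [sub_pow_char_of_commute _ (Commute.one_right _), one_pow, sub_eq_zero]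
  refine LinearMap.ext fun f => funext fun z => ?_
  rw [h1, CharP.cast_eq_zero, add_zero]
  rfl

private theorem act_snoc (hlen : ∀ g l, (φ g l).length = l.length)
    (h1 : ∀ g w z, φ g (w ++ [z]) = φ g w ++ [z + c g w]) {n : ℕ} (g : P)
    (l : List.Vector (ZMod p) n) (z : ZMod p) :
    act φ hlen (n + 1) g (snoc l z) = snoc (act φ hlen n g l) (z + c g l.1) :=
  Subtype.ext (h1 g l.1 z)

/-- the induction on `k` -/
private theorem const_of_D_pow (hlen : ∀ g l, (φ g l).length = l.length) {S : Finset P} (a : S → L)
    (n : ℕ) (hσ : ∑ s : S, (∑ w : List.Vector (ZMod p) n, c s w.1) • a s ≠ 0)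
    (hn : ∀ f : List.Vector (ZMod p) n → L,
      (∀ w, ∑ s : S, a s * (f (act φ hlen n s w) - f w) = 0) → ∃ γ, ∀ w, f w = γ) (k : ℕ) :
    ∀ F : List.Vector (ZMod p) n → ZMod p → L,
      (∀ l z, ∑ s : S, a s * (F (act φ hlen n s l) (z + c s l.1) - F l z) = 0) →
      (∀ l, (D p L ^ k) (F l) = 0) → ∃ γ, ∀ l z, F l z = γ := by
  induction k with
  | zero =>
    intro F _ h
    exact ⟨0, fun l z => congrFun (h l) z⟩
  | succ k ih =>
    intro F hF h
    obtain ⟨γ, hγ⟩ := ih (fun l => D p L (F l)) (by
      intro l z
      have e1 := hF l (z + 1)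
      have e2 := hF l z
      calc ∑ s : S, a s * (D p L (F (act φ hlen n s l)) (z + c s l.1) - D p L (F l) z)
          = ∑ s : S, a s * (F (act φ hlen n s l) (z + 1 + c s l.1) - F l (z + 1)) -
            ∑ s : S, a s * (F (act φ hlen n s l) (z + c s l.1) - F l z) := by
            rw [← Finset.sum_sub_distrib]
            refine Finset.sum_congr rfl fun s _ => ?_
            rw [D_apply, D_apply, add_right_comm]
            ring
        _ = 0 := by rw [e1, e2, sub_zero]) (by
      intro l
      have := h l
      rw [pow_succ, Module.End.mul_apply] at this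
      exact this)
    have h2 : ∀ l (j : ℕ), F l (j : ZMod p) = F l 0 + (j : ZMod p) • γ := by
      intro l j
      induction j with
      | zero => simp
      | succ j ihj =>
        have e1 := hγ l (j : ZMod p)
        rw [D_apply, sub_eq_iff_eq_add] at e1
        push_cast
        rw [e1, ihj, add_smul, one_smul]
        ring
    have h3 : ∀ l (z : ZMod p), F l z = F l 0 + z • γ := by
      intro l z
      have := h2 l z.val
      rwa [ZMod.natCast_zmod_val] at this
    have h4 : γ = 0 := by
      have e1 : ∀ l, ∑ s : S, (a s * (F (act φ hlen n s l) 0 - F l 0) + (c s l.1) • (a s * γ)) = 0 := by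
        intro l
        have := hF l 0
        rw [← this]
        refine Finset.sum_congr rfl fun s _ => ?_
        rw [zero_add, h3 (act φ hlen n s l) (c s l.1), ← mul_smul_comm]
        ring
      have e2 : ∑ l : List.Vector (ZMod p) n,
          ∑ s : S, (a s * (F (act φ hlen n s l) 0 - F l 0) + (c s l.1) • (a s * γ)) = 0 :=
        Finset.sum_eq_zero fun l _ => e1 l
      rw [Finset.sum_comm] at e2
      have e3 : ∀ s : S, ∑ l : List.Vector (ZMod p) n,
          (a s * (F (act φ hlen n s l) 0 - F l 0) + (c s l.1) • (a s * γ)) =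
          ((∑ w : List.Vector (ZMod p) n, c s w.1) • a s) * γ := by
        intro s
        rw [Finset.sum_add_distrib, ← Finset.mul_sum, Finset.sum_sub_distrib,
          Equiv.sum_comp (act φ hlen n s) (fun l => F l 0), sub_self, mul_zero, zero_add,
          ← Finset.sum_smul, smul_mul_assoc]
      rw [Finset.sum_congr rfl fun s _ => e3 s, ← Finset.sum_mul] at e2
      exact (mul_eq_zero.1 e2).resolve_left hσ
    have h5 : ∀ l z, F l z = F l 0 := by
      intro l z
      rw [h3, h4, smul_zero, add_zero]
    obtain ⟨δ, hδ⟩ := hn (fun l => F l 0) (by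
      intro l
      have := hF l 0
      rw [← this]
      refine Finset.sum_congr rfl fun s _ => ?_
      rw [h5 _ (0 + c s l.1)])
    exact ⟨δ, fun l z => by rw [h5, hδ]⟩

private theorem ker_const (hlen : ∀ g l, (φ g l).length = l.length)
    (h1 : ∀ g w z, φ g (w ++ [z]) = φ g w ++ [z + c g w]) {S : Finset P} (a : S → L)
    (hσ : ∀ n, ∑ s : S, (∑ w : List.Vector (ZMod p) n, c s w.1) • a s ≠ 0) (n : ℕ) :
    ∀ f : List.Vector (ZMod p) n → L,
      (∀ w, ∑ s : S, a s * (f (act φ hlen n s w) - f w) = 0) → ∃ γ, ∀ w, f w = γ := by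
  induction n with
  | zero =>
    intro f _
    refine ⟨f ⟨[], rfl⟩, fun w => ?_⟩
    have : w = ⟨[], rfl⟩ := Subtype.ext (List.length_eq_zero_iff.1 w.2)
    rw [this]
  | succ n ih =>
    intro f hf
    obtain ⟨γ, hγ⟩ := const_of_D_pow φ c hlen a n (hσ n) ih p (fun l z => f (snoc l z))
      (fun l z => by
        have := hf (snoc l z)
        rw [← this]
        refine Finset.sum_congr rfl fun s _ => ?_
        rw [act_snoc φ c hlen h1])
      (fun l => by rw [D_pow]; rfl)
    refine ⟨γ, fun w => ?_⟩
    obtain ⟨l, z, rfl⟩ := exists_snoc w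
    exact hγ l z

/-- the representation on the functions on the words of length `n` -/
private def rep (hlen : ∀ g l, (φ g l).length = l.length) (n : ℕ) :
    P →* Module.End L (List.Vector (ZMod p) n → L) where
  toFun g := LinearMap.funLeft L L (act φ hlen n g⁻¹)
  map_one' := by
    refine LinearMap.ext fun f => funext fun w => ?_
    rw [inv_one, map_one]
    rfl
  map_mul' g h := by
    refine LinearMap.ext fun f => funext fun w => ?_
    rw [mul_inv_rev, map_mul]
    rfl

end Tree

open Classical in
/-- P11b. -/
theorem not_thin_of_labels {p : ℕ} [Fact p.Prime] {P : Type*} [Group P] (hfg : Group.FG P)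
    (φ : P →* Equiv.Perm (List (ZMod p))) (c : P → List (ZMod p) → ZMod p)
    (h0 : ∀ g, φ g [] = []) (h1 : ∀ g w z, φ g (w ++ [z]) = φ g w ++ [z + c g w])
    (hσ : ∀ n : ℕ, ∃ g : P, ∑ w : Fin n → ZMod p, c g (List.ofFn w) ≠ 0) : ¬ Thin p P := by
  intro h
  have hlen := length_act φ c h0 h1
  obtain ⟨S, hS⟩ := Group.fg_def.1 hfg
  let L := GaloisField p (S.card + 1)
  have : FiniteDimensional (ZMod p) L := inferInstance
  obtain ⟨a, ha⟩ : ∃ a : S → L, LinearIndependent (ZMod p) a := by
    let b := Module.finBasis (ZMod p) L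
    have h2 : Module.finrank (ZMod p) L = S.card + 1 := GaloisField.finrank p (Nat.succ_ne_zero _)
    let e : S ↪ Fin (Module.finrank (ZMod p) L) :=
      (S.equivFin.toEmbedding.trans (Fin.castLEEmb (by omega)))
    exact ⟨fun s => b (e s), b.linearIndependent.comp e e.injective⟩
  have hσ' : ∀ n, ∑ s : S, (∑ w : List.Vector (ZMod p) n, c s w.1) • a s ≠ 0 := by
    intro n hn
    have h2 := Fintype.linearIndependent_iff.1 ha _ hn
    let σ : P →* Multiplicative (ZMod p) :=
      { toFun := fun g => Multiplicative.ofAdd (∑ w : List.Vector (ZMod p) n, c g w.1)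
        map_one' := by
          have e1 : ∀ w, c 1 w = 0 := by
            intro w
            have := c_mul φ c h1 1 1 w
            rw [mul_one, map_one, Equiv.Perm.one_apply] at this
            simpa using this
          simp [e1]
        map_mul' := by
          intro g g'
          have e1 : ∑ w : List.Vector (ZMod p) n, c (g * g') w.1 =
              ∑ w : List.Vector (ZMod p) n, c g w.1 + ∑ w : List.Vector (ZMod p) n, c g' w.1 := by
            rw [← Equiv.sum_comp (act φ hlen n g') (fun w => c g w.1), ← Finset.sum_add_distrib]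
            exact Finset.sum_congr rfl fun w _ => c_mul φ c h1 g g' w.1
          rw [e1]; rfl }
    have h3 : Subgroup.closure (S : Set P) ≤ σ.ker := by
      rw [Subgroup.closure_le]
      intro s hs
      exact h2 ⟨s, hs⟩
    obtain ⟨g, hg⟩ := hσ n
    apply hg
    have h4 : σ g = 1 := h3 (hS ▸ Subgroup.mem_top g)
    have h5 : ∑ w : List.Vector (ZMod p) n, c g w.1 = 0 := h4
    rw [← h5]
    refine Fintype.sum_equiv (Equiv.vectorEquivFin (ZMod p) n).symm _ _ fun w => ?_
    have h6 : List.ofFn w = ((Equiv.vectorEquivFin (ZMod p) n).symm w).1 :=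
      (List.Vector.toList_ofFn w).symm
    rw [h6]
  let y : MonoidAlgebra L P :=
    ∑ s : S, (MonoidAlgebra.single (s : P)⁻¹ (a s) - MonoidAlgebra.single 1 (a s))
  have hy : aug L P y = 0 := by
    rw [map_sum]
    refine Finset.sum_eq_zero fun s _ => ?_
    rw [map_sub, MP331e4f.aug_single, MP331e4f.aug_single, sub_self]
  obtain ⟨N, hN⟩ := h.nilpotent_ext L y hy
  let Y : Module.End L (List.Vector (ZMod p) N → L) := MonoidAlgebra.lift L _ P (rep φ hlen N) y
  have hYN : Y ^ N = 0 := by
    rw [← map_pow, hN, map_zero]
  have hYa : ∀ f w, Y f w = ∑ s : S, a s * (f (act φ hlen N s w) - f w) := by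
    intro f w
    simp only [Y, y, map_sum, map_sub, MonoidAlgebra.lift_single]
    rw [LinearMap.sum_apply, Finset.sum_apply]
    refine Finset.sum_congr rfl fun s _ => ?_
    have e1 : (rep φ hlen N (s : P)⁻¹ : Module.End L (List.Vector (ZMod p) N → L)) f w =
        f (act φ hlen N s w) := by
      show f (act φ hlen N ((s : P)⁻¹)⁻¹ w) = _
      rw [inv_inv]
    rw [map_one, LinearMap.sub_apply, LinearMap.smul_apply, LinearMap.smul_apply, Pi.sub_apply,
      Pi.smul_apply, Pi.smul_apply, e1, Module.End.one_apply, smul_eq_mul, smul_eq_mul, mul_sub]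
  have hker : Module.finrank L (LinearMap.ker Y) ≤ 1 := by
    have e1 : LinearMap.ker Y ≤ Submodule.span L {fun _ => (1 : L)} := by
      intro f hf
      obtain ⟨γ, hγ⟩ := ker_const φ c hlen h1 a hσ' N f (fun w => by
        rw [← hYa, LinearMap.mem_ker.1 hf]; rfl)
      refine Submodule.mem_span_singleton.2 ⟨γ, funext fun w => ?_⟩
      rw [Pi.smul_apply, smul_eq_mul, mul_one, hγ]
    exact (Submodule.finrank_mono e1).trans (finrank_span_le_card _ |>.trans (by simp))
  have h7 := finrank_ker_pow Y hker N
  rw [hYN, LinearMap.ker_zero, finrank_top, Module.finrank_fintype_fun_eq_card, card_vector,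
    ZMod.card] at h7
  exact absurd h7 (not_le.2 (Nat.lt_pow_self (Fact.out : p.Prime).one_lt))

end MP331e4fBw
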