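import Pool.Agent.Lib_MP_331e4f_bw.Cut
import Pool.Agent.Lib_MP_331e4f_bw.Gen
import Pool.Agent.Lib_MP_331e4f_bw.Descend
import Pool.Agent.Lib_MP_331e4f_al.Alg

/-!
# P5: modules of bounded width over local group algebras
-/

open Module

namespace MP331e4fBw

open MP331e4f (aug AugRad)

universe u

section width

variable {k : Type*} [Field k] {P : Type*} [Group P]

/-- the action of a matrix over the group algebra -/
private noncomputable def actMat {M : Type*} [AddCommGroup M] [Module k M]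
    (ρ : Representation k P M) {d : ℕ} (Y : Matrix (Fin d) (Fin d) (MonoidAlgebra k P)) :
    (Fin d → M) →ₗ[k] (Fin d → M) :=
  LinearMap.pi fun i => ∑ j, (ρ.asAlgebraHom (Y i j) : M →ₗ[k] M) ∘ₗ LinearMap.proj j

private theorem actMat_apply {M : Type*} [AddCommGroup M] [Module k M]
    (ρ : Representation k P M) {d : ℕ} (Y : Matrix (Fin d) (Fin d) (MonoidAlgebra k P))
    (x : Fin d → M) (i : Fin d) :
    actMat ρ Y x i = ∑ j, ρ.asAlgebraHom (Y i j) (x j) := by
  simp [actMat]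

private theorem actMat_mul {M : Type*} [AddCommGroup M] [Module k M]
    (ρ : Representation k P M) {d : ℕ} (X Y : Matrix (Fin d) (Fin d) (MonoidAlgebra k P))
    (x : Fin d → M) : actMat ρ (X * Y) x = actMat ρ X (actMat ρ Y x) := by
  funext i
  simp only [actMat_apply, Matrix.mul_apply, map_sum, map_mul, LinearMap.sum_apply,
    Module.End.mul_apply]
  rw [Finset.sum_comm]

private theorem actMat_one {M : Type*} [AddCommGroup M] [Module k M]
    (ρ : Representation k P M) {d : ℕ} (x : Fin d → M) :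
    actMat ρ (1 : Matrix (Fin d) (Fin d) (MonoidAlgebra k P)) x = x := by
  funext i
  rw [actMat_apply, Finset.sum_eq_single i]
  · simp
  · intro j _ hj
    rw [Matrix.one_apply_ne hj.symm, map_zero, LinearMap.zero_apply]
  · simp

private theorem fil_mono {M : Type*} [AddCommGroup M] [Module k M] {N : ℕ}
    {F : ℕ → Submodule k M} (h : ∀ i < N, F i ≤ F (i + 1)) {i j : ℕ} (hij : i ≤ j)
    (hj : j ≤ N) : F i ≤ F j := by
  induction j, hij using Nat.le_induction with
  | base => exact le_rfl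
  | succ j hij ih => exact (ih (by omega)).trans (h j (by omega))

variable (k) in
/-- the element `g` moves a filtration by at most `n` steps, in all representations -/
private def Moves (S : Finset P) (n : ℕ) (g : P) : Prop :=
  ∀ (M : Type u) [AddCommGroup M] [Module k M] (ρ : Representation k P M) (N : ℕ)
    (F : ℕ → Submodule k M), (∀ i < N, F i ≤ F (i + 1)) →
    (∀ i < N, ∀ s : S, (F i).map (ρ s) ≤ F (i + 1)) →
    ∀ i, i + n ≤ N → ∀ x ∈ F i, ρ g x ∈ F (i + n)

private theorem Moves.mono {S : Finset P} {n m : ℕ} {g : P} (h : Moves.{u} k S n g)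
    (hnm : n ≤ m) : Moves.{u} k S m g := by
  intro M _ _ ρ N F h1 h2 i hi x hx
  exact fil_mono h1 (by omega) hi (h M ρ N F h1 h2 i (by omega) x hx)

private theorem Moves.of_mem {S : Finset P} {s : P} (hs : s ∈ S) : Moves.{u} k S 1 s := by
  intro M _ _ ρ N F h1 h2 i hi x hx
  exact h2 i (by omega) ⟨s, hs⟩ ⟨x, hx, rfl⟩

private theorem Moves.one {S : Finset P} : Moves.{u} k S 0 (1 : P) := by
  intro M _ _ ρ N F h1 h2 i hi x hx
  simpa using hx

private theorem Moves.mul {S : Finset P} {a b : P} {n m : ℕ} (ha : Moves.{u} k S n a)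
    (hb : Moves.{u} k S m b) : Moves.{u} k S (n + m) (a * b) := by
  intro M _ _ ρ N F h1 h2 i hi x hx
  have h3 := hb M ρ N F h1 h2 i (by omega) x hx
  have h4 := ha M ρ N F h1 h2 (i + m) (by omega) _ h3
  rw [map_mul, Module.End.mul_apply, show i + (n + m) = i + m + n by omega]
  exact h4

private theorem exists_moves (S : Finset P) (hS : ∀ s ∈ S, s⁻¹ ∈ S)
    (hgen : Subgroup.closure (S : Set P) = ⊤) (g : P) : ∃ n, Moves.{u} k S n g := by
  have key : ∀ g ∈ Subgroup.closure (S : Set P),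
      (∃ n, Moves.{u} k S n g) ∧ ∃ n, Moves.{u} k S n g⁻¹ := by
    intro g hg
    induction hg using Subgroup.closure_induction with
    | mem s hs => exact ⟨⟨1, .of_mem hs⟩, 1, .of_mem (hS s hs)⟩
    | one => exact ⟨⟨0, .one⟩, 0, by rw [inv_one]; exact .one⟩
    | mul a b _ _ ha hb =>
      obtain ⟨⟨n, hn⟩, n', hn'⟩ := ha
      obtain ⟨⟨m, hm⟩, m', hm'⟩ := hb
      refine ⟨⟨n + m, hn.mul hm⟩, m' + n', ?_⟩
      rw [mul_inv_rev]
      exact hm'.mul hn'
    | inv a _ ha => exact ⟨ha.2, by rw [inv_inv]; exact ha.1⟩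
  exact (key g (hgen ▸ Subgroup.mem_top g)).1

private theorem exists_moves_finset (S : Finset P) (hS : ∀ s ∈ S, s⁻¹ ∈ S)
    (hgen : Subgroup.closure (S : Set P) = ⊤) (T : Finset P) :
    ∃ n, ∀ g ∈ T, Moves.{u} k S n g := by
  choose f hf using exists_moves.{u} (k := k) S hS hgen
  exact ⟨T.sup f, fun g hg => (hf g).mono (Finset.le_sup hg)⟩

end width

/-- P5b. -/
theorem bounded_width {p : ℕ} [Fact p.Prime] {P : Type*} [Group P] (hP : AugRad (ZMod p) P)
    (S : Finset P) (h1 : 1 ∈ S) (hS : ∀ s ∈ S, s⁻¹ ∈ S)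
    (hgen : Subgroup.closure (S : Set P) = ⊤) (C : ℕ) :
    ∃ N : ℕ, ∀ (M : Type u) [AddCommGroup M] [Module (ZMod p) M]
      (ρ : Representation (ZMod p) P M) (F : ℕ → Submodule (ZMod p) M),
      Fil (fun s : S => ρ s) C N F →
        ∃ U : Submodule (ZMod p) M, F 0 ≤ U ∧ U ≤ F N ∧ ∀ g, U.map (ρ g) ≤ U := by
  classical
  have hid : ∀ (M : Type u) [AddCommGroup M] [Module (ZMod p) M] (t : S → M →ₗ[ZMod p] M),
      (∃ ρ : Representation (ZMod p) P M, t = fun s : S => ρ s) →
      t ⟨1, h1⟩ = LinearMap.id := by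
    rintro M _ _ t ⟨ρ, rfl⟩
    exact map_one ρ
  have hinv : ∀ (d : ℕ) (A : S → Matrix (Fin d) (Fin d) (ZMod p)),
      (∀ β : S → ZMod p, β ≠ 0 → IsUnit (∑ s, β s • A s)) →
      ∃ n : ℕ, ∀ (M : Type u) [AddCommGroup M] [Module (ZMod p) M] (t : S → M →ₗ[ZMod p] M),
        (∃ ρ : Representation (ZMod p) P M, t = fun s : S => ρ s) →
        ∃ Y : (Fin d → M) →ₗ[ZMod p] (Fin d → M), (∀ x, blow A t (Y x) = x) ∧
          ∀ (N : ℕ) (F : ℕ → Submodule (ZMod p) M), (∀ i < N, F i ≤ F (i + 1)) →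
            (∀ i < N, ∀ s, (F i).map (t s) ≤ F (i + 1)) → ∀ i, i + n ≤ N →
            ∀ x : Fin d → M, (∀ j, x j ∈ F i) → ∀ j, Y x j ∈ F (i + n) := by
    intro d A hA
    set X : Matrix (Fin d) (Fin d) (MonoidAlgebra (ZMod p) P) :=
      fun i j => ∑ s : S, MonoidAlgebra.single (s : P) (A s i j) with hX
    have haug : (aug (ZMod p) P).toRingHom.mapMatrix X = ∑ s : S, (1 : S → ZMod p) s • A s := by
      ext i j
      change aug (ZMod p) P (X i j) = _
      simp [hX, Matrix.sum_apply]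
    have hne : (1 : S → ZMod p) ≠ 0 := fun h => one_ne_zero (congrFun h ⟨1, h1⟩)
    obtain ⟨Y, hY⟩ := hP.exists_inv X (haug ▸ hA 1 hne)
    obtain ⟨n, hn⟩ := exists_moves_finset.{u} (k := ZMod p) S hS hgen
      (Finset.univ.biUnion fun ij : Fin d × Fin d => (Y ij.1 ij.2).coeff.support)
    refine ⟨n, ?_⟩
    rintro M _ _ t ⟨ρ, rfl⟩
    refine ⟨actMat ρ Y, fun x => ?_, ?_⟩
    · have e1 : blow A (fun s : S => ρ s) (actMat ρ Y x) = actMat ρ X (actMat ρ Y x) := by
        funext i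
        rw [blow_apply, actMat_apply, Finset.sum_comm]
        refine Finset.sum_congr rfl fun j _ => ?_
        simp [hX, LinearMap.sum_apply]
      rw [e1, ← actMat_mul, hY, actMat_one]
    · intro N F h3 h4 i hi x hx j
      rw [actMat_apply]
      refine Submodule.sum_mem _ fun l _ => ?_
      rw [Representation.asAlgebraHom_def, MonoidAlgebra.lift_apply, Finsupp.sum,
        LinearMap.sum_apply]
      refine Submodule.sum_mem _ fun g hg => ?_
      rw [LinearMap.smul_apply]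
      refine Submodule.smul_mem _ _ ?_
      exact hn g (Finset.mem_biUnion.2 ⟨(j, l), Finset.mem_univ _, hg⟩) M ρ N F h3 h4 i hi _ (hx l)
  obtain ⟨N, hN⟩ := cut_theorem (k := ZMod p) (S := S) (fun D => exists_good p S D) ⟨1, h1⟩
    (fun M _ _ t => ∃ ρ : Representation (ZMod p) P M, t = fun s : S => ρ s) hid hinv C
  refine ⟨N, fun M _ _ ρ F hF => ?_⟩
  obtain ⟨U, hU0, hU1, hU⟩ := hN M _ ⟨ρ, rfl⟩ F hF
  refine ⟨U, hU0, hU1, fun g => ?_⟩
  have key : ∀ g ∈ Subgroup.closure (S : Set P),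
      (U.map (ρ g) ≤ U) ∧ U.map (ρ g⁻¹) ≤ U := by
    intro g hg
    have hmul : ∀ a b : P, U.map (ρ a) ≤ U → U.map (ρ b) ≤ U → U.map (ρ (a * b)) ≤ U := by
      intro a b ha hb
      rw [map_mul, Module.End.mul_eq_comp, Submodule.map_comp]
      exact (Submodule.map_mono hb).trans ha
    induction hg using Subgroup.closure_induction with
    | mem s hs => exact ⟨hU ⟨s, hs⟩, hU ⟨s⁻¹, hS s hs⟩⟩
    | one =>
      rw [inv_one]
      have : U.map (ρ 1) ≤ U := by
        rw [map_one, Module.End.one_eq_id, Submodule.map_id]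
      exact ⟨this, this⟩
    | mul a b _ _ ha hb =>
      refine ⟨hmul a b ha.1 hb.1, ?_⟩
      rw [mul_inv_rev]
      exact hmul _ _ hb.2 ha.2
    | inv a _ ha => exact ⟨ha.2, by rw [inv_inv]; exact ha.1⟩
  exact (key g (hgen ▸ Subgroup.mem_top g)).1

end MP331e4fBw
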