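import Pool.Agent.Lib_MP_331e4f_bw.Thin

/-!
# P13b: many words, from the finiteness of the support of the powers
-/

namespace MP331e4fBw

open Polynomial

section Words

variable {F : Type*} [Field F] {A : Type*}

/-- the polynomial `∑ i, X ^ (M (n - 1 - i) + idx (w i))` of a word -/
noncomputable def wpoly (F : Type*) [Field F] (M : ℕ) (idx : A → ℕ) : (n : ℕ) → (Fin n → A) → F[X]
  | 0, _ => 0
  | n + 1, w => X ^ M * wpoly F M idx n (Fin.init w) + X ^ idx (w (Fin.last n))

lemma wpoly_injective {M : ℕ} {idx : A → ℕ} (hidx : Function.Injective idx)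
    (hM : ∀ a, idx a < M) (n : ℕ) : Function.Injective (wpoly F M idx n) := by
  induction n with
  | zero => intro w w' _; exact Subsingleton.elim _ _
  | succ n ih =>
    intro w w' h
    have h1 : X ^ M * wpoly F M idx n (Fin.init w) + (X : F[X]) ^ idx (w (Fin.last n)) =
        X ^ M * wpoly F M idx n (Fin.init w') + X ^ idx (w' (Fin.last n)) := h
    have hlast : w (Fin.last n) = w' (Fin.last n) := by
      apply hidx
      by_contra hne
      have h2 := congrArg (fun q : F[X] => q.coeff (idx (w (Fin.last n)))) h1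
      simp only [coeff_add, coeff_X_pow_mul', coeff_X_pow] at h2
      rw [if_neg (not_le.2 (hM _)), if_neg (not_le.2 (hM _)), if_neg hne] at h2
      simp at h2
    have hinit : Fin.init w = Fin.init w' := by
      apply ih
      rw [hlast] at h1
      exact mul_left_cancel₀ (pow_ne_zero M X_ne_zero) (add_right_cancel h1)
    rw [← Fin.snoc_init_self w, ← Fin.snoc_init_self w', hlast, hinit]

/-- the matrix of the substitution `Z ↦ u Z + b` on the polynomials of degree at most `m` -/
noncomputable def substMat (m : ℕ) (u b : F) : Matrix (Fin (m + 1)) (Fin (m + 1)) F :=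
  Matrix.of fun i j => ((C u * X + C b) ^ (j : ℕ)).coeff i

lemma sum_pow_mul_substMat (m : ℕ) (u b β : F) (j : Fin (m + 1)) :
    ∑ i : Fin (m + 1), β ^ (i : ℕ) * substMat m u b i j = (u * β + b) ^ (j : ℕ) := by
  have hdeg : ((C u * X + C b : F[X]) ^ (j : ℕ)).natDegree < m + 1 := by
    have h1 : (C u * X + C b : F[X]).natDegree ≤ 1 := natDegree_linear_le
    have h2 := natDegree_pow_le (p := (C u * X + C b : F[X])) (n := (j : ℕ))
    have h3 := j.2
    calc _ ≤ (j : ℕ) * (C u * X + C b : F[X]).natDegree := h2
      _ ≤ (j : ℕ) * 1 := Nat.mul_le_mul_left _ h1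
      _ < m + 1 := by omega
  have h4 : eval β ((C u * X + C b : F[X]) ^ (j : ℕ)) = (u * β + b) ^ (j : ℕ) := by simp
  rw [← h4, eval_eq_sum_range' hdeg, Finset.sum_range]
  exact Finset.sum_congr rfl fun i _ => mul_comm _ _

variable {P : Type*} [Group P]

/-- the matrix over the group algebra -/
noncomputable def wordMat (m : ℕ) (S : Finset P) (u : F) (b : S → F) :
    Matrix (Fin (m + 1)) (Fin (m + 1)) (MonoidAlgebra F P) :=
  Matrix.of fun i j => ∑ a : S, MonoidAlgebra.single (a : P) (substMat m u (b a) i j)

lemma wordMat_pow (m : ℕ) (S : Finset P) (u : F) (M : ℕ) (idx : S → ℕ) (n : ℕ)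
    (j : Fin (m + 1)) :
    ((wordMat m S (u ^ M) fun a => u ^ idx a) ^ n) 0 j =
      ∑ w : Fin n → S, MonoidAlgebra.single ((List.ofFn fun i => (w i : P)).prod)
        ((eval u (wpoly F M idx n w)) ^ (j : ℕ)) := by
  induction n generalizing j with
  | zero =>
    rw [pow_zero, Matrix.one_apply, Fintype.sum_unique]
    simp only [wpoly, eval_zero, List.ofFn_zero, List.prod_nil]
    by_cases hj : 0 = j
    · subst hj
      simp [MonoidAlgebra.one_def]
    · rw [if_neg hj, zero_pow, MonoidAlgebra.single_zero]
      intro h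
      exact hj (Fin.ext h.symm)
  | succ n ih =>
    rw [pow_succ, Matrix.mul_apply]
    simp only [ih]
    refine Eq.trans ?_ (Fintype.sum_equiv (Fin.snocEquiv fun _ : Fin (n + 1) => S)
      (fun z => MonoidAlgebra.single ((List.ofFn fun i => (z.2 i : P)).prod * (z.1 : P))
        ((u ^ M * eval u (wpoly F M idx n z.2) + u ^ idx z.1) ^ (j : ℕ))) _ ?_)
    · rw [Fintype.sum_prod_type]
      simp only [wordMat, Matrix.of_apply, Finset.sum_mul, Finset.mul_sum,
        MonoidAlgebra.single_mul_single]
      rw [Finset.sum_comm]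
      refine Finset.sum_congr rfl fun a _ => ?_
      rw [Finset.sum_comm]
      refine Finset.sum_congr rfl fun w _ => ?_
      rw [← sum_pow_mul_substMat]
      exact (map_sum (MonoidAlgebra.singleAddHom ((List.ofFn fun i => (w i : P)).prod * (a : P)))
        _ _).symm
    · rintro ⟨a, w⟩
      have e1 : (List.ofFn fun i => (((Fin.snocEquiv fun _ : Fin (n + 1) => S) (a, w)) i : P)).prod =
          (List.ofFn fun i => (w i : P)).prod * (a : P) := by
        rw [List.ofFn_succ', List.concat_eq_append, List.prod_append, List.prod_singleton]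
        simp
      have e2 : eval u (wpoly F M idx (n + 1) ((Fin.snocEquiv fun _ : Fin (n + 1) => S) (a, w))) =
          u ^ M * eval u (wpoly F M idx n w) + u ^ idx a := by
        have e3 : Fin.init ((Fin.snocEquiv fun _ : Fin (n + 1) => S) (a, w)) = w := by
          funext i
          simp [Fin.init]
        have e4 : ((Fin.snocEquiv fun _ : Fin (n + 1) => S) (a, w)) (Fin.last n) = a := by
          simp
        rw [wpoly, e3, e4]
        simp
      rw [e1, e2]

end Words

/-- P13b from the conclusion of P13a for the field `k₁`. -/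
theorem many_words_of {F k₁ : Type*} [Field F] [Field k₁] [Algebra F k₁] {s : k₁}
    (hs : Transcendental F s) {P : Type*} [Group P]
    (hfin : ∀ (d : ℕ) (T : Matrix (Fin d) (Fin d) (MonoidAlgebra k₁ P)),
      {g : P | ∃ (n : ℕ) (i j : Fin d), ((T ^ n) i j).coeff g ≠ 0}.Finite)
    (S : Finset P) {X : Type*} [MulAction P X] (x₁ : X) (m : ℕ) :
    {x : X | ∃ n : ℕ, 0 < Nat.card {w : Fin n → S // (List.ofFn fun i => (w i : P)).prod • x₁ = x} ∧
      Nat.card {w : Fin n → S // (List.ofFn fun i => (w i : P)).prod • x₁ = x} ≤ m}.Finite := by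
  classical
  set M := Fintype.card S with hM
  let idx : S → ℕ := fun a => (Fintype.equivFin S a : ℕ)
  have hidx : Function.Injective idx := fun a b h =>
    (Fintype.equivFin S).injective (Fin.ext h)
  have hlt : ∀ a, idx a < M := fun a => (Fintype.equivFin S a).2
  set T := wordMat m S (s ^ M) fun a => s ^ idx a with hT
  refine ((hfin (m + 1) T).image fun g : P => g • x₁).subset ?_
  rintro x ⟨n, hpos, hle⟩
  by_contra hx
  set W := {w : Fin n → S // (List.ofFn fun i => (w i : P)).prod • x₁ = x} with hW
  let v' : (n : ℕ) → (Fin n → S) → k₁ := fun n w => eval s (wpoly k₁ M idx n w)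
  let v : (Fin n → S) → k₁ := fun w => eval s (wpoly k₁ M idx n w)
  let pr : (Fin n → S) → P := fun w => (List.ofFn fun i => (w i : P)).prod
  have hv : Function.Injective v := by
    have h1 : ∀ (n : ℕ) (w : Fin n → S), v' n w = aeval s (wpoly F M idx n w) := by
      intro n
      induction n with
      | zero => intro w; simp [v', wpoly]
      | succ n ih =>
        intro w
        have h2 : eval s (wpoly k₁ M idx n (Fin.init w)) =
          aeval s (wpoly F M idx n (Fin.init w)) := ih (Fin.init w)
        show eval s (wpoly k₁ M idx (n + 1) w) = _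
        simp [wpoly, h2]
    intro w w' h
    have h3 : v' n w = v' n w' := h
    rw [h1, h1] at h3
    exact wpoly_injective hidx hlt n ((transcendental_iff_injective.1 hs) h3)
  -- the sums of powers vanish
  have hsum : ∀ j : Fin (m + 1), ∑ w : W, v w.1 ^ (j : ℕ) = 0 := by
    intro j
    have h1 : ∀ g : P, g • x₁ = x → ((T ^ n) 0 j).coeff g = 0 := by
      intro g hg
      by_contra hne
      exact hx ⟨g, ⟨n, 0, j, hne⟩, hg⟩
    have h2 : ∀ g : P, ((T ^ n) 0 j).coeff g =
        ∑ w ∈ Finset.univ.filter (fun w : Fin n → S => pr w = g), v w ^ (j : ℕ) := by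
      intro g
      rw [hT, wordMat_pow, MonoidAlgebra.coeff_sum, Finsupp.finsetSum_apply, Finset.sum_filter]
      refine Finset.sum_congr rfl fun w _ => ?_
      rw [MonoidAlgebra.coeff_single, Finsupp.single_apply]
    have h3 : ∑ w : W, v w.1 ^ (j : ℕ) =
        ∑ w ∈ Finset.univ.filter (fun w : Fin n → S => pr w • x₁ = x), v w ^ (j : ℕ) :=
      (Finset.sum_subtype (Finset.univ.filter (fun w : Fin n → S => pr w • x₁ = x))
        (fun w => by
          rw [Finset.mem_filter]
          exact ⟨fun h => h.2, fun h => ⟨Finset.mem_univ _, h⟩⟩) fun w => v w ^ (j : ℕ)).symm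
    rw [h3, ← Finset.sum_fiberwise_of_maps_to (t := (Finset.univ.filter
      (fun w : Fin n → S => pr w • x₁ = x)).image pr) (g := pr)
      (fun w hw => Finset.mem_image_of_mem _ hw)]
    refine Finset.sum_eq_zero fun g hg => ?_
    obtain ⟨w₀, hw₀, rfl⟩ := Finset.mem_image.1 hg
    have h4 : pr w₀ • x₁ = x := (Finset.mem_filter.1 hw₀).2
    rw [← h1 _ h4, h2, Finset.filter_filter]
    refine Finset.sum_congr ?_ fun _ _ => rfl
    ext w
    simp only [Finset.mem_filter, Finset.mem_univ, true_and]
    exact ⟨fun h => h.2, fun h => ⟨by rw [h]; exact h4, h⟩⟩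
  -- Vandermonde
  let e : Fin (Nat.card W) ≃ W := (Finite.equivFin W).symm
  have hz : (1 : Fin (Nat.card W) → k₁) = 0 := by
    refine Matrix.eq_zero_of_forall_pow_sum_mul_pow_eq_zero (f := fun i => v (e i).1) ?_ ?_
    · intro a b hab
      exact e.injective (Subtype.ext (hv hab))
    · intro i
      have h2 := hsum ⟨i, by omega⟩
      rw [← h2]
      refine Fintype.sum_equiv e _ _ fun a => ?_
      simp
  exact one_ne_zero (congrFun hz ⟨0, hpos⟩)

lemma transcendental_pair {F K : Type*} [Field F] [Field K] [Algebra F K] {s t : K}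
    (hst : AlgebraicIndependent F ![s, t]) :
    Transcendental (IntermediateField.adjoin F {s}) t := by
  rw [IntermediateField.transcendental_adjoin_iff]
  have h := hst.transcendental_adjoin (s := {0}) (i := 1) (by simp)
  have e : ![s, t] '' {0} = {s} := by simp
  rw [e] at h
  simpa using h

lemma transcendental_fst {F K : Type*} [Field F] [Field K] [Algebra F K] {s t : K}
    (hst : AlgebraicIndependent F ![s, t]) :
    Transcendental F (⟨s, IntermediateField.mem_adjoin_simple_self F s⟩ :
      IntermediateField.adjoin F {s}) := by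
  have h : Transcendental F s := hst.transcendental 0
  intro h1
  exact h (h1.algebraMap (A := K))

end MP331e4fBw
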