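import Pool.Agent.Lib_MP_331e4f_bw.Words1
import Pool.Agent.Lib_MP_331e4f_bw.Words2

/-!
# P13: two algebraically independent elements: many words

P13a. Proof: `1 - t T` has augmentation matrix `1 - t ε(T)`, invertible since `t` is transcendental over
`k₁` (`det (1 - X ε(T))` is a non-zero polynomial); so `(1 - t T) y = e_j` over `K[P]`. As in Trans.lean (the
`k₁[X]`-module spanned by `1` and the coefficients of `y` in `K` is f.g. torsion-free, so free) there is
`λ` with `w = λ(1) ≠ 0` and `(1 - X T) λ(y) = w e_j` over `k₁[P][X]`; so for `g` outside the support of `y`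
the power series `w ∑ X^n (T^n e_j)_g` is `0`, hence `(T^n e_j)_g = 0` for all `n`.

P13b. Proof: let `k₁ = F_p(s)` inside `K`, `A_g = [[s, b_g], [0, 1]]` for `g ∈ S` with `b` an injective map
from `S` to (elements of) `F_p[s]` such that distinct words of the same length `n` have distinct
`b_w = ∑_i b(w_i) s'^i` (use `s' = s^M` instead of `s`, `b_g = s^(index of g)`, `M > |S|`: base `s'`
expansion). The matrix `A_w` of a word `w` of length `n` is `[[s'^n, b_w], [0, 1]]`, and the corner entry of
its `j`-th Kronecker power is `b_w ^ j`. Apply P13a to `T = ⨁_(j<=m) ∑_(g ∈ S) A_g^(⊗ j) ⊗ g`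
(or to one `j` at a time; equivalently use the action of the words on polynomials of degree at most `m`,
`f(X) ↦ f(s' X + b)`): for all but finitely many `x`, all `n` and all `j ≤ m`:
`∑_(w ∈ S^n, w x₁ = x) b_w ^ j = 0`. If there are between `1` and `m` such words this contradicts
Vandermonde (distinct `b_w`, coefficients `1`).
-/

namespace MP331e4fBw

open MP331e4f (aug AugRad)

/-- P13b. -/
theorem many_words {p : ℕ} [Fact p.Prime] {K : Type*} [Field K] [Algebra (ZMod p) K]
    {s t : K} (hst : AlgebraicIndependent (ZMod p) ![s, t]) {P : Type*} [Group P]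
    (h : AugRad K P) (S : Finset P) {X : Type*} [MulAction P X] (x₁ : X) (m : ℕ) :
    {x : X | ∃ n : ℕ, 0 < Nat.card {w : Fin n → S // (List.ofFn fun i => (w i : P)).prod • x₁ = x} ∧
      Nat.card {w : Fin n → S // (List.ofFn fun i => (w i : P)).prod • x₁ = x} ≤ m}.Finite :=
  many_words_of (transcendental_fst hst)
    (fun _ T => finite_support_powers (transcendental_pair hst) h T) S x₁ m

end MP331e4fBw
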